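import Mathlib
import Pool.Agent.Y201.C3.Cases
import Pool.Agent.Y201.LI.Stm2

/-! # Base points of a parametrization along the image of a line: job ARC -/

set_option autoImplicit false

namespace Pool.Agent.H44T.CF

open MvPolynomial Pool.Agent.TH314.PD Pool.Agent.Y201.C3 Pool.Agent.Y201.LI

noncomputable section

/-- Taylor's formula modulo squares -/
theorem taylor {σ : Type} [Fintype σ] [DecidableEq σ] {R : Type} [CommRing R] [Algebra ℂ R]
    (h w : σ → R) (t : R) (g : MvPolynomial σ ℂ) :
    ∃ E : R, aeval (fun i => h i + t * w i) g =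
      aeval h g + t * ∑ l, w l * aeval h (pderiv l g) + t ^ 2 * E := by
  induction g using MvPolynomial.induction_on with
  | C a =>
    refine ⟨0, ?_⟩
    simp
  | add f g hf hg =>
    obtain ⟨E, hE⟩ := hf
    obtain ⟨E', hE'⟩ := hg
    refine ⟨E + E', ?_⟩
    rw [map_add, hE, hE', map_add]
    simp only [map_add, mul_add, Finset.sum_add_distrib]
    ring
  | mul_X f i hf =>
    obtain ⟨E, hE⟩ := hf
    refine ⟨E * h i + (∑ l, w l * aeval h (pderiv l f)) * w i + t * E * w i, ?_⟩
    rw [map_mul, hE, aeval_X, map_mul, aeval_X]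
    have h1 : ∑ l, w l * aeval h (pderiv l (f * X i)) =
        (∑ l, w l * aeval h (pderiv l f)) * h i + aeval h f * w i := by
      have h2 : ∀ l, w l * aeval h (pderiv l (f * X i)) =
          w l * aeval h (pderiv l f) * h i + (if l = i then aeval h f * w l else 0) := by
        intro l
        rw [Derivation.leibniz]
        by_cases hl : l = i
        · subst hl
          rw [pderiv_X_self, if_pos rfl]
          simp only [smul_eq_mul, mul_one, map_add, map_mul, aeval_X]
          ring
        · rw [pderiv_X_of_ne (Ne.symm hl), if_neg hl]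
          simp only [smul_eq_mul, mul_zero, zero_add, map_mul, aeval_X, add_zero]
          ring
      simp only [h2]
      rw [Finset.sum_add_distrib, ← Finset.sum_mul, Finset.sum_ite_eq']
      simp
    rw [h1]
    ring

theorem ev_ae {σ : Type} (b : σ → ℂ) (p : MvPolynomial σ ℂ) : aeval b p = eval b p := by
  rw [MvPolynomial.aeval_def, MvPolynomial.eval₂_eq_eval_map]
  simp

/-- evaluation of compositions with polynomials in one variable -/
theorem eval_aeval {σ : Type} (h : σ → Polynomial ℂ) (τ : ℂ) (g : MvPolynomial σ ℂ) :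
    Polynomial.eval τ (aeval h g) = eval (fun l => Polynomial.eval τ (h l)) g := by
  have h1 : (Polynomial.aeval τ : Polynomial ℂ →ₐ[ℂ] ℂ).comp (aeval h) =
      (aeval (fun l => Polynomial.eval τ (h l)) : MvPolynomial σ ℂ →ₐ[ℂ] ℂ) := by
    apply algHom_ext
    intro i
    rw [AlgHom.comp_apply, aeval_X, aeval_X, Polynomial.coe_aeval_eq_eval]
  have h2 := DFunLike.congr_fun h1 g
  rw [AlgHom.comp_apply, Polynomial.coe_aeval_eq_eval, ev_ae] at h2
  exact h2

/-- the derivative of the parametrization at a base point on an arc -/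
theorem local_arc {F : MvPolynomial (Fin 6) ℂ} (hF : F.IsHomogeneous 3)
    (G : Fin 6 → MvPolynomial (Fin 5) ℂ) (hFG : aeval G F = 0)
    (h : Fin 5 → Polynomial ℂ) (r : Polynomial ℂ) (ν : ℕ) (hν : 1 ≤ ν) (x₀ x₁ : Fin 6 → ℂ)
    (hr : Polynomial.eval 0 r ≠ 0)
    (hG : ∀ i, aeval h (G i) = Polynomial.X ^ ν * r *
      (Polynomial.C (x₀ i) + Polynomial.X * Polynomial.C (x₁ i))) :
    (∀ i, eval (fun l => Polynomial.eval 0 (h l)) (G i) = 0) ∧
      ∀ (s : ℂ) (w : Fin 5 → ℂ), eval (fun i => s * x₀ i + ∑ l, w l *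
        eval (fun l => Polynomial.eval 0 (h l)) (pderiv l (G i))) F = 0 := by
  set b : Fin 5 → ℂ := fun l => Polynomial.eval 0 (h l) with hb
  refine ⟨fun i => ?_, ?_⟩
  · rw [← eval_aeval, hG]
    rw [Polynomial.eval_mul, Polynomial.eval_mul, Polynomial.eval_pow, Polynomial.eval_X,
      zero_pow (by omega), zero_mul, zero_mul]
  set c := Polynomial.eval 0 r with hc
  have hmain : ∀ w : Fin 5 → ℂ,
      eval (fun i => c * x₀ i + ∑ l, w l * eval b (pderiv l (G i))) F = 0 := by
    intro w
    have h1 := fun i => taylor h (fun l => Polynomial.C (w l)) (Polynomial.X ^ ν) (G i)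
    choose E hE using h1
    set Y : Fin 6 → Polynomial ℂ := fun i =>
      r * (Polynomial.C (x₀ i) + Polynomial.X * Polynomial.C (x₁ i)) +
        ∑ l, Polynomial.C (w l) * aeval h (pderiv l (G i)) + Polynomial.X ^ ν * E i with hY
    have h2 : ∀ i, aeval (fun l => h l + Polynomial.X ^ ν * Polynomial.C (w l)) (G i) =
        Polynomial.X ^ ν * Y i := by
      intro i
      rw [hE, hG, hY]
      ring
    have h3 : aeval (fun i => Polynomial.X ^ ν * Y i) F = 0 := by
      have h4 : (aeval (fun l => h l + Polynomial.X ^ ν * Polynomial.C (w l))).comp (aeval G) =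
          (aeval (fun i => Polynomial.X ^ ν * Y i) :
            MvPolynomial (Fin 6) ℂ →ₐ[ℂ] Polynomial ℂ) := by
        apply algHom_ext
        intro i
        rw [AlgHom.comp_apply, aeval_X, aeval_X, h2]
      rw [← h4, AlgHom.comp_apply, hFG, map_zero]
    rw [aeval_smul_form hF] at h3
    have h5 : aeval Y F = 0 :=
      (mul_eq_zero.1 h3).resolve_left (pow_ne_zero _ (pow_ne_zero _ Polynomial.X_ne_zero))
    have h6 := congrArg (Polynomial.eval 0) h5
    rw [eval_aeval, Polynomial.eval_zero] at h6
    rw [← h6]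
    congr 2
    funext i
    rw [hY]
    simp only [Polynomial.eval_add, Polynomial.eval_mul, Polynomial.eval_C, Polynomial.eval_X,
      Polynomial.eval_pow, zero_mul, add_zero, Polynomial.eval_finsetSum]
    rw [zero_pow (by omega), zero_mul, add_zero]
    congr 1
    refine Finset.sum_congr rfl fun l _ => ?_
    rw [eval_aeval]
  have hne : ∀ s : ℂ, s ≠ 0 → ∀ w : Fin 5 → ℂ,
      eval (fun i => s * x₀ i + ∑ l, w l * eval b (pderiv l (G i))) F = 0 := by
    intro s hs w
    have h1 := hmain (fun l => c / s * w l)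
    have h2 : (fun i => s * x₀ i + ∑ l, w l * eval b (pderiv l (G i))) =
        fun i => (s / c) * (c * x₀ i + ∑ l, c / s * w l * eval b (pderiv l (G i))) := by
      funext i
      rw [mul_add, Finset.mul_sum]
      congr 1
      · field_simp
      · refine Finset.sum_congr rfl fun l _ => ?_
        field_simp
    rw [h2, ← ev_ae, aeval_smul_form hF, ev_ae, h1, mul_zero]
  intro s w
  set Pl : Polynomial ℂ := aeval (fun i => Polynomial.X * Polynomial.C (x₀ i) +
    Polynomial.C (∑ l, w l * eval b (pderiv l (G i)))) F with hPl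
  have h1 : ∀ s : ℂ, Polynomial.eval s Pl =
      eval (fun i => s * x₀ i + ∑ l, w l * eval b (pderiv l (G i))) F := by
    intro s
    rw [hPl, eval_aeval]
    congr 2
    funext i
    simp only [Polynomial.eval_add, Polynomial.eval_mul, Polynomial.eval_C, Polynomial.eval_X]
  have h2 : Polynomial.X * Pl = 0 := by
    apply Polynomial.funext
    intro s
    rw [Polynomial.eval_mul, Polynomial.eval_X, Polynomial.eval_zero]
    by_cases hs : s = 0
    · rw [hs, zero_mul]
    · rw [h1, hne s hs, mul_zero]
  have h3 : Pl = 0 := (mul_eq_zero.1 h2).resolve_left Polynomial.X_ne_zero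
  rw [← h1, h3, Polynomial.eval_zero]

end

end Pool.Agent.H44T.CF
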