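import Mathlib
import Pool.Agent.H552R3.Tsen.Zero
import Pool.Agent.H44T.CF.Arc

/-! # Anisotropy of conic bundles with a double line over a smooth total space: job AN -/

set_option autoImplicit false

namespace Pool.Agent.H44T.CF

open MvPolynomial Pool.Agent.Y201.C3

noncomputable section

section core

variable {n : ℕ}

theorem lin_factor {l q : MvPolynomial (Fin n) ℂ} (hl : l.IsHomogeneous 1) (hl0 : l ≠ 0)
    (h : q ∣ l) : (∃ b : ℂ, q = C b) ∨ ∃ b : ℂ, q = C b * l := by
  obtain ⟨r, hr⟩ := h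
  have hq0 : q ≠ 0 := by
    rintro rfl
    exact hl0 (by rw [hr, zero_mul])
  have hr0 : r ≠ 0 := by
    rintro rfl
    exact hl0 (by rw [hr, mul_zero])
  have h1 := totalDegree_mul_of_isDomain hq0 hr0
  rw [← hr, hl.totalDegree hl0] at h1
  by_cases hq : q.totalDegree = 0
  · exact Or.inl ⟨_, totalDegree_eq_zero_iff_eq_C.1 hq⟩
  · right
    have hr1 : r.totalDegree = 0 := by omega
    have h2 := totalDegree_eq_zero_iff_eq_C.1 hr1
    set c := coeff 0 r with hc
    have hc0 : c ≠ 0 := by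
      intro h0
      apply hr0
      rw [h2, h0, C_0]
    refine ⟨c⁻¹, ?_⟩
    rw [hr, h2, mul_comm q, ← mul_assoc, ← C_mul, inv_mul_cancel₀ hc0, C_1, one_mul]

theorem eval_lin {l : MvPolynomial (Fin n) ℂ} (hl : l.IsHomogeneous 1) : eval 0 l = 0 := by
  have h1 := hl.coeff_eq_zero (d := 0) (by simp)
  have h2 : eval (0 : Fin n → ℂ) l = constantCoeff l := by rw [MvPolynomial.eval_zero]
  rw [h2, constantCoeff_eq]
  exact h1

/-- the quadratic equation with linear coefficients -/
theorem coreQ (l1 l2 l3 : MvPolynomial (Fin n) ℂ) (h1 : l1.IsHomogeneous 1)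
    (h2 : l2.IsHomogeneous 1) (h3 : l3.IsHomogeneous 1)
    (hne : ∀ a b : ℂ, (a ≠ 0 ∨ b ≠ 0) → C (a ^ 2) * l1 + C (2 * a * b) * l2 + C (b ^ 2) * l3 ≠ 0)
    (p q : MvPolynomial (Fin n) ℂ) (h : p ^ 2 * l1 + 2 * (p * q) * l2 + q ^ 2 * l3 = 0) :
    p = 0 ∧ q = 0 := by
  have hl1 : l1 ≠ 0 := by
    have := hne 1 0 (Or.inl one_ne_zero)
    simpa using this
  have hl3 : l3 ≠ 0 := by
    have := hne 0 1 (Or.inr one_ne_zero)
    simpa using this
  by_cases hp : p = 0
  · refine ⟨hp, ?_⟩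
    rw [hp] at h
    have h4 : q ^ 2 * l3 = 0 := by
      rw [← h]
      ring
    exact pow_eq_zero_iff (two_ne_zero) |>.1 ((mul_eq_zero.1 h4).resolve_right hl3)
  exfalso
  obtain ⟨p', q', g, hrel, hgp, hgq⟩ := UniqueFactorizationMonoid.exists_reduced_factors p hp q
  have hg0 : g ≠ 0 := by
    rintro rfl
    exact hp (by rw [← hgp, zero_mul])
  have hp0 : p' ≠ 0 := by
    rintro rfl
    exact hp (by rw [← hgp, mul_zero])
  have h' : p' ^ 2 * l1 + 2 * (p' * q') * l2 + q' ^ 2 * l3 = 0 := by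
    have h4 : g ^ 2 * (p' ^ 2 * l1 + 2 * (p' * q') * l2 + q' ^ 2 * l3) = 0 := by
      rw [← h, ← hgp, ← hgq]
      ring
    exact (mul_eq_zero.1 h4).resolve_left (pow_ne_zero _ hg0)
  have hq0 : q' ≠ 0 := by
    rintro rfl
    have h4 : p' ^ 2 * l1 = 0 := by
      rw [← h']
      ring
    exact (mul_ne_zero (pow_ne_zero 2 hp0) hl1) h4
  have hd1 : q' ∣ l1 := by
    have h4 : q' ∣ p' ^ 2 * l1 := ⟨-(2 * p' * l2 + q' * l3), by linear_combination h'⟩
    exact (hrel.symm.pow_right).dvd_of_dvd_mul_left h4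
  have hd3 : p' ∣ l3 := by
    have h4 : p' ∣ q' ^ 2 * l3 := ⟨-(p' * l1 + 2 * q' * l2), by linear_combination h'⟩
    exact (hrel.pow_right).dvd_of_dvd_mul_left h4
  rcases lin_factor h1 hl1 hd1 with ⟨b, hb⟩ | ⟨b, hb⟩ <;>
    rcases lin_factor h3 hl3 hd3 with ⟨a, ha⟩ | ⟨a, ha⟩
  · -- both constant
    have ha0 : a ≠ 0 := by
      rintro rfl
      exact hp0 (by rw [ha, C_0])
    apply hne a b (Or.inl ha0)
    rw [ha, hb] at h'
    rw [← h']
    simp only [C_mul, C_pow, map_ofNat]
    ring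
  · -- `q'` constant, `p' = a l3`
    have hb0 : b ≠ 0 := by
      rintro rfl
      exact hq0 (by rw [hb, C_0])
    rw [ha, hb] at h'
    have h4 : l3 * (C (a ^ 2) * l3 * l1 + C (2 * a * b) * l2 + C (b ^ 2)) = 0 := by
      rw [← h']
      simp only [C_mul, C_pow, map_ofNat]
      ring
    have h5 := (mul_eq_zero.1 h4).resolve_left hl3
    have h6 := congrArg (eval 0) h5
    simp only [map_add, map_mul, eval_C, eval_lin h1, eval_lin h2, eval_lin h3, mul_zero,
      zero_add, map_zero] at h6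
    exact (pow_ne_zero 2 hb0) h6
  · have ha0 : a ≠ 0 := by
      rintro rfl
      exact hp0 (by rw [ha, C_0])
    rw [ha, hb] at h'
    have h4 : l1 * (C (a ^ 2) + C (2 * a * b) * l2 + C (b ^ 2) * l1 * l3) = 0 := by
      rw [← h']
      simp only [C_mul, C_pow, map_ofNat]
      ring
    have h5 := (mul_eq_zero.1 h4).resolve_left hl1
    have h6 := congrArg (eval 0) h5
    simp only [map_add, map_mul, eval_C, eval_lin h1, eval_lin h2, eval_lin h3, mul_zero,
      add_zero, map_zero] at h6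
    exact (pow_ne_zero 2 ha0) h6
  · have ha0 : a ≠ 0 := by
      rintro rfl
      exact hp0 (by rw [ha, C_0, zero_mul])
    rw [ha, hb] at h'
    have h4 : (l1 * l3) * (C (b ^ 2) * l1 + C (2 * b * a) * l2 + C (a ^ 2) * l3) = 0 := by
      rw [← h']
      simp only [C_mul, C_pow, map_ofNat]
      ring
    exact hne b a (Or.inr ha0) ((mul_eq_zero.1 h4).resolve_left (mul_ne_zero hl1 hl3))

end core

/-- vectors orthogonal to `w` -/
theorem kernel_basis {R : Type} [CommRing R] [Algebra ℂ R] (w : Fin 3 → ℂ) (i0 : Fin 3)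
    (hw : w i0 ≠ 0) (P : Fin 3 → R) (hP : ∑ i, algebraMap ℂ R (w i) * P i = 0) :
    ∃ (u v : Fin 3 → ℂ) (p q : R), (∀ a b : ℂ, (a ≠ 0 ∨ b ≠ 0) → (fun i => a * u i + b * v i) ≠ 0) ∧
      ∑ i, w i * u i = 0 ∧ ∑ i, w i * v i = 0 ∧
      ∀ i, P i = algebraMap ℂ R (u i) * p + algebraMap ℂ R (v i) * q := by
  have key : ∀ i0 : Fin 3, ∃ j k : Fin 3, j ≠ i0 ∧ k ≠ i0 ∧ j ≠ k ∧
      ∀ i, i = i0 ∨ i = j ∨ i = k := by decide
  obtain ⟨j, k, hj, hk, hjk, hsum⟩ := key i0
  have hS : ∀ {A : Type} [AddCommMonoid A] (f : Fin 3 → A), ∑ i, f i = f i0 + f j + f k := by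
    intro A _ f
    have h1 : (Finset.univ : Finset (Fin 3)) = {i0, j, k} := by
      ext i
      simp only [Finset.mem_univ, Finset.mem_insert, Finset.mem_singleton, true_iff]
      exact hsum i
    rw [h1, Finset.sum_insert, Finset.sum_insert, Finset.sum_singleton, add_assoc]
    · simpa using hjk
    · simp only [Finset.mem_insert, Finset.mem_singleton, not_or]
      exact ⟨Ne.symm hj, Ne.symm hk⟩
  refine ⟨fun i => if i = j then 1 else if i = i0 then -(w j / w i0) else 0,
    fun i => if i = k then 1 else if i = i0 then -(w k / w i0) else 0, P j, P k, ?_, ?_, ?_, ?_⟩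
  · intro a b hab h0
    have e1 := congrFun h0 j
    have e2 := congrFun h0 k
    simp only [if_neg hjk, if_neg hj, if_neg hk, if_neg (Ne.symm hjk), if_true, mul_one,
      mul_zero, add_zero, zero_add, Pi.zero_apply] at e1 e2
    rcases hab with h | h
    · exact h e1
    · exact h e2
  · rw [hS]
    simp only [if_neg (Ne.symm hj), if_neg hk, if_neg (Ne.symm hjk), if_true]
    field_simp
    ring
  · rw [hS]
    simp only [if_neg (Ne.symm hk), if_neg hj, if_neg hjk, if_true]
    field_simp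
    ring
  · intro i
    rcases hsum i with rfl | rfl | rfl
    · simp only [if_neg (Ne.symm hj), if_neg (Ne.symm hk), if_true]
      rw [hS] at hP
      have h2 : algebraMap ℂ R (w i)⁻¹ * algebraMap ℂ R (w i) = 1 := by
        rw [← map_mul, inv_mul_cancel₀ hw, map_one]
      have h3 : algebraMap ℂ R (w i)⁻¹ * (algebraMap ℂ R (w i) * P i + algebraMap ℂ R (w j) * P j +
          algebraMap ℂ R (w k) * P k) = 0 := by rw [hP, mul_zero]
      simp only [map_neg, map_mul, div_eq_mul_inv, map_mul]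
      linear_combination h3 - P i * h2
    · simp only [if_neg hjk, if_neg hj, if_true, map_one, map_zero]
      ring
    · simp only [if_neg (Ne.symm hjk), if_neg hk, if_true, map_one, map_zero]
      ring

end

end Pool.Agent.H44T.CF
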