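import Mathlib
import Pool.Agent.H44T.CF.An

/-! # Anisotropy of conic bundles with a double line over a smooth total space: job AN, end -/

set_option autoImplicit false

namespace Pool.Agent.H44T.CF

open MvPolynomial Pool.Agent.Y201.C3

noncomputable section

/-- division by a power of the variable -/
theorem exists_unit_part {R : Type} [CommRing R] (Y : Fin 3 → Polynomial R)
    (hY : Y ≠ 0) : ∃ (e : ℕ) (W : Fin 3 → Polynomial R), (∀ i, Y i = Polynomial.X ^ e * W i) ∧
      ∃ i, (W i).coeff 0 ≠ 0 := by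
  classical
  obtain ⟨i1, hi1⟩ : ∃ i, Y i ≠ 0 := by
    by_contra hcon
    push Not at hcon
    exact hY (funext hcon)
  obtain ⟨i0, hi0, hmin⟩ := Finset.exists_min_image (Finset.univ.filter fun i => Y i ≠ 0)
    (fun i => (Y i).natTrailingDegree) ⟨i1, by simpa using hi1⟩
  simp only [Finset.mem_filter, Finset.mem_univ, true_and] at hi0 hmin
  obtain ⟨e, he⟩ : ∃ e, e = (Y i0).natTrailingDegree := ⟨_, rfl⟩
  have hdvd : ∀ i, ∃ W, Y i = Polynomial.X ^ e * W := by
    intro i
    change Polynomial.X ^ e ∣ Y i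
    rw [Polynomial.X_pow_dvd_iff]
    intro d hd
    by_cases hi : Y i = 0
    · rw [hi, Polynomial.coeff_zero]
    · exact Polynomial.coeff_eq_zero_of_lt_natTrailingDegree
        (lt_of_lt_of_le (he ▸ hd) (hmin i hi))
  choose W hW using hdvd
  refine ⟨e, W, hW, i0, ?_⟩
  have h1 : (Y i0).coeff e ≠ 0 := by
    have := Polynomial.trailingCoeff_nonzero_iff_nonzero.2 hi0
    rw [he]
    exact this
  intro h0
  apply h1
  rw [hW i0, Polynomial.coeff_X_pow_mul', if_pos le_rfl, Nat.sub_self, h0]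

/-- expansion at a point -/
def expa (η : Fin 4 → ℂ) : MvPolynomial (Fin 4) ℂ →ₐ[ℂ] Polynomial (MvPolynomial (Fin 4) ℂ) :=
  aeval (fun l => Polynomial.C (C (η l)) + Polynomial.X * Polynomial.C (X l))

theorem expa_eq (η : Fin 4 → ℂ) (g : MvPolynomial (Fin 4) ℂ) :
    ∃ E, expa η g = Polynomial.C (C (eval η g)) +
      Polynomial.X * Polynomial.C (∑ l, X l * C (eval η (pderiv l g))) + Polynomial.X ^ 2 * E := by
  obtain ⟨E, hE⟩ := taylor (R := Polynomial (MvPolynomial (Fin 4) ℂ))
    (fun l => Polynomial.C (C (η l))) (fun l => Polynomial.C (X l)) Polynomial.X g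
  refine ⟨E, ?_⟩
  unfold expa
  rw [hE]
  have h1 : ∀ f : MvPolynomial (Fin 4) ℂ,
      aeval (fun l => (Polynomial.C (C (η l)) : Polynomial (MvPolynomial (Fin 4) ℂ))) f =
        Polynomial.C (C (eval η f)) := by
    intro f
    induction f using MvPolynomial.induction_on with
    | C a =>
      rw [aeval_C, eval_C]
      rfl
    | add f g hf hg => rw [map_add, hf, hg, map_add, map_add, map_add]
    | mul_X f i hf => rw [map_mul, hf, aeval_X, map_mul, map_mul, map_mul, eval_X]
  have h2 : ∑ l, Polynomial.C (X l) *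
      aeval (fun l => (Polynomial.C (C (η l)) : Polynomial (MvPolynomial (Fin 4) ℂ)))
        (pderiv l g) = Polynomial.C (∑ l, X l * C (eval η (pderiv l g))) := by
    rw [map_sum]
    refine Finset.sum_congr rfl fun l _ => ?_
    rw [h1, map_mul]
  rw [h2, h1]

theorem expa_zero (η : Fin 4 → ℂ) (g : MvPolynomial (Fin 4) ℂ) :
    (expa η g).coeff 0 = C (eval η g) := by
  obtain ⟨E, hE⟩ := expa_eq η g
  rw [hE]
  simp [Polynomial.coeff_X_pow_mul', Polynomial.mul_coeff_zero]

theorem expa_one (η : Fin 4 → ℂ) (g : MvPolynomial (Fin 4) ℂ) :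
    (expa η g).coeff 1 = ∑ l, X l * C (eval η (pderiv l g)) := by
  obtain ⟨E, hE⟩ := expa_eq η g
  rw [hE, Polynomial.coeff_add, Polynomial.coeff_add, Polynomial.coeff_X_mul,
    Polynomial.coeff_C_zero, Polynomial.coeff_X_pow_mul', if_neg (by norm_num), add_zero,
    Polynomial.coeff_C_succ, zero_add]

theorem expa_eval (η : Fin 4 → ℂ) (g : MvPolynomial (Fin 4) ℂ) :
    Polynomial.eval 1 (expa η g) = Pool.Agent.H552R3.Tsen.shift ℂ η g := by
  unfold expa Pool.Agent.H552R3.Tsen.shift
  induction g using MvPolynomial.induction_on with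
  | C a =>
    rw [aeval_C, aeval_C]
    exact Polynomial.eval_C
  | add f g hf hg => rw [map_add, Polynomial.eval_add, hf, hg, map_add]
  | mul_X f i hf =>
    rw [map_mul, Polynomial.eval_mul, hf, map_mul, aeval_X, aeval_X, Polynomial.eval_add,
      Polynomial.eval_mul, Polynomial.eval_C, Polynomial.eval_C, Polynomial.eval_X, one_mul,
      add_comm (C (η i))]

theorem expa_inj (η : Fin 4 → ℂ) {g : MvPolynomial (Fin 4) ℂ} (h : expa η g = 0) : g = 0 := by
  have h1 := expa_eval η g
  rw [h, Polynomial.eval_zero] at h1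
  have h2 := Pool.Agent.H552R3.Tsen.shift_shift (k := ℂ) (-η) g
  rw [neg_neg, ← h1, map_zero] at h2
  exact h2.symm

end

end Pool.Agent.H44T.CF
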