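import Mathlib
import Pool.Agent.H44T.CF.An2

/-! # Anisotropy of conic bundles: the main argument of job AN -/

set_option autoImplicit false

namespace Pool.Agent.H44T.CF

open MvPolynomial Pool.Agent.Y201.C3

noncomputable section

section abs

variable {R : Type} [CommRing R]

theorem abs_sum (P Q : Fin 3 → R) (a L : Fin 3 → Fin 3 → R) (ha : ∀ i j, a i j = a j i) :
    ∑ i, ∑ j, (P i * L i j * P j + Q i * a i j * P j + P i * a i j * Q j) =
      (∑ i, ∑ j, P i * L i j * P j) + (∑ i, Q i * ∑ j, a i j * P j) +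
        ∑ j, (∑ i, a j i * P i) * Q j := by
  simp only [Fin.sum_univ_three]
  rw [ha 1 0, ha 2 0, ha 2 1]
  ring

theorem abs_core [IsDomain R] (P Q w : Fin 3 → R) (a L : Fin 3 → Fin 3 → R)
    (ha : ∀ i j, a i j = a j i) (α : R) (hα : α ≠ 0) (haw : ∀ i j, α * a i j = w i * w j)
    (h0 : ∑ i, ∑ j, P i * a i j * P j = 0)
    (h1 : ∑ i, ∑ j, (P i * L i j * P j + Q i * a i j * P j + P i * a i j * Q j) = 0) :
    ∑ i, w i * P i = 0 ∧ ∑ i, ∑ j, P i * L i j * P j = 0 := by
  have hwP : ∑ i, w i * P i = 0 := by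
    have h2 : (∑ i, w i * P i) * (∑ j, w j * P j) = α * ∑ i, ∑ j, P i * a i j * P j := by
      rw [Finset.sum_mul_sum, Finset.mul_sum]
      refine Finset.sum_congr rfl fun i _ => ?_
      rw [Finset.mul_sum]
      refine Finset.sum_congr rfl fun j _ => ?_
      linear_combination -(P i * P j) * haw i j
    rw [h0, mul_zero] at h2
    exact mul_self_eq_zero.1 h2
  refine ⟨hwP, ?_⟩
  have haP : ∀ i, ∑ j, a i j * P j = 0 := by
    intro i
    have h2 : α * ∑ j, a i j * P j = w i * ∑ j, w j * P j := by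
      rw [Finset.mul_sum, Finset.mul_sum]
      refine Finset.sum_congr rfl fun j _ => ?_
      linear_combination (P j) * haw i j
    rw [hwP, mul_zero] at h2
    exact (mul_eq_zero.1 h2).resolve_left hα
  rw [abs_sum P Q a L ha] at h1
  simp only [haP, mul_zero, zero_mul, Finset.sum_const_zero, add_zero] at h1
  exact h1

theorem abs_exp (u v : Fin 3 → R) (L : Fin 3 → Fin 3 → R) (hL : ∀ i j, L i j = L j i) (x y : R) :
    ∑ i, ∑ j, (u i * x + v i * y) * L i j * (u j * x + v j * y) =
      x ^ 2 * (∑ i, ∑ j, u i * L i j * u j) + 2 * (x * y) * (∑ i, ∑ j, u i * L i j * v j) +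
        y ^ 2 * (∑ i, ∑ j, v i * L i j * v j) := by
  simp only [Fin.sum_univ_three]
  rw [hL 1 0, hL 2 0, hL 2 1]
  ring

theorem abs_pow (W B : Fin 3 → R) (M : Fin 3 → Fin 3 → R) (t : R) (h : ∀ i, B i = t * W i) :
    ∑ i, ∑ j, B i * M i j * B j = t ^ 2 * ∑ i, ∑ j, W i * M i j * W j := by
  rw [Finset.mul_sum]
  refine Finset.sum_congr rfl fun i _ => ?_
  rw [Finset.mul_sum]
  refine Finset.sum_congr rfl fun j _ => ?_
  rw [h, h]
  ring

end abs

theorem an : S_AN := by
  classical
  intro A hA η hne hmin hker V hV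
  by_contra hV0
  have hAs : ∀ i j, A i j = A j i := fun i j => congrFun (congrFun hA j) i
  -- expansion
  have hY0 : (fun i => expa η (V i)) ≠ 0 := by
    intro h0
    exact hV0 (funext fun i => expa_inj η (congrFun h0 i))
  obtain ⟨e, W, hW, i1, hi1⟩ := exists_unit_part (fun i => expa η (V i)) hY0
  have hW0 : ∑ i, ∑ j, W i * expa η (A i j) * W j = 0 := by
    have h1 := congrArg (expa η) hV
    rw [map_zero] at h1
    simp only [map_sum, map_mul] at h1
    rw [abs_pow W (fun i => expa η (V i)) (fun i j => expa η (A i j)) _ hW] at h1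
    exact (mul_eq_zero.1 h1).resolve_left (pow_ne_zero _ (pow_ne_zero _ Polynomial.X_ne_zero))
  set a : Fin 3 → Fin 3 → ℂ := fun i j => eval η (A i j) with ha
  set L : Fin 3 → Fin 3 → MvPolynomial (Fin 4) ℂ :=
    fun i j => ∑ l, X l * C (eval η (pderiv l (A i j))) with hL
  set P : Fin 3 → MvPolynomial (Fin 4) ℂ := fun i => (W i).coeff 0 with hP
  set Q : Fin 3 → MvPolynomial (Fin 4) ℂ := fun i => (W i).coeff 1 with hQ
  have hasym : ∀ i j, a i j = a j i := fun i j => by
    change eval η (A i j) = eval η (A j i)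
    rw [hAs]
  have hLsym : ∀ i j, L i j = L j i := fun i j => by
    change ∑ l, X l * C (eval η (pderiv l (A i j))) = ∑ l, X l * C (eval η (pderiv l (A j i)))
    rw [hAs]
  have h0 : ∑ i, ∑ j, P i * C (a i j) * P j = 0 := by
    have h1 := congrArg (fun p => Polynomial.coeff p 0) hW0
    simp only [Polynomial.finsetSum_coeff, Polynomial.mul_coeff_zero, expa_zero,
      Polynomial.coeff_zero] at h1
    exact h1
  have h1 : ∑ i, ∑ j, (P i * L i j * P j + Q i * C (a i j) * P j + P i * C (a i j) * Q j) = 0 := by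
    have h2 := congrArg (fun p => Polynomial.coeff p 1) hW0
    simp only [Polynomial.finsetSum_coeff, Polynomial.mul_coeff_one, Polynomial.mul_coeff_zero,
      expa_zero, expa_one, Polynomial.coeff_zero] at h2
    rw [← h2]
    refine Finset.sum_congr rfl fun i _ => Finset.sum_congr rfl fun j _ => ?_
    change _ = P i * C (a i j) * Q j + (P i * L i j + Q i * C (a i j)) * P j
    ring
  -- rank one
  obtain ⟨i0, hi0⟩ : ∃ i0, a i0 i0 ≠ 0 := by
    obtain ⟨k, l, hkl⟩ := hne
    refine ⟨k, fun hk => ?_⟩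
    have h2 := hmin k l k l
    change a k k * a l l = a k l * a l k at h2
    rw [hk, zero_mul, ← hasym k l] at h2
    exact hkl (mul_self_eq_zero.1 h2.symm)
  set α := a i0 i0 with hα
  set w : Fin 3 → ℂ := fun i => a i i0 with hw
  have haw : ∀ i j, α * a i j = w i * w j := by
    intro i j
    have h2 := hmin i i0 j i0
    change a i j * a i0 i0 = a i i0 * a i0 j at h2
    rw [hasym i0 j] at h2
    rw [mul_comm]
    exact h2
  have hCα : (C α : MvPolynomial (Fin 4) ℂ) ≠ 0 := by
    rw [Ne, C_eq_zero]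
    exact hi0
  obtain ⟨hwP, hPL⟩ := abs_core P Q (fun i => C (w i)) (fun i j => C (a i j)) L
    (fun i j => by rw [hasym]) (C α) hCα (fun i j => by rw [← C_mul, ← C_mul, haw]) h0 h1
  obtain ⟨u, v, p, q, hind, hu, hv, hPuv⟩ := kernel_basis (R := MvPolynomial (Fin 4) ℂ) w i0 hi0 P
    (by
      rw [← hwP]
      rfl)
  have hPuv' : ∀ i, P i = C (u i) * p + C (v i) * q := hPuv
  set l1 := ∑ i, ∑ j, C (u i) * L i j * C (u j) with hl1
  set l2 := ∑ i, ∑ j, C (u i) * L i j * C (v j) with hl2
  set l3 := ∑ i, ∑ j, C (v i) * L i j * C (v j) with hl3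
  have hLhom : ∀ i j, (L i j).IsHomogeneous 1 := by
    intro i j
    refine IsHomogeneous.sum _ _ _ fun l _ => ?_
    have := (isHomogeneous_X ℂ l).mul (isHomogeneous_C (Fin 4) (eval η (pderiv l (A i j))))
    simpa using this
  have hhom : ∀ x y : Fin 3 → ℂ, (∑ i, ∑ j, C (x i) * L i j * C (y j)).IsHomogeneous 1 := by
    intro x y
    refine IsHomogeneous.sum _ _ _ fun i _ => IsHomogeneous.sum _ _ _ fun j _ => ?_
    have := ((isHomogeneous_C (Fin 4) (x i)).mul (hLhom i j)).mul (isHomogeneous_C (Fin 4) (y j))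
    simpa using this
  have hexp : ∀ x y : MvPolynomial (Fin 4) ℂ,
      ∑ i, ∑ j, (C (u i) * x + C (v i) * y) * L i j * (C (u j) * x + C (v j) * y) =
        x ^ 2 * l1 + 2 * (x * y) * l2 + y ^ 2 * l3 := by
    intro x y
    exact abs_exp (fun i => C (u i)) (fun i => C (v i)) L hLsym x y
  obtain ⟨hp0, hq0⟩ := coreQ l1 l2 l3 (hhom u u) (hhom u v) (hhom v v) (by
    intro b c hbc hzero
    set x : Fin 3 → ℂ := fun i => b * u i + c * v i with hx
    have hx0 := hind b c hbc
    have hwx : ∑ j, w j * x j = 0 := by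
      have : ∑ j, w j * x j = b * ∑ i, w i * u i + c * ∑ i, w i * v i := by
        rw [Finset.mul_sum, Finset.mul_sum, ← Finset.sum_add_distrib]
        refine Finset.sum_congr rfl fun j _ => ?_
        rw [hx]
        ring
      rw [this, hu, hv, mul_zero, mul_zero, add_zero]
    obtain ⟨l0, hl0⟩ := hker x hx0 (by
      intro i
      change ∑ j, a i j * x j = 0
      have h3 : α * ∑ j, a i j * x j = w i * ∑ j, w j * x j := by
        rw [Finset.mul_sum, Finset.mul_sum]
        refine Finset.sum_congr rfl fun j _ => ?_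
        linear_combination (x j) * haw i j
      rw [hwx, mul_zero] at h3
      exact (mul_eq_zero.1 h3).resolve_left hi0)
    apply hl0
    have h3 : ∑ i, ∑ j, C (x i) * L i j * C (x j) = 0 := by
      rw [← hzero]
      have h4 := hexp (C b) (C c)
      have h5 : C (b ^ 2) * l1 + C (2 * b * c) * l2 + C (c ^ 2) * l3 =
          (C b) ^ 2 * l1 + 2 * (C b * C c) * l2 + (C c) ^ 2 * l3 := by
        simp only [C_mul, C_pow, map_ofNat]
        ring
      rw [h5, ← h4]
      refine Finset.sum_congr rfl fun i _ => Finset.sum_congr rfl fun j _ => ?_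
      rw [hx]
      simp only [C_add, C_mul]
      ring
    have h6 := congrArg (eval (Pi.single l0 (1 : ℂ))) h3
    rw [map_zero] at h6
    have hLe : ∀ i j, eval (Pi.single l0 (1 : ℂ)) (L i j) = eval η (pderiv l0 (A i j)) := by
      intro i j
      change eval (Pi.single l0 (1 : ℂ)) (∑ l, X l * C (eval η (pderiv l (A i j)))) = _
      rw [map_sum, Finset.sum_eq_single l0]
      · rw [map_mul, eval_X, eval_C, Pi.single_eq_same, one_mul]
      · intro l _ hl
        rw [map_mul, eval_X, Pi.single_eq_of_ne hl, zero_mul]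
      · intro h
        exact absurd (Finset.mem_univ _) h
    rw [← h6]
    simp only [map_sum, map_mul, eval_C, hLe]
    refine Finset.sum_congr rfl fun i _ => Finset.sum_congr rfl fun j _ => ?_
    have e1 : pderiv l0 (C (x i) * A i j * C (x j)) = C (x i) * C (x j) * pderiv l0 (A i j) := by
      rw [Derivation.leibniz, Derivation.leibniz, pderiv_C, pderiv_C]
      simp only [smul_eq_mul]
      ring
    rw [e1, map_mul, map_mul, eval_C, eval_C]
    ring) p q (by
    rw [← hexp p q, ← hPL]
    refine Finset.sum_congr rfl fun i _ => Finset.sum_congr rfl fun j _ => ?_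
    rw [hPuv' i, hPuv' j])
  apply hi1
  have := hPuv' i1
  rw [hp0, hq0, mul_zero, mul_zero, add_zero] at this
  exact this

end

end Pool.Agent.H44T.CF
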