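import Mathlib
import Pool.Agent.H552R3.Tsen.Zero
import Pool.Agent.Y201.C3.Stm

/-! # Symmetric determinantal loci: job ETA -/

set_option autoImplicit false

namespace Pool.Agent.H44T.CF

open MvPolynomial Pool.Agent.Y201.C3

noncomputable section

/-- the pairs `i ≤ j` -/
def prs : Fin 6 → Fin 3 × Fin 3 := ![(0, 0), (0, 1), (0, 2), (1, 1), (1, 2), (2, 2)]

theorem eta : S_ETA := by
  intro A hA hA0
  let P : Fin 6 → MvPolynomial (Fin 4 ⊕ Fin 3) ℂ := fun a =>
    rename Sum.inl (A (prs a).1 (prs a).2) - X (Sum.inr (prs a).1) * X (Sum.inr (prs a).2)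
  have hev : ∀ (v : Fin 4 ⊕ Fin 3 → ℂ) (a : Fin 6), eval v (P a) =
      eval (fun l => v (Sum.inl l)) (A (prs a).1 (prs a).2) -
        v (Sum.inr (prs a).1) * v (Sum.inr (prs a).2) := by
    intro v a
    change eval v (rename Sum.inl (A (prs a).1 (prs a).2) -
      X (Sum.inr (prs a).1) * X (Sum.inr (prs a).2)) = _
    rw [map_sub, map_mul, eval_X, eval_X, eval_rename]
    rfl
  obtain ⟨v, hv0, hv⟩ := Pool.Agent.H552R3.Tsen.exists_common_zero (k := ℂ) P (by
    intro a
    rw [hev]
    have h1 : (fun l : Fin 4 => (0 : Fin 4 ⊕ Fin 3 → ℂ) (Sum.inl l)) = 0 := rfl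
    rw [h1, hA0]
    simp) (by simp)
  have h1 : ∀ i j : Fin 3, eval (fun l => v (Sum.inl l)) (A i j) =
      v (Sum.inr i) * v (Sum.inr j) := by
    have h2 : ∀ a : Fin 6, eval (fun l => v (Sum.inl l)) (A (prs a).1 (prs a).2) =
        v (Sum.inr (prs a).1) * v (Sum.inr (prs a).2) := fun a => by
      have := hv a
      rw [hev] at this
      exact sub_eq_zero.1 this
    have hs : ∀ i j, A i j = A j i := fun i j => by
      have := congrFun (congrFun hA j) i
      exact this
    intro i j
    fin_cases i <;> fin_cases j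
    · exact h2 0
    · exact h2 1
    · exact h2 2
    · have := h2 1
      change eval _ (A 0 1) = v (Sum.inr 0) * v (Sum.inr 1) at this
      change eval _ (A 1 0) = v (Sum.inr 1) * v (Sum.inr 0)
      rw [hs 1 0, this, mul_comm]
    · exact h2 3
    · exact h2 4
    · have := h2 2
      change eval _ (A 0 2) = v (Sum.inr 0) * v (Sum.inr 2) at this
      change eval _ (A 2 0) = v (Sum.inr 2) * v (Sum.inr 0)
      rw [hs 2 0, this, mul_comm]
    · have := h2 4
      change eval _ (A 1 2) = v (Sum.inr 1) * v (Sum.inr 2) at this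
      change eval _ (A 2 1) = v (Sum.inr 2) * v (Sum.inr 1)
      rw [hs 2 1, this, mul_comm]
    · exact h2 5
  refine ⟨fun l => v (Sum.inl l), ?_, fun i j k l => by simp only [h1]; ring⟩
  intro h0
  apply hv0
  funext z
  rcases z with l | i
  · exact congrFun h0 l
  · have h3 := h1 i i
    rw [h0, hA0] at h3
    have h4 : v (Sum.inr i) * v (Sum.inr i) = 0 := h3.symm
    exact mul_self_eq_zero.1 h4

end

end Pool.Agent.H44T.CF
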