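import Mathlib
import Pool.Agent.H44T.CF.An3
import Pool.Agent.H44T.CF.Eta
import Pool.Agent.Y201.C3.Cases
import Pool.Agent.Y201.LI.Stm2

/-! # The conic bundle of a line which meets no plane: job ANI2 -/

set_option autoImplicit false

namespace Pool.Agent.H44T.CF

open MvPolynomial Pool.Agent.Y201.C3 Pool.Agent.Y201.LI

noncomputable section

section der

variable {R : Type} [CommRing R] [Algebra ℂ R]

theorem D_Bf (T : Fin 6 → Fin 6 → Fin 6 → ℂ) (D : Derivation ℂ R R) (a b c : Fin 6 → R) :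
    D (Bf T a b c) = Bf T (fun i => D (a i)) b c + Bf T a (fun i => D (b i)) c +
      Bf T a b (fun i => D (c i)) := by
  unfold Bf
  simp only [map_sum, ← Finset.sum_add_distrib]
  refine Finset.sum_congr rfl fun i _ => Finset.sum_congr rfl fun j _ =>
    Finset.sum_congr rfl fun k _ => ?_
  rw [Derivation.leibniz, Derivation.leibniz, Derivation.leibniz, D.map_algebraMap]
  simp only [smul_eq_mul]
  ring

theorem map_Bf {R' : Type} [CommRing R'] [Algebra ℂ R'] (φ : R →ₐ[ℂ] R')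
    (T : Fin 6 → Fin 6 → Fin 6 → ℂ) (x y z : Fin 6 → R) :
    φ (Bf T x y z) = Bf T (fun i => φ (x i)) (fun i => φ (y i)) (fun i => φ (z i)) :=
  map_Bg φ T x y z

theorem Bf_z1 (T : Fin 6 → Fin 6 → Fin 6 → ℂ) (y z : Fin 6 → R) : Bf T (fun _ => 0) y z = 0 :=
  Bg_zero1 T y z

theorem Bf_z2 {T : Fin 6 → Fin 6 → Fin 6 → ℂ} (hT : SymT T) (y z : Fin 6 → R) :
    Bf T y (fun _ => 0) z = 0 := by
  rw [Bf_eq, Bg_swap12 hT, ← Bf_eq, Bf_z1]

theorem Bf_z3 {T : Fin 6 → Fin 6 → Fin 6 → ℂ} (hT : SymT T) (y z : Fin 6 → R) :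
    Bf T y z (fun _ => 0) = 0 := by
  rw [Bf_eq, Bg_swap23 hT, ← Bf_eq, Bf_z2 hT]

end der

/-- the unit vector `e_(l + 2)` -/
def e2 (R : Type) [CommRing R] (l : Fin 4) : Fin 6 → R := E (R := R) l.succ.succ

theorem e2_zero (R : Type) [CommRing R] (l : Fin 4) : e2 R l 0 = 0 := by
  unfold e2 E
  rw [Pi.single_eq_of_ne]
  exact (Fin.succ_ne_zero _).symm

theorem e2_one (R : Type) [CommRing R] (l : Fin 4) : e2 R l (Fin.succ 0) = 0 := by
  unfold e2 E
  rw [Pi.single_eq_of_ne]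
  intro h
  exact (Fin.succ_ne_zero _).symm (Fin.succ_injective _ h)

theorem e2_succ (R : Type) [CommRing R] (l k : Fin 4) :
    e2 R l k.succ.succ = if k = l then 1 else 0 := by
  unfold e2 E
  rw [Pi.single_apply]
  by_cases h : k = l
  · rw [h, if_pos rfl, if_pos rfl]
  · rw [if_neg h, if_neg fun h' => h (Fin.succ_injective _ (Fin.succ_injective _ h'))]

theorem yy_succ (k : Fin 4) : yy k.succ.succ = X k := by
  fin_cases k <;> rfl

theorem pd_yy (l : Fin 4) : (fun j => pderiv l (yy j)) = e2 (MvPolynomial (Fin 4) ℂ) l := by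
  funext j
  refine Fin.cases ?_ (fun j => Fin.cases ?_ (fun k => ?_) j) j
  · rw [e2_zero]
    exact map_zero _
  · rw [e2_one]
    exact map_zero _
  · rw [e2_succ, yy_succ, pderiv_X, Pi.single_apply]

/-- the point `(0, 0, η)` -/
def pt (η : Fin 4 → ℂ) : Fin 6 → ℂ := fun j => eval η (yy j)

theorem pt_zero (η : Fin 4 → ℂ) : pt η 0 = 0 := map_zero _
theorem pt_one (η : Fin 4 → ℂ) : pt η 1 = 0 := map_zero _
theorem pt_succ (η : Fin 4 → ℂ) (k : Fin 4) : pt η k.succ.succ = η k := by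
  unfold pt
  rw [yy_succ, eval_X]

theorem pt_ne {η : Fin 4 → ℂ} (h : η ≠ 0) : pt η ≠ 0 := by
  intro h0
  apply h
  funext k
  have := congrFun h0 k.succ.succ
  rw [pt_succ] at this
  exact this

theorem ev_E (η : Fin 4 → ℂ) (i : Fin 6) :
    (fun j => eval η ((E i : Fin 6 → MvPolynomial (Fin 4) ℂ) j)) = E i := by
  funext j
  unfold E
  rw [Pi.single_apply, Pi.single_apply]
  split_ifs
  · exact map_one _
  · exact map_zero _

theorem ev_Bf (T : Fin 6 → Fin 6 → Fin 6 → ℂ) (η : Fin 4 → ℂ)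
    (x y z : Fin 6 → MvPolynomial (Fin 4) ℂ) : eval η (Bf T x y z) =
      Bf T (fun i => eval η (x i)) (fun i => eval η (y i)) (fun i => eval η (z i)) := by
  have h := map_Bf (aeval η) T x y z
  simp only [ev_ae] at h
  exact h

theorem ev_cm (T : Fin 6 → Fin 6 → Fin 6 → ℂ) (η : Fin 4 → ℂ) (i j : Fin 3) :
    eval η (cm T yy i j) = cm T (pt η) i j := by
  have h0 : (fun j => eval η (yy j)) = pt η := rfl
  have hC : ∀ a : ℂ, eval η (algebraMap ℂ (MvPolynomial (Fin 4) ℂ) a) = a := fun a => eval_C a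
  fin_cases i <;> fin_cases j <;>
    simp [cm, ev_Bf, ev_E, h0, hC]

theorem cm_symm (T : Fin 6 → Fin 6 → Fin 6 → ℂ) {R : Type} [CommRing R] [Algebra ℂ R]
    (y : Fin 6 → R) : (cm T y).IsSymm := by
  ext i j
  fin_cases i <;> fin_cases j <;> rfl

theorem cm_zero {T : Fin 6 → Fin 6 → Fin 6 → ℂ} (hT : SymT T) (i j : Fin 3) :
    eval 0 (cm T yy i j) = 0 := by
  rw [ev_cm]
  have h0 : pt 0 = fun _ => 0 := by
    funext j
    refine Fin.cases (pt_zero 0) (fun j => Fin.cases (pt_one 0) (fun k => pt_succ 0 k) j) j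
  rw [h0]
  fin_cases i <;> fin_cases j <;> simp [cm, Bf_z3 hT]

end

end Pool.Agent.H44T.CF
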