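import Mathlib
import Pool.Agent.H44T.CF.Ani

/-! # The conic bundle of a line which meets no plane: job ANI2, end -/

set_option autoImplicit false

namespace Pool.Agent.H44T.CF

open MvPolynomial Pool.Agent.Y201.C3 Pool.Agent.Y201.LI

noncomputable section

theorem sym3 {A : Type} (g : Fin 3 → Fin 3 → Fin 3 → A) (a : A) (h12 : ∀ i j k, g i j k = g j i k)
    (h23 : ∀ i j k, g i j k = g i k j) (hs : ∀ i j k, i ≤ j → j ≤ k → g i j k = a) :
    ∀ i j k, g i j k = a := by
  intro i j k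
  rcases le_total i j with h1 | h1 <;> rcases le_total j k with h2 | h2 <;>
    rcases le_total i k with h3 | h3
  · exact hs _ _ _ h1 h2
  · exact hs _ _ _ h1 h2
  · rw [h23]
    exact hs _ _ _ h3 h2
  · rw [h23, h12]
    exact hs _ _ _ h3 h1
  · rw [h12]
    exact hs _ _ _ h1 h3
  · rw [h12, h23]
    exact hs _ _ _ h2 h3
  · rw [h12, h23, h12]
    exact hs _ _ _ h2 h1
  · rw [h12, h23, h12]
    exact hs _ _ _ h2 h1

theorem Bf_EEE (T : Fin 6 → Fin 6 → Fin 6 → ℂ) (i j k : Fin 6) :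
    Bf T (E i) (E j) (E k : Fin 6 → ℂ) = T i j k := by
  unfold Bf E
  simp [Pi.single_apply]

theorem Bf_Ezz (T : Fin 6 → Fin 6 → Fin 6 → ℂ) (i : Fin 6) (z : Fin 6 → ℂ) :
    Bf T (E i) z z = ∑ j, ∑ k, T i j k * z j * z k := by
  unfold Bf E
  simp [Pi.single_apply]

theorem sw12 {T : Fin 6 → Fin 6 → Fin 6 → ℂ} (hT : SymT T) {R : Type} [CommRing R] [Algebra ℂ R]
    (x y z : Fin 6 → R) : Bf T x y z = Bf T y x z := Bg_swap12 hT x y z

theorem sw23 {T : Fin 6 → Fin 6 → Fin 6 → ℂ} (hT : SymT T) {R : Type} [CommRing R] [Algebra ℂ R]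
    (x y z : Fin 6 → R) : Bf T x y z = Bf T x z y := Bg_swap23 hT x y z

theorem Bf_quad {T : Fin 6 → Fin 6 → Fin 6 → ℂ} (hT : SymT T) (p q r e : Fin 6 → ℂ) (a b c : ℂ) :
    Bf T e (fun i => a * p i + b * q i + c * r i) (fun i => a * p i + b * q i + c * r i) =
      a ^ 2 * Bf T p p e + b ^ 2 * Bf T q q e + c ^ 2 * Bf T r r e + 2 * a * b * Bf T p q e +
        2 * a * c * Bf T p r e + 2 * b * c * Bf T q r e := by
  rw [sw12 hT, sw23 hT]
  simp only [Bf_eq, Bg_add1, Bg_add2, Bg_smul1, Bg_smul2]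
  rw [Bg_swap12 hT q p e, Bg_swap12 hT r p e, Bg_swap12 hT r q e]
  ring

/-- the derivative of the matrix -/
def dcm (T : Fin 6 → Fin 6 → Fin 6 → ℂ) (y e : Fin 6 → ℂ) : Matrix (Fin 3) (Fin 3) ℂ :=
  !![3 * Bf T (E 0) (E 0) e, 3 * Bf T (E 0) (E 1) e, 3 * Bf T (E 0) y e;
     3 * Bf T (E 0) (E 1) e, 3 * Bf T (E 1) (E 1) e, 3 * Bf T (E 1) y e;
     3 * Bf T (E 0) y e, 3 * Bf T (E 1) y e, 3 * Bf T y y e]

theorem D_E (l : Fin 4) (i : Fin 6) :
    (fun j => pderiv l ((E i : Fin 6 → MvPolynomial (Fin 4) ℂ) j)) = fun _ => 0 := by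
  funext j
  unfold E
  rw [Pi.single_apply]
  split_ifs
  · exact Derivation.map_one_eq_zero _
  · exact map_zero _

theorem ev_e2 (η : Fin 4 → ℂ) (l : Fin 4) :
    (fun j => eval η (e2 (MvPolynomial (Fin 4) ℂ) l j)) = e2 ℂ l := ev_E η _

theorem D_mulc (l : Fin 4) (a : ℂ) (f : MvPolynomial (Fin 4) ℂ) :
    pderiv l (algebraMap ℂ _ a * f) = algebraMap ℂ _ a * pderiv l f := by
  rw [Derivation.leibniz, Derivation.map_algebraMap]
  simp

theorem dcm_eq {T : Fin 6 → Fin 6 → Fin 6 → ℂ} (hT : SymT T) (η : Fin 4 → ℂ) (l : Fin 4)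
    (i j : Fin 3) : eval η (pderiv l (cm T yy i j)) = dcm T (pt η) (e2 ℂ l) i j := by
  have h0 : (fun j => eval η (yy j)) = pt η := rfl
  have hA : ∀ a b : Fin 6, eval η (pderiv l (3 * Bf T (E a) (E b) yy)) =
      3 * Bf T (E a) (E b) (e2 ℂ l) := by
    intro a b
    have h3 : (3 : MvPolynomial (Fin 4) ℂ) = algebraMap ℂ _ 3 := by rw [map_ofNat]
    rw [h3, D_mulc, D_Bf, D_E, D_E, pd_yy, Bf_z1, Bf_z2 hT, map_mul, zero_add, zero_add, ev_Bf,
      ev_E, ev_E, ev_e2]
    congr 1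
    exact eval_C _
  have hB : ∀ a : Fin 6, eval η (pderiv l (algebraMap ℂ (MvPolynomial (Fin 4) ℂ) (3 / 2) *
      Bf T (E a) yy yy)) = 3 * Bf T (E a) (pt η) (e2 ℂ l) := by
    intro a
    rw [D_mulc, D_Bf, D_E, pd_yy, Bf_z1, zero_add, sw23 hT (E a) (e2 _ l) yy, map_mul, map_add,
      ev_Bf, ev_E, ev_e2, h0]
    have h3 : eval η (algebraMap ℂ (MvPolynomial (Fin 4) ℂ) (3 / 2)) = 3 / 2 := eval_C _
    rw [h3]
    ring
  have hC : eval η (pderiv l (Bf T yy yy yy)) = 3 * Bf T (pt η) (pt η) (e2 ℂ l) := by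
    rw [D_Bf, pd_yy, sw23 hT yy (e2 _ l) yy, sw12 hT (e2 _ l) yy yy, sw23 hT yy (e2 _ l) yy,
      map_add, map_add, ev_Bf, ev_e2, h0]
    ring
  fin_cases i <;> fin_cases j
  · exact hA 0 0
  · exact hA 0 1
  · exact hB 0
  · exact hA 0 1
  · exact hA 1 1
  · exact hB 1
  · exact hB 0
  · exact hB 1
  · exact hC

theorem ani2 : S_ANI2 := by
  classical
  intro T hT hS hL hpl V hV
  obtain ⟨η, hη0, hrank⟩ := eta (cm T yy) (cm_symm T yy) (cm_zero hT)
  refine an (cm T yy) (cm_symm T yy) η ?_ hrank ?_ V hV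
  · -- the conic is not zero
    by_contra hcon
    push Not at hcon
    obtain ⟨i, j, k, h⟩ := hpl (pt η) (pt_zero η) (pt_one η) (pt_ne hη0)
    apply h
    have c : ∀ i j, cm T (pt η) i j = 0 := fun i j => by
      rw [← ev_cm]
      exact hcon i j
    have c00 : Bf T (E 0) (E 0) (pt η) = 0 := by
      have : 3 * Bf T (E 0) (E 0) (pt η) = 0 := c 0 0
      exact (mul_eq_zero.1 this).resolve_left (by norm_num)
    have c01 : Bf T (E 0) (E 1) (pt η) = 0 := by
      have : 3 * Bf T (E 0) (E 1) (pt η) = 0 := c 0 1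
      exact (mul_eq_zero.1 this).resolve_left (by norm_num)
    have c11 : Bf T (E 1) (E 1) (pt η) = 0 := by
      have : 3 * Bf T (E 1) (E 1) (pt η) = 0 := c 1 1
      exact (mul_eq_zero.1 this).resolve_left (by norm_num)
    have c02 : Bf T (E 0) (pt η) (pt η) = 0 := by
      have : (3 / 2 : ℂ) * Bf T (E 0) (pt η) (pt η) = 0 := c 0 2
      exact (mul_eq_zero.1 this).resolve_left (by norm_num)
    have c12 : Bf T (E 1) (pt η) (pt η) = 0 := by
      have : (3 / 2 : ℂ) * Bf T (E 1) (pt η) (pt η) = 0 := c 1 2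
      exact (mul_eq_zero.1 this).resolve_left (by norm_num)
    have c22 : Bf T (pt η) (pt η) (pt η) = 0 := c 2 2
    refine sym3 (fun i j k => Bf T ((![E 0, E 1, pt η] : Fin 3 → Fin 6 → ℂ) i)
        ((![E 0, E 1, pt η] : Fin 3 → Fin 6 → ℂ) j) ((![E 0, E 1, pt η] : Fin 3 → Fin 6 → ℂ) k)) 0
      (fun i j k => sw12 hT _ _ _) (fun i j k => sw23 hT _ _ _) ?_ i j k
    have l0 : ∀ a b c : Fin 6, a.val < 2 → b.val < 2 → c.val < 2 →
        Bf T (E a) (E b) (E c : Fin 6 → ℂ) = 0 := fun a b c ha hb hc => by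
      rw [Bf_EEE]
      exact hL a b c ha hb hc
    intro i j k hij hjk
    fin_cases i <;> fin_cases j <;> fin_cases k <;>
      first
        | exact absurd hij (by decide)
        | exact absurd hjk (by decide)
        | exact c00
        | exact c01
        | exact c11
        | exact c02
        | exact c12
        | exact c22
        | exact l0 0 0 0 (by decide) (by decide) (by decide)
        | exact l0 0 0 1 (by decide) (by decide) (by decide)
        | exact l0 0 1 1 (by decide) (by decide) (by decide)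
        | exact l0 1 1 1 (by decide) (by decide) (by decide)
  · -- smoothness
    intro u hu hker
    by_contra hcon
    push Not at hcon
    apply hu
    set y := pt η with hy
    have hk : ∀ i, ∑ j, cm T y i j * u j = 0 := fun i => by
      rw [← hker i]
      exact Finset.sum_congr rfl fun j _ => by rw [ev_cm]
    have l0 : ∀ a b c : Fin 6, a.val < 2 → b.val < 2 → c.val < 2 →
        Bf T (E a) (E b) (E c : Fin 6 → ℂ) = 0 := fun a b c ha hb hc => by
      rw [Bf_EEE]
      exact hL a b c ha hb hc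
    have hz : (fun i => u 0 * (E 0 : Fin 6 → ℂ) i + u 1 * (E 1 : Fin 6 → ℂ) i + u 2 * y i) = 0 := by
      apply hS
      intro i
      rw [← Bf_Ezz, Bf_quad hT]
      refine Fin.cases ?_ (fun i => Fin.cases ?_ (fun l => ?_) i) i
      · have h1 := hk 0
        rw [Fin.sum_univ_three] at h1
        have h2 : 3 * Bf T (E 0) (E 0) y * u 0 + 3 * Bf T (E 0) (E 1) y * u 1 +
          (3 / 2 : ℂ) * Bf T (E 0) y y * u 2 = 0 := h1
        rw [l0 0 0 0 (by decide) (by decide) (by decide),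
          l0 1 1 0 (by decide) (by decide) (by decide),
          l0 0 1 0 (by decide) (by decide) (by decide),
          sw23 hT y y (E 0), sw12 hT y (E 0) y, sw23 hT (E 0) y (E 0), sw23 hT (E 1) y (E 0),
          sw12 hT (E 1) (E 0) y]
        linear_combination (2 / 3 * u 2) * h2
      · have h1 := hk 1
        rw [Fin.sum_univ_three] at h1
        have h2 : 3 * Bf T (E 0) (E 1) y * u 0 + 3 * Bf T (E 1) (E 1) y * u 1 +
          (3 / 2 : ℂ) * Bf T (E 1) y y * u 2 = 0 := h1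
        change _ * Bf T (E 0) (E 0) (E 1) + _ * Bf T (E 1) (E 1) (E 1) + _ * Bf T y y (E 1) +
          _ * Bf T (E 0) (E 1) (E 1) + _ * Bf T (E 0) y (E 1) + _ * Bf T (E 1) y (E 1) = 0
        rw [l0 0 0 1 (by decide) (by decide) (by decide),
          l0 1 1 1 (by decide) (by decide) (by decide),
          l0 0 1 1 (by decide) (by decide) (by decide),
          sw23 hT y y (E 1), sw12 hT y (E 1) y, sw23 hT (E 0) y (E 1), sw23 hT (E 1) y (E 1)]
        linear_combination (2 / 3 * u 2) * h2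
      · have h1 := hcon l
        have h2 : eval η (pderiv l (∑ i, ∑ j, C (u i) * cm T yy i j * C (u j))) =
            ∑ i, ∑ j, u i * dcm T y (e2 ℂ l) i j * u j := by
          simp only [map_sum]
          refine Finset.sum_congr rfl fun i _ => Finset.sum_congr rfl fun j _ => ?_
          have e1 : pderiv l (C (u i) * cm T yy i j * C (u j)) =
              C (u i) * C (u j) * pderiv l (cm T yy i j) := by
            rw [Derivation.leibniz, Derivation.leibniz, pderiv_C, pderiv_C]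
            simp only [smul_eq_mul]
            ring
          rw [e1, map_mul, map_mul, eval_C, eval_C, dcm_eq hT]
          ring
        rw [h2] at h1
        simp only [Fin.sum_univ_three] at h1
        change u 0 * (3 * Bf T (E 0) (E 0) (e2 ℂ l)) * u 0 +
          u 0 * (3 * Bf T (E 0) (E 1) (e2 ℂ l)) * u 1 +
          u 0 * (3 * Bf T (E 0) y (e2 ℂ l)) * u 2 +
          (u 1 * (3 * Bf T (E 0) (E 1) (e2 ℂ l)) * u 0 +
          u 1 * (3 * Bf T (E 1) (E 1) (e2 ℂ l)) * u 1 +
          u 1 * (3 * Bf T (E 1) y (e2 ℂ l)) * u 2) +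
          (u 2 * (3 * Bf T (E 0) y (e2 ℂ l)) * u 0 +
          u 2 * (3 * Bf T (E 1) y (e2 ℂ l)) * u 1 +
          u 2 * (3 * Bf T y y (e2 ℂ l)) * u 2) = 0 at h1
        change _ * Bf T (E 0) (E 0) (e2 ℂ l) + _ * Bf T (E 1) (E 1) (e2 ℂ l) +
          _ * Bf T y y (e2 ℂ l) + _ * Bf T (E 0) (E 1) (e2 ℂ l) + _ * Bf T (E 0) y (e2 ℂ l) +
          _ * Bf T (E 1) y (e2 ℂ l) = 0
        linear_combination (1 / 3 : ℂ) * h1
    have hy0 : y 0 = 0 := pt_zero η
    have hy1 : y 1 = 0 := pt_one η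
    have u0 : u 0 = 0 := by
      have := congrFun hz 0
      simpa [E, hy0] using this
    have u1 : u 1 = 0 := by
      have := congrFun hz 1
      simpa [E, hy1] using this
    have u2 : u 2 = 0 := by
      by_contra h2
      apply pt_ne hη0
      funext i
      have := congrFun hz i
      rw [u0, u1] at this
      simp only [zero_mul, zero_add, Pi.zero_apply] at this
      exact (mul_eq_zero.1 this).resolve_left h2
    funext i
    fin_cases i
    · exact u0
    · exact u1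
    · exact u2

end

end Pool.Agent.H44T.CF
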