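import Mathlib
import Pool.Agent.H44T.CF.Arc

/-! # Base points of a parametrization along the image of a line: job ARC, existence -/

set_option autoImplicit false

namespace Pool.Agent.H44T.CF

open MvPolynomial Pool.Agent.TH314.PD Pool.Agent.Y201.C3 Pool.Agent.Y201.LI

noncomputable section

/-- the line through `p` and `q` -/
def lin (p q : Fin 6 → ℂ) (i : Fin 6) : Polynomial ℂ :=
  Polynomial.C (p i) + Polynomial.X * Polynomial.C (q i)

theorem minor {p q : Fin 6 → ℂ} (h : LinearIndependent ℂ ![p, q]) :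
    ∃ i j, p i * q j - p j * q i ≠ 0 := by
  by_contra hcon
  push Not at hcon
  have hp : p ≠ 0 := h.ne_zero (0 : Fin 2)
  obtain ⟨i0, hi0⟩ : ∃ i, p i ≠ 0 := by
    by_contra hc
    push Not at hc
    exact hp (funext hc)
  have h1 := LinearIndependent.pair_iff.1 h (q i0) (-p i0) (by
    funext j
    have := hcon i0 j
    simp only [Pi.add_apply, Pi.smul_apply, smul_eq_mul, Pi.zero_apply]
    linear_combination -this)
  exact hi0 (neg_eq_zero.1 h1.2)

theorem rho {p q : Fin 6 → ℂ} (h : LinearIndependent ℂ ![p, q]) (g : Fin 6 → Polynomial ℂ)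
    (hg : ∀ i j, g i * lin p q j = g j * lin p q i) : ∃ ρ, ∀ i, g i = ρ * lin p q i := by
  obtain ⟨a, b, hab⟩ := minor h
  refine ⟨(Polynomial.C (q b) * g a - Polynomial.C (q a) * g b) *
    Polynomial.C (p a * q b - p b * q a)⁻¹, fun i => ?_⟩
  have h1 := hg i a
  have h2 := hg i b
  have h3 : Polynomial.C (p a * q b - p b * q a) * Polynomial.C (p a * q b - p b * q a)⁻¹ =
      (1 : Polynomial ℂ) := by
    rw [← Polynomial.C_mul, mul_inv_cancel₀ hab, Polynomial.C_1]
  have h4 : (Polynomial.C (q b) * g a - Polynomial.C (q a) * g b) * lin p q i =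
      g i * Polynomial.C (p a * q b - p b * q a) := by
    have e1 : lin p q a = Polynomial.C (p a) + Polynomial.X * Polynomial.C (q a) := rfl
    have e2 : lin p q b = Polynomial.C (p b) + Polynomial.X * Polynomial.C (q b) := rfl
    rw [e1] at h1
    rw [e2] at h2
    rw [Polynomial.C_sub, Polynomial.C_mul, Polynomial.C_mul]
    linear_combination -(Polynomial.C (q b)) * h1 + Polynomial.C (q a) * h2
  calc g i = g i * (Polynomial.C (p a * q b - p b * q a) *
        Polynomial.C (p a * q b - p b * q a)⁻¹) := by rw [h3, mul_one]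
    _ = _ := by
      rw [← mul_assoc, ← h4]
      ring

/-- composition with a translation -/
theorem comp_aeval (h : Fin 5 → Polynomial ℂ) (s : Polynomial ℂ) (g : MvPolynomial (Fin 5) ℂ) :
    (aeval h g).comp s = aeval (fun l => (h l).comp s) g := by
  have h1 : (Polynomial.aeval s : Polynomial ℂ →ₐ[ℂ] Polynomial ℂ).comp (aeval h) =
      (aeval (fun l => (h l).comp s) : MvPolynomial (Fin 5) ℂ →ₐ[ℂ] Polynomial ℂ) := by
    apply algHom_ext
    intro i
    rw [AlgHom.comp_apply, aeval_X, aeval_X, Polynomial.aeval_def, Polynomial.comp]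
    rfl
  have h2 := DFunLike.congr_fun h1 g
  rw [← h2, AlgHom.comp_apply, Polynomial.aeval_def, Polynomial.comp]
  rfl

variable {p q : Fin 6 → ℂ}

/-- an arc over the line -/
def Good (G : Fin 6 → MvPolynomial (Fin 5) ℂ) (p q : Fin 6 → ℂ) (h : Fin 5 → Polynomial ℂ) : Prop :=
  ∃ ρ : Polynomial ℂ, ρ ≠ 0 ∧ ∀ i, aeval h (G i) = ρ * lin p q i

theorem lin_ne (hpq : LinearIndependent ℂ ![p, q]) : ∃ i, lin p q i ≠ 0 := by
  have hp : p ≠ 0 := hpq.ne_zero (0 : Fin 2)
  obtain ⟨i0, hi0⟩ : ∃ i, p i ≠ 0 := by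
    by_contra hc
    push Not at hc
    exact hp (funext hc)
  refine ⟨i0, fun h => hi0 ?_⟩
  have := congrArg (Polynomial.eval 0) h
  simpa [lin] using this

theorem step {G : Fin 6 → MvPolynomial (Fin 5) ℂ} (hG : ∀ i, (G i).IsHomogeneous 3)
    (hpq : LinearIndependent ℂ ![p, q]) {h h' : Fin 5 → Polynomial ℂ} {τ : ℂ}
    (hh : ∀ l, h l = (Polynomial.X - Polynomial.C τ) * h' l) (hgood : Good G p q h) :
    Good G p q h' := by
  obtain ⟨ρ, hρ, hρ1⟩ := hgood
  have hX : (Polynomial.X - Polynomial.C τ : Polynomial ℂ) ^ 3 ≠ 0 :=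
    pow_ne_zero _ (Polynomial.X_sub_C_ne_zero τ)
  have h1 : ∀ i, (Polynomial.X - Polynomial.C τ) ^ 3 * aeval h' (G i) = ρ * lin p q i := by
    intro i
    rw [← hρ1, ← aeval_smul_form (hG i)]
    congr 2
    funext l
    exact (hh l).symm
  obtain ⟨ρ', hρ'⟩ := rho hpq (fun i => aeval h' (G i)) (fun i j => by
    apply mul_left_cancel₀ hX
    rw [← mul_assoc, ← mul_assoc, h1, h1]
    ring)
  refine ⟨ρ', ?_, hρ'⟩
  rintro rfl
  obtain ⟨i, hi⟩ := lin_ne hpq
  have h2 := h1 i
  have h3 := hρ' i
  simp only [zero_mul] at h3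
  rw [h3, mul_zero] at h2
  exact (mul_ne_zero hρ hi) h2.symm

theorem ne_of_good {G : Fin 6 → MvPolynomial (Fin 5) ℂ} (hG : ∀ i, (G i).IsHomogeneous 3)
    (hpq : LinearIndependent ℂ ![p, q]) {h : Fin 5 → Polynomial ℂ} (hgood : Good G p q h) :
    ∃ l, h l ≠ 0 := by
  by_contra hcon
  push Not at hcon
  obtain ⟨ρ, hρ, hρ1⟩ := hgood
  obtain ⟨i, hi⟩ := lin_ne hpq
  have h1 := hρ1 i
  have h2 : h = fun l => 0 * (0 : Polynomial ℂ) := by
    funext l
    rw [hcon l, mul_zero]
  rw [h2, aeval_smul_form (hG i) (0 : Polynomial ℂ) (fun _ => (0 : Polynomial ℂ))] at h1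
  rw [zero_pow (by norm_num), zero_mul] at h1
  exact (mul_ne_zero hρ hi) h1.symm

/-- an arc without common zeros -/
theorem exists_prim {G : Fin 6 → MvPolynomial (Fin 5) ℂ} (hG : ∀ i, (G i).IsHomogeneous 3)
    (hpq : LinearIndependent ℂ ![p, q]) (hex : ∃ h, Good G p q h) :
    ∃ h, Good G p q h ∧ ∀ τ, ∃ l, Polynomial.eval τ (h l) ≠ 0 := by
  classical
  have hP : ∃ n : ℕ, ∃ h, Good G p q h ∧ ∑ l, (h l).natDegree = n := by
    obtain ⟨h, hh⟩ := hex
    exact ⟨_, h, hh, rfl⟩
  obtain ⟨h, hh, hn⟩ := Nat.find_spec hP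
  refine ⟨h, hh, fun τ => ?_⟩
  by_contra hcon
  push Not at hcon
  have hdvd : ∀ l, ∃ h', h l = (Polynomial.X - Polynomial.C τ) * h' := fun l =>
    Polynomial.dvd_iff_isRoot.2 (hcon l)
  choose h' hh' using hdvd
  have hg' := step hG hpq hh' hh
  obtain ⟨l0, hl0⟩ := ne_of_good hG hpq hg'
  have hdeg : ∀ l, h' l ≠ 0 → (h l).natDegree = (h' l).natDegree + 1 := by
    intro l hl
    rw [hh' l, Polynomial.natDegree_mul (Polynomial.X_sub_C_ne_zero τ) hl,
      Polynomial.natDegree_X_sub_C, add_comm]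
  have hle : ∀ l, (h' l).natDegree ≤ (h l).natDegree := by
    intro l
    by_cases hl : h' l = 0
    · rw [hl, Polynomial.natDegree_zero]
      exact Nat.zero_le _
    · rw [hdeg l hl]
      omega
  have hlt : ∑ l, (h' l).natDegree < ∑ l, (h l).natDegree := by
    refine Finset.sum_lt_sum (fun l _ => hle l) ⟨l0, Finset.mem_univ _, ?_⟩
    rw [hdeg l0 hl0]
    omega
  rw [hn] at hlt
  exact Nat.find_min hP hlt ⟨h', hg', rfl⟩

theorem arc : S_ARC := by
  classical
  intro T hT hS G hG hFG m H hH hdvd p q hpq hline ⟨i1, hi1⟩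
  have hF := frm_hom T
  -- the form vanishes on the line
  have hFl : aeval (lin p q) (frm T) = 0 := by
    rw [aeval_frm, Bf_eq]
    have h1 : lin p q = fun i => ∑ a : Fin 2, (![1, Polynomial.X] : Fin 2 → Polynomial ℂ) a *
        algebraMap ℂ (Polynomial ℂ) ((![p, q] : Fin 2 → Fin 6 → ℂ) a i) := by
      funext i
      rw [Fin.sum_univ_two]
      simp [lin, Polynomial.algebraMap_eq]
    rw [h1, ← Bg_comp hT]
    unfold Bg
    refine Finset.sum_eq_zero fun a _ => Finset.sum_eq_zero fun b _ =>
      Finset.sum_eq_zero fun c _ => ?_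
    have h2 : comp T (![p, q] : Fin 2 → Fin 6 → ℂ) a b c = 0 := hline a b c
    rw [h2, map_zero]
    ring
  -- the first arc
  have hex : ∃ h, Good G p q h := by
    set h : Fin 5 → Polynomial ℂ := fun l => aeval (lin p q) (H l) with hh
    have h1 : ∀ i, aeval (lin p q) (aeval H (G i)) = aeval h (G i) := by
      intro i
      have h2 : (aeval (lin p q)).comp (aeval H) =
          (aeval h : MvPolynomial (Fin 5) ℂ →ₐ[ℂ] Polynomial ℂ) := by
        apply algHom_ext
        intro i
        rw [AlgHom.comp_apply, aeval_X, aeval_X]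
      rw [← h2]
      rfl
    obtain ⟨ρ, hρ⟩ := rho hpq (fun i => aeval h (G i)) (fun i j => by
      obtain ⟨E, hE⟩ := hdvd i j
      have h3 := congrArg (aeval (lin p q)) hE
      rw [map_sub, map_mul, map_mul, aeval_X, aeval_X, map_mul, hFl, zero_mul, h1, h1] at h3
      exact sub_eq_zero.1 h3)
    refine ⟨h, ρ, ?_, hρ⟩
    rintro rfl
    apply hi1
    have h4 := hρ i1
    simp only [zero_mul] at h4
    rw [← h1] at h4
    have h5 := congrArg (Polynomial.eval 0) h4
    rw [eval_aeval, Polynomial.eval_zero] at h5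
    rw [← h5]
    congr 2
    funext l
    simp [lin]
  obtain ⟨h, ⟨ρ, hρ, hρ1⟩, hprim⟩ := exists_prim hG hpq hex
  by_cases hroot : ∃ τ, Polynomial.eval τ ρ = 0
  · -- a finite base point
    obtain ⟨τ, hτ⟩ := hroot
    obtain ⟨r, hr1, hr2⟩ := Polynomial.exists_eq_pow_rootMultiplicity_mul_and_not_dvd ρ hρ τ
    set ν := Polynomial.rootMultiplicity τ ρ with hν
    have hν1 : 1 ≤ ν := (Polynomial.rootMultiplicity_pos hρ).2 hτ
    set s : Polynomial ℂ := Polynomial.X + Polynomial.C τ with hs
    have hs0 : Polynomial.eval 0 s = τ := by simp [hs]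
    have h1 : ∀ i, aeval (fun l => (h l).comp s) (G i) = Polynomial.X ^ ν * r.comp s *
        (Polynomial.C (p i + τ * q i) + Polynomial.X * Polynomial.C (q i)) := by
      intro i
      rw [← comp_aeval, hρ1, hr1, Polynomial.mul_comp, Polynomial.mul_comp, Polynomial.pow_comp,
        Polynomial.sub_comp, Polynomial.X_comp, Polynomial.C_comp, hs]
      unfold lin
      rw [Polynomial.add_comp, Polynomial.mul_comp, Polynomial.X_comp, Polynomial.C_comp,
        Polynomial.C_comp]
      simp only [map_add, map_mul]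
      ring
    have hr0 : Polynomial.eval 0 (r.comp s) ≠ 0 := by
      rw [Polynomial.eval_comp, hs0]
      intro h0
      exact hr2 (Polynomial.dvd_iff_isRoot.2 h0)
    obtain ⟨h2, h3⟩ := local_arc hF G hFG (fun l => (h l).comp s) (r.comp s) ν hν1
      (fun i => p i + τ * q i) q hr0 h1
    have hb : (fun l => Polynomial.eval 0 ((h l).comp s)) = fun l => Polynomial.eval τ (h l) := by
      funext l
      rw [Polynomial.eval_comp, hs0]
    refine ⟨fun l => Polynomial.eval 0 ((h l).comp s), ?_, h2, fun i => p i + τ * q i, ?_,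
      ⟨1, τ, ?_⟩, h3⟩
    · rw [hb]
      intro h0
      obtain ⟨l, hl⟩ := hprim τ
      exact hl (congrFun h0 l)
    · intro h0
      have h4 := LinearIndependent.pair_iff.1 hpq 1 τ (by
        funext j
        have := congrFun h0 j
        simpa using this)
      exact one_ne_zero h4.1
    · funext j
      simp
  · -- the base point at infinity
    push Not at hroot
    have hdeg : ρ.degree = 0 := by
      by_contra hd
      obtain ⟨τ, hτ⟩ := IsAlgClosed.exists_root ρ hd
      exact hroot τ hτ
    rw [Polynomial.eq_C_of_degree_eq_zero hdeg] at hρ1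
    set c := ρ.coeff 0 with hc
    have hc0 : c ≠ 0 := by
      intro h0
      apply hρ
      rw [Polynomial.eq_C_of_degree_eq_zero hdeg, ← hc, h0, Polynomial.C_0]
    have hq : q ≠ 0 := hpq.ne_zero (1 : Fin 2)
    set D := Finset.univ.sup (fun l => (h l).natDegree) with hD
    have hle : ∀ l, (h l).natDegree ≤ D := fun l => Finset.le_sup (f := fun l => (h l).natDegree)
      (Finset.mem_univ l)
    have hD1 : 1 ≤ D := by
      by_contra hcon
      have h0 : ∀ l, h l = Polynomial.C ((h l).coeff 0) := fun l =>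
        Polynomial.eq_C_of_natDegree_eq_zero (by have := hle l; omega)
      apply hq
      funext i
      have h1 := hρ1 i
      have h2 : aeval h (G i) = Polynomial.C (eval (fun l => (h l).coeff 0) (G i)) := by
        apply Polynomial.funext
        intro τ
        rw [eval_aeval, Polynomial.eval_C]
        congr 2
        funext l
        rw [h0 l, Polynomial.eval_C, Polynomial.coeff_C_zero]
      rw [h2] at h1
      have h3 := congrArg (fun P => Polynomial.coeff P 1) h1
      simp [lin, Polynomial.coeff_C] at h3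
      rcases h3 with h3 | h3
      · exact absurd h3 hc0
      · exact h3
    obtain ⟨l0, -, hl0⟩ := Finset.exists_mem_eq_sup Finset.univ Finset.univ_nonempty
      (fun l => (h l).natDegree)
    rw [← hD] at hl0
    set h' : Fin 5 → Polynomial ℂ := fun l => Polynomial.reflect D (h l) with hh'
    have hev : ∀ (ε : ℂ), ε ≠ 0 → ∀ l, Polynomial.eval ε (h' l) =
        ε ^ D * Polynomial.eval ε⁻¹ (h l) := by
      intro ε hε l
      let _ : Invertible (ε⁻¹) := invertibleOfNonzero (inv_ne_zero hε)
      have h1 := Polynomial.eval₂_reflect_mul_pow (RingHom.id ℂ) ε⁻¹ D (h l) (hle l)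
      rw [invOf_eq_inv, inv_inv] at h1
      change Polynomial.eval ε (Polynomial.reflect D (h l)) * ε⁻¹ ^ D =
        Polynomial.eval ε⁻¹ (h l) at h1
      change Polynomial.eval ε (Polynomial.reflect D (h l)) = _
      rw [← h1, inv_pow, mul_comm, mul_assoc, inv_mul_cancel₀ (pow_ne_zero _ hε), mul_one]
    have hid : ∀ i, aeval h' (G i) = Polynomial.X ^ (3 * D - 1) * Polynomial.C c *
        (Polynomial.C (q i) + Polynomial.X * Polynomial.C (p i)) := by
      intro i
      have h1 : Polynomial.X * (aeval h' (G i) - Polynomial.X ^ (3 * D - 1) * Polynomial.C c *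
        (Polynomial.C (q i) + Polynomial.X * Polynomial.C (p i))) = 0 := by
        apply Polynomial.funext
        intro ε
        rw [Polynomial.eval_mul, Polynomial.eval_X, Polynomial.eval_zero]
        by_cases hε : ε = 0
        · rw [hε, zero_mul]
        rw [Polynomial.eval_sub, eval_aeval]
        have h2 : (fun l => Polynomial.eval ε (h' l)) =
            fun l => ε ^ D * Polynomial.eval ε⁻¹ (h l) := funext (hev ε hε)
        rw [h2, ← ev_ae, aeval_smul_form (hG i), ev_ae, ← eval_aeval, hρ1]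
        obtain ⟨D', hD'⟩ : ∃ D', D = D' + 1 := ⟨D - 1, by omega⟩
        have h3 : 3 * D - 1 = 3 * D' + 2 := by omega
        rw [h3, hD']
        simp only [lin, Polynomial.eval_mul, Polynomial.eval_add, Polynomial.eval_C,
          Polynomial.eval_X, Polynomial.eval_pow]
        field_simp
        ring
      exact sub_eq_zero.1 ((mul_eq_zero.1 h1).resolve_left Polynomial.X_ne_zero)
    obtain ⟨h2, h3⟩ := local_arc hF G hFG h' (Polynomial.C c) (3 * D - 1) (by omega) q p
      (by rw [Polynomial.eval_C]; exact hc0) hid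
    refine ⟨fun l => Polynomial.eval 0 (h' l), ?_, h2, q, hq, ⟨0, 1, ?_⟩, h3⟩
    · intro h0
      have h4 := congrFun h0 l0
      simp only [Pi.zero_apply] at h4
      rw [← Polynomial.coeff_zero_eq_eval_zero] at h4
      rw [hh'] at h4
      simp only at h4
      rw [Polynomial.coeff_reflect, Polynomial.revAt_zero, hl0] at h4
      have h5 := Polynomial.leadingCoeff_eq_zero.1 h4
      rw [h5, Polynomial.natDegree_zero] at hl0
      omega
    · rw [zero_smul, one_smul, zero_add]

end

end Pool.Agent.H44T.CF
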