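import Mathlib
import Pool.Agent.Y201.LI.Stm2

/-! # The net of polar conics on a plane: job NET -/

set_option autoImplicit false

namespace Pool.Agent.H44T.CF

open MvPolynomial Pool.Agent.Y201.C3 Pool.Agent.Y201.LI

noncomputable section

/-- `B (e_a, v_i, v_j)` -/
def nn (T : Fin 6 → Fin 6 → Fin 6 → ℂ) (v : Fin 3 → Fin 6 → ℂ) (a : Fin 6) (i j : Fin 3) : ℂ :=
  ∑ b, ∑ c, T a b c * v i b * v j c

theorem nn_symm {T : Fin 6 → Fin 6 → Fin 6 → ℂ} (hT : SymT T) (v : Fin 3 → Fin 6 → ℂ)
    (a : Fin 6) (i j : Fin 3) : nn T v a i j = nn T v a j i := by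
  unfold nn
  rw [Finset.sum_comm]
  refine Finset.sum_congr rfl fun b _ => Finset.sum_congr rfl fun c _ => ?_
  rw [(hT a b c).2]
  ring

theorem Bf_nn (T : Fin 6 → Fin 6 → Fin 6 → ℂ) (v : Fin 3 → Fin 6 → ℂ) (x : Fin 6 → ℂ)
    (i j : Fin 3) : Bf T x (v i) (v j) = ∑ a, x a * nn T v a i j := by
  unfold Bf nn
  refine Finset.sum_congr rfl fun a _ => ?_
  rw [Finset.mul_sum]
  refine Finset.sum_congr rfl fun b _ => ?_
  rw [Finset.mul_sum]
  refine Finset.sum_congr rfl fun c _ => ?_
  simp only [Algebra.algebraMap_self, RingHom.id_apply]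
  ring

/-- a common zero of the polar conics of a plane is a singular point -/
theorem sing_of_nn {T : Fin 6 → Fin 6 → Fin 6 → ℂ} (hS : SmoothT T)
    {v : Fin 3 → Fin 6 → ℂ} (hv : LinearIndependent ℂ v) (u : Fin 3 → ℂ)
    (h : ∀ a, ∑ i, ∑ j, u i * u j * nn T v a i j = 0) : u = 0 := by
  have hz : (∑ i, u i • v i) = 0 := by
    apply hS
    intro a
    have h1 : ∑ j, ∑ k, T a j k * (∑ i, u i • v i) j * (∑ i, u i • v i) k =
        ∑ i, ∑ j, u i * u j * nn T v a i j := by
      have h2 : ∀ b, (∑ i, u i • v i) b = ∑ i, u i * v i b := by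
        intro b
        rw [Finset.sum_apply]
        rfl
      simp only [h2]
      unfold nn
      have h3 : ∀ b c, T a b c * (∑ i, u i * v i b) * (∑ i, u i * v i c) =
          ∑ i, ∑ j, u i * u j * (T a b c * v i b * v j c) := by
        intro b c
        rw [mul_assoc, Finset.sum_mul_sum, Finset.mul_sum]
        refine Finset.sum_congr rfl fun i _ => ?_
        rw [Finset.mul_sum]
        refine Finset.sum_congr rfl fun j _ => ?_
        ring
      simp only [h3]
      simp only [Finset.mul_sum]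
      calc ∑ b, ∑ c, ∑ i, ∑ j, u i * u j * (T a b c * v i b * v j c)
          = ∑ b, ∑ i, ∑ c, ∑ j, u i * u j * (T a b c * v i b * v j c) :=
            Finset.sum_congr rfl fun b _ => Finset.sum_comm
        _ = ∑ i, ∑ b, ∑ c, ∑ j, u i * u j * (T a b c * v i b * v j c) := Finset.sum_comm
        _ = ∑ i, ∑ b, ∑ j, ∑ c, u i * u j * (T a b c * v i b * v j c) :=
            Finset.sum_congr rfl fun i _ => Finset.sum_congr rfl fun b _ => Finset.sum_comm
        _ = ∑ i, ∑ j, ∑ b, ∑ c, u i * u j * (T a b c * v i b * v j c) :=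
            Finset.sum_congr rfl fun i _ => Finset.sum_comm
    rw [h1]
    exact h a
  funext i
  exact (Fintype.linearIndependent_iff.1 hv) u hz i

/-- the determinant of the net as a polynomial -/
def netMat (T : Fin 6 → Fin 6 → Fin 6 → ℂ) (v : Fin 3 → Fin 6 → ℂ) :
    Matrix (Fin 3) (Fin 3) (MvPolynomial (Fin 6) ℂ) :=
  fun i j => ∑ a, X a * C (nn T v a i j)

theorem netMat_eval (T : Fin 6 → Fin 6 → Fin 6 → ℂ) (v : Fin 3 → Fin 6 → ℂ) (x : Fin 6 → ℂ)
    (i j : Fin 3) : eval x (netMat T v i j) = Bf T x (v i) (v j) := by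
  rw [Bf_nn]
  unfold netMat
  rw [map_sum]
  refine Finset.sum_congr rfl fun a _ => ?_
  rw [map_mul, eval_X, eval_C]

theorem netMat_det_eval (T : Fin 6 → Fin 6 → Fin 6 → ℂ) (v : Fin 3 → Fin 6 → ℂ)
    (x : Fin 6 → ℂ) : eval x (netMat T v).det =
      (Matrix.of fun i j : Fin 3 => Bf T x (v i) (v j)).det := by
  rw [RingHom.map_det]
  congr 1
  ext i j
  exact netMat_eval T v x i j

theorem netMat_det_ne {T : Fin 6 → Fin 6 → Fin 6 → ℂ} (hT : SymT T) (hS : SmoothT T)
    {v : Fin 3 → Fin 6 → ℂ} (hv : LinearIndependent ℂ v) : (netMat T v).det ≠ 0 := by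
  classical
  intro hdet
  obtain ⟨U, hU0, hU⟩ := Matrix.exists_mulVec_eq_zero_iff.2 hdet
  have hUi : ∀ i, ∑ j, netMat T v i j * U j = 0 := fun i => congrFun hU i
  have hsym : ∀ i j, netMat T v i j = netMat T v j i := by
    intro i j
    unfold netMat
    refine Finset.sum_congr rfl fun a _ => ?_
    rw [nn_symm hT]
  have hder : ∀ (l : Fin 6) (i j : Fin 3), pderiv l (netMat T v i j) = C (nn T v l i j) := by
    intro l i j
    unfold netMat
    rw [map_sum, Finset.sum_eq_single l]
    · rw [Derivation.leibniz, pderiv_C, pderiv_X_self]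
      simp
    · intro b _ hb
      rw [Derivation.leibniz, pderiv_C, pderiv_X_of_ne hb]
      simp
    · intro h
      exact absurd (Finset.mem_univ l) h
  have hmain : ∀ l, ∑ i, ∑ j, U i * U j * C (nn T v l i j) = 0 := by
    intro l
    have h1 : ∀ i, ∑ j, (netMat T v i j * pderiv l (U j) + U j * C (nn T v l i j)) = 0 := by
      intro i
      have h2 := congrArg (pderiv l) (hUi i)
      rw [map_zero, map_sum] at h2
      rw [← h2]
      refine Finset.sum_congr rfl fun j _ => ?_
      rw [Derivation.leibniz, hder]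
      rfl
    have h3 : ∑ i, U i * ∑ j, (netMat T v i j * pderiv l (U j) + U j * C (nn T v l i j)) = 0 :=
      Finset.sum_eq_zero fun i _ => by rw [h1, mul_zero]
    have h4 : ∑ i, U i * ∑ j, (netMat T v i j * pderiv l (U j) + U j * C (nn T v l i j)) =
        (∑ i, ∑ j, U i * (netMat T v i j * pderiv l (U j))) +
          ∑ i, ∑ j, U i * U j * C (nn T v l i j) := by
      rw [← Finset.sum_add_distrib]
      refine Finset.sum_congr rfl fun i _ => ?_
      rw [Finset.mul_sum, ← Finset.sum_add_distrib]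
      refine Finset.sum_congr rfl fun j _ => ?_
      ring
    have h5 : ∑ i, ∑ j, U i * (netMat T v i j * pderiv l (U j)) = 0 := by
      rw [Finset.sum_comm]
      refine Finset.sum_eq_zero fun j _ => ?_
      have h6 : ∑ i, U i * (netMat T v i j * pderiv l (U j)) =
          (∑ i, netMat T v j i * U i) * pderiv l (U j) := by
        rw [Finset.sum_mul]
        refine Finset.sum_congr rfl fun i _ => ?_
        rw [hsym i j]
        ring
      rw [h6, hUi, zero_mul]
    rw [h4, h5, zero_add] at h3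
    exact h3
  obtain ⟨i0, hi0⟩ : ∃ i, U i ≠ 0 := by
    by_contra hcon
    push Not at hcon
    exact hU0 (funext hcon)
  obtain ⟨x0, hx0⟩ : ∃ x : Fin 6 → ℂ, eval x (U i0) ≠ 0 := by
    by_contra hcon
    push Not at hcon
    apply hi0
    apply MvPolynomial.funext
    intro x
    rw [hcon, map_zero]
  have h7 := sing_of_nn hS hv (fun i => eval x0 (U i)) (fun a => by
    have := congrArg (eval x0) (hmain a)
    rw [map_zero, map_sum] at this
    rw [← this]
    refine Finset.sum_congr rfl fun i _ => ?_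
    rw [map_sum]
    refine Finset.sum_congr rfl fun j _ => ?_
    rw [map_mul, map_mul, eval_C])
  exact hx0 (congrFun h7 i0)

theorem net : S_NET := by
  intro T hT hS v hv _
  by_contra hcon
  push Not at hcon
  apply netMat_det_ne hT hS hv
  apply MvPolynomial.funext
  intro x
  rw [netMat_det_eval, hcon, map_zero]

end

end Pool.Agent.H44T.CF
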