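import Mathlib

/-! # Points of a hypersurface outside countably many other ones -/

set_option autoImplicit false

namespace Pool.Agent.H44T.CF

open MvPolynomial

noncomputable section

/-- Baire: the affine space is not the union of countably many hypersurfaces -/
theorem exists_avoid {σ : Type} [Fintype σ] (S : Set (MvPolynomial σ ℂ)) (hS : S.Countable)
    (h0 : (0 : MvPolynomial σ ℂ) ∉ S) : ∃ x : σ → ℂ, ∀ g ∈ S, eval x g ≠ 0 := by
  have hd : Dense (⋂ g ∈ S, {P : σ → ℂ | eval P g ≠ 0}) := by
    apply dense_biInter_of_isOpen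
    · intro g _
      exact isOpen_ne_fun (MvPolynomial.continuous_eval g) continuous_const
    · exact hS
    · intro g hg
      rw [dense_iff_inter_open]
      intro W hW ⟨w, hw⟩
      by_contra hcon
      apply h0
      have hzero : ∀ x ∈ W, eval x g = 0 := by
        intro x hx
        by_contra h
        exact hcon ⟨x, hx, h⟩
      obtain ⟨ε, hε, hball⟩ := Metric.isOpen_iff.1 hW w hw
      have : g = 0 := by
        apply MvPolynomial.funext_set (fun ij => Metric.ball (w ij) ε)
        · intro ij
          exact infinite_of_mem_nhds (w ij) (Metric.ball_mem_nhds _ hε)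
        · intro x hx
          rw [map_zero]
          apply hzero
          apply hball
          rw [ball_pi w hε]
          exact hx
      rw [← this]
      exact hg
  obtain ⟨x, hx⟩ := hd.nonempty
  exact ⟨x, fun g hg => Set.mem_iInter₂.1 hx g hg⟩

/-- a coprimality relation over a factorial domain -/
theorem bezout_gen {R K : Type} [CommRing R] [IsDomain R] [UniqueFactorizationMonoid R] [Field K]
    [Algebra R K] [IsFractionRing R K] {F' H' : Polynomial R} (hirr : Irreducible F')
    (hdeg : F'.natDegree ≠ 0) (hnd : ¬ F' ∣ H') :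
    ∃ (A B : Polynomial R) (c : R), c ≠ 0 ∧ A * F' + B * H' = Polynomial.C c := by
  classical
  let _ : StrongNormalizationMonoid R := UniqueFactorizationMonoid.strongNormalizationMonoid
  let _ : NormalizedGCDMonoid R := UniqueFactorizationMonoid.toNormalizedGCDMonoid R
  have hprim : F'.IsPrimitive := hirr.isPrimitive hdeg
  have hirrK : Irreducible (F'.map (algebraMap R K)) :=
    (hprim.irreducible_iff_irreducible_map_fraction_map (K := K)).1 hirr
  have hnd : ¬ F'.map (algebraMap R K) ∣ H'.map (algebraMap R K) := by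
    intro h
    exact hnd (hprim.dvd_of_fraction_map_dvd_fraction_map h)
  obtain ⟨a, b, hab⟩ := (hirrK.coprime_iff_not_dvd).2 hnd
  obtain ⟨c, hc0, hc⟩ := IsLocalization.integerNormalization_spec (nonZeroDivisors R) a
  obtain ⟨d, hd0, hd⟩ := IsLocalization.integerNormalization_spec (nonZeroDivisors R) b
  rw [mem_nonZeroDivisors_iff_ne_zero] at hc0 hd0
  set A := IsLocalization.integerNormalization (nonZeroDivisors R) a
  set B := IsLocalization.integerNormalization (nonZeroDivisors R) b
  refine ⟨Polynomial.C d * A, Polynomial.C c * B, c * d, mul_ne_zero hc0 hd0, ?_⟩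
  apply Polynomial.map_injective (algebraMap R K) (IsFractionRing.injective R K)
  rw [Polynomial.map_add, Polynomial.map_mul, Polynomial.map_mul, Polynomial.map_mul,
    Polynomial.map_mul, hc, hd, Polynomial.map_C, Polynomial.map_C, Polynomial.map_C, map_mul,
    Polynomial.C_mul, Algebra.smul_def, Algebra.smul_def]
  have e1 : ∀ r : R, (algebraMap R (Polynomial K)) r = Polynomial.C (algebraMap R K r) :=
    fun r => rfl
  rw [e1, e1]
  linear_combination (Polynomial.C (algebraMap R K c) * Polynomial.C (algebraMap R K d)) * hab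

/-- elimination of the first variable -/
theorem elim {n : ℕ} {F H : MvPolynomial (Fin (n + 1)) ℂ} (hF : Irreducible F)
    (hdeg : (finSuccEquiv ℂ n F).natDegree ≠ 0) (hH : ¬ F ∣ H) :
    ∃ Δ : MvPolynomial (Fin n) ℂ, Δ ≠ 0 ∧ ∀ (x : Fin n → ℂ) (y : ℂ),
      eval (Fin.cons y x : Fin (n + 1) → ℂ) F = 0 → eval (Fin.cons y x : Fin (n + 1) → ℂ) H = 0 →
      eval x Δ = 0 := by
  have hirr : Irreducible (finSuccEquiv ℂ n F) :=
    (MulEquiv.irreducible_iff (finSuccEquiv ℂ n)).2 hF
  have hnd : ¬ finSuccEquiv ℂ n F ∣ finSuccEquiv ℂ n H := by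
    rintro ⟨q, hq⟩
    apply hH
    refine ⟨(finSuccEquiv ℂ n).symm q, ?_⟩
    apply (finSuccEquiv ℂ n).injective
    rw [map_mul, AlgEquiv.apply_symm_apply]
    exact hq
  obtain ⟨A, B, Δ, hΔ, hid⟩ := bezout_gen (K := FractionRing (MvPolynomial (Fin n) ℂ)) hirr hdeg hnd
  refine ⟨Δ, hΔ, fun x y h1 h2 => ?_⟩
  rw [eval_eq_eval_mv_eval'] at h1 h2
  have h3 := congrArg (fun p => Polynomial.eval y (Polynomial.map (eval x) p)) hid
  simp only [Polynomial.map_add, Polynomial.map_mul, Polynomial.map_C, Polynomial.eval_add,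
    Polynomial.eval_mul, Polynomial.eval_C] at h3
  rw [← h3, h1, h2, mul_zero, mul_zero, add_zero]

/-- a point of an irreducible hypersurface outside countably many other ones -/
theorem exists_point {n : ℕ} {F : MvPolynomial (Fin (n + 1)) ℂ} (hF : Irreducible F)
    (hdeg : (finSuccEquiv ℂ n F).natDegree ≠ 0) (S : Set (MvPolynomial (Fin (n + 1)) ℂ))
    (hS : S.Countable) (hS0 : ∀ H ∈ S, ¬ F ∣ H) :
    ∃ p : Fin (n + 1) → ℂ, eval p F = 0 ∧ ∀ H ∈ S, eval p H ≠ 0 := by
  classical
  choose Δ hΔ0 hΔ using fun H : S => elim hF hdeg (hS0 H.1 H.2)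
  set l := (finSuccEquiv ℂ n F).leadingCoeff with hl
  have hl0 : l ≠ 0 := by
    rw [hl, Polynomial.leadingCoeff_ne_zero]
    intro h
    rw [h, Polynomial.natDegree_zero] at hdeg
    exact hdeg rfl
  have : Countable S := hS
  obtain ⟨x, hx⟩ := exists_avoid (insert l (Set.range Δ))
    ((Set.countable_range Δ).insert l) (by
      rw [Set.mem_insert_iff, not_or]
      refine ⟨Ne.symm hl0, ?_⟩
      rintro ⟨H, hH⟩
      exact hΔ0 H hH)
  have hlx := hx l (Set.mem_insert _ _)
  have hd : (Polynomial.map (eval x) (finSuccEquiv ℂ n F)).natDegree =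
      (finSuccEquiv ℂ n F).natDegree := Polynomial.natDegree_map_of_leadingCoeff_ne_zero _ hlx
  obtain ⟨y, hy⟩ := IsAlgClosed.exists_root (Polynomial.map (eval x) (finSuccEquiv ℂ n F)) (by
    intro h
    have := Polynomial.natDegree_eq_of_degree_eq_some h
    rw [hd] at this
    exact hdeg this)
  refine ⟨Fin.cons y x, ?_, fun H hH h => ?_⟩
  · rw [eval_eq_eval_mv_eval']
    exact hy
  · have h1 := hΔ ⟨H, hH⟩ x y (by rw [eval_eq_eval_mv_eval']; exact hy) h
    exact hx _ (Set.mem_insert_of_mem _ ⟨⟨H, hH⟩, rfl⟩) h1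

end

end Pool.Agent.H44T.CF
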