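import Mathlib
import Pool.Agent.Y201.C3.Cases
import Pool.Agent.H552R3.Tsen.Zero
import Pool.Agent.H44T.CF.Net
import Pool.Agent.H44T.CF.Pts

/-! # A smooth cubic form in six variables is irreducible -/

set_option autoImplicit false

namespace Pool.Agent.H44T.CF

open MvPolynomial Pool.Agent.Y201.C3 Pool.Agent.Y201.LI

noncomputable section

theorem aeval_scale {R A ι : Type} [CommRing R] [CommRing A] [Algebra R A] (x : ι → A) (T : A)
    (d : ℕ) (P : MvPolynomial ι R) (hP : P.IsHomogeneous d) :
    aeval (fun j => x j * T) P = aeval x P * T ^ d := by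
  classical
  rw [aeval_def, eval₂_eq, aeval_def, eval₂_eq, Finset.sum_mul]
  refine Finset.sum_congr rfl fun s hs => ?_
  have h1 : s.degree = d := by
    by_contra hne
    exact (mem_support_iff.1 hs) (hP.coeff_eq_zero hne)
  simp only [mul_pow]
  rw [Finset.prod_mul_distrib, Finset.prod_pow_eq_pow_sum, ← h1, mul_assoc]
  rfl

theorem unit_of_const {K σ : Type} [Field K] (G A B : MvPolynomial σ K) (hG0 : G ≠ 0) (d : ℕ)
    (hGd : G.IsHomogeneous d) (hAB : A * B = G) (hB : constantCoeff B ≠ 0) : IsUnit B := by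
  let φ : MvPolynomial σ K →ₐ[K] Polynomial (MvPolynomial σ K) :=
    aeval (fun j => Polynomial.C (X j) * Polynomial.X)
  have hφG : φ G = Polynomial.C G * Polynomial.X ^ d := by
    change aeval (fun j => Polynomial.C (X j) * Polynomial.X) G = _
    rw [aeval_scale _ Polynomial.X d G hGd]
    congr 1
    have h1 : (aeval (fun j => (Polynomial.C (X j) : Polynomial (MvPolynomial σ K))) :
        MvPolynomial σ K →ₐ[K] Polynomial (MvPolynomial σ K)) =
        IsScalarTower.toAlgHom K (MvPolynomial σ K) (Polynomial (MvPolynomial σ K)) := by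
      apply MvPolynomial.algHom_ext
      intro j
      rw [aeval_X]
      rfl
    rw [h1]
    rfl
  -- the value at `T = 0`
  have h0 : ∀ P : MvPolynomial σ K, (φ P).eval 0 = C (constantCoeff P) := by
    intro P
    induction P using MvPolynomial.induction_on with
    | C a =>
      change ((aeval _ (C a) : Polynomial (MvPolynomial σ K))).eval 0 = _
      rw [aeval_C, constantCoeff_C]
      change (Polynomial.C (C a)).eval 0 = _
      rw [Polynomial.eval_C]
    | add p q hp hq => rw [map_add, Polynomial.eval_add, hp, hq, map_add, map_add]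
    | mul_X p i hp =>
      rw [map_mul, Polynomial.eval_mul, hp, map_mul, map_mul, constantCoeff_X, map_zero, mul_zero]
      change _ * ((aeval _ (X i) : Polynomial (MvPolynomial σ K))).eval 0 = _
      rw [aeval_X, Polynomial.eval_mul, Polynomial.eval_X, mul_zero, mul_zero]
  have h1 : ∀ P : MvPolynomial σ K, (φ P).eval 1 = P := by
    intro P
    induction P using MvPolynomial.induction_on with
    | C a =>
      change ((aeval _ (C a) : Polynomial (MvPolynomial σ K))).eval 1 = _
      rw [aeval_C]
      change (Polynomial.C (C a)).eval 1 = _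
      rw [Polynomial.eval_C]
    | add p q hp hq => rw [map_add, Polynomial.eval_add, hp, hq]
    | mul_X p i hp =>
      rw [map_mul, Polynomial.eval_mul, hp]
      change _ * ((aeval _ (X i) : Polynomial (MvPolynomial σ K))).eval 1 = _
      rw [aeval_X, Polynomial.eval_mul, Polynomial.eval_X, Polynomial.eval_C, mul_one]
  have hC : (C (constantCoeff B) : MvPolynomial σ K) ≠ 0 := by
    rwa [Ne, C_eq_zero]
  have hXB : ¬ Polynomial.X ∣ φ B := by
    rw [Polynomial.X_dvd_iff, Polynomial.coeff_zero_eq_eval_zero, h0]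
    exact hC
  have hdvd : Polynomial.X ^ d ∣ φ A * φ B := by
    rw [← map_mul, hAB, hφG]
    exact Dvd.intro_left _ rfl
  have hdvd2 : Polynomial.X ^ d ∣ φ A :=
    Polynomial.prime_X.pow_dvd_of_dvd_mul_right d hXB hdvd
  obtain ⟨A', hA'⟩ := hdvd2
  have h2 : A' * φ B = Polynomial.C G := by
    have h3 : Polynomial.X ^ d * (A' * φ B) = Polynomial.X ^ d * Polynomial.C G := by
      rw [← mul_assoc, ← hA', ← map_mul, hAB, hφG, mul_comm]
    exact mul_left_cancel₀ (pow_ne_zero d Polynomial.X_ne_zero) h3
  have h3 : A' ≠ 0 ∧ φ B ≠ 0 := by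
    constructor
    · rintro rfl
      rw [zero_mul] at h2
      exact hG0 (Polynomial.C_eq_zero.1 h2.symm)
    · intro h
      rw [h, mul_zero] at h2
      exact hG0 (Polynomial.C_eq_zero.1 h2.symm)
  have h4 := Polynomial.natDegree_mul h3.1 h3.2
  rw [h2, Polynomial.natDegree_C] at h4
  have h5 : (φ B).natDegree = 0 := by omega
  obtain ⟨c, hc⟩ := Polynomial.natDegree_eq_zero.1 h5
  have h6 := h0 B
  have h7 := h1 B
  rw [← hc, Polynomial.eval_C] at h6 h7
  rw [← h7, h6]
  exact (Ne.isUnit hB).map C

theorem eval_frm (T : Fin 6 → Fin 6 → Fin 6 → ℂ) (x : Fin 6 → ℂ) : eval x (frm T) = Bf T x x x := by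
  unfold frm Bf
  simp only [map_sum, map_mul, eval_X]
  refine Finset.sum_congr rfl fun i _ => Finset.sum_congr rfl fun j _ =>
    Finset.sum_congr rfl fun k _ => ?_
  congr 3
  exact eval_C _

/-- expansion of the form along a line -/
theorem frm_line {T : Fin 6 → Fin 6 → Fin 6 → ℂ} (hT : SymT T) (x y : Fin 6 → ℂ) (s : ℂ) :
    eval (fun i => x i + s * y i) (frm T) =
      Bf T x x x + 3 * s * Bf T x x y + 3 * s ^ 2 * Bf T x y y + s ^ 3 * Bf T y y y := by
  rw [eval_frm]
  have h1 : Bf T (fun i => x i + s * y i) (fun i => x i + s * y i) (fun i => x i + s * y i) =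
      Bf T x x x + s * (Bf T x x y + Bf T x y x + Bf T y x x) +
        s ^ 2 * (Bf T x y y + Bf T y x y + Bf T y y x) + s ^ 3 * Bf T y y y := by
    unfold Bf
    simp only [Finset.mul_sum, ← Finset.sum_add_distrib]
    refine Finset.sum_congr rfl fun i _ => Finset.sum_congr rfl fun j _ =>
      Finset.sum_congr rfl fun k _ => ?_
    ring
  have e1 : Bf T x y x = Bf T x x y := Bg_swap23 hT x y x
  have e2 : Bf T y x x = Bf T x x y := by
    have := Bg_swap12 hT y x x
    rw [← Bf_eq, ← Bf_eq] at this
    rw [this, e1]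
  have e3 : Bf T y x y = Bf T x y y := Bg_swap12 hT y x y
  have e4 : Bf T y y x = Bf T x y y := by
    have := Bg_swap23 hT y y x
    rw [← Bf_eq, ← Bf_eq] at this
    rw [this, e3]
  rw [h1, e1, e2, e3, e4]
  ring

/-- the first order part of a factorization at a common zero -/
theorem deriv_prod (A B : MvPolynomial (Fin 6) ℂ) (x y : Fin 6 → ℂ) (hA : eval x A = 0)
    (hB : eval x B = 0) : ∃ R : Polynomial ℂ, ∀ s : ℂ,
      eval (fun i => x i + s * y i) (A * B) = s ^ 2 * R.eval s := by
  have h1 : ∀ P : MvPolynomial (Fin 6) ℂ, eval x P = 0 → ∃ Q : Polynomial ℂ, ∀ s : ℂ,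
      eval (fun i => x i + s * y i) P = s * Q.eval s := by
    intro P hP
    set q : Polynomial ℂ := aeval (fun i => Polynomial.C (x i) + Polynomial.X * Polynomial.C (y i)) P
      with hq
    have h2 : ∀ s : ℂ, q.eval s = eval (fun i => x i + s * y i) P := by
      intro s
      rw [hq]
      have h3 : (Polynomial.aeval s).comp (aeval (fun i => Polynomial.C (x i) +
          Polynomial.X * Polynomial.C (y i)) : MvPolynomial (Fin 6) ℂ →ₐ[ℂ] Polynomial ℂ) =
          aeval (fun i => x i + s * y i) := by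
        apply algHom_ext
        intro i
        rw [AlgHom.comp_apply, aeval_X, aeval_X, map_add, map_mul, Polynomial.aeval_C,
          Polynomial.aeval_C, Polynomial.aeval_X]
        rfl
      have h4 := congrArg (fun f => f P) (congrArg DFunLike.coe h3)
      simp only [AlgHom.comp_apply] at h4
      rw [Polynomial.coe_aeval_eq_eval] at h4
      rw [h4]
      rfl
    have h5 : q.eval 0 = 0 := by
      rw [h2]
      have e1 : (fun i => x i + 0 * y i) = x := by
        funext i
        ring
      rw [e1, hP]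
    obtain ⟨Q, hQ⟩ := Polynomial.X_dvd_iff.2 (by rw [Polynomial.coeff_zero_eq_eval_zero, h5] :
      q.coeff 0 = 0)
    refine ⟨Q, fun s => ?_⟩
    rw [← h2, hQ, Polynomial.eval_mul, Polynomial.eval_X]
  obtain ⟨Q1, hQ1⟩ := h1 A hA
  obtain ⟨Q2, hQ2⟩ := h1 B hB
  refine ⟨Q1 * Q2, fun s => ?_⟩
  rw [map_mul, hQ1, hQ2, Polynomial.eval_mul]
  ring

/-- comparison of first-order terms -/
theorem first_order {a b c : ℂ} (R : Polynomial ℂ)
    (h : ∀ s : ℂ, a * s + b * s ^ 2 + c * s ^ 3 = s ^ 2 * R.eval s) : a = 0 := by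
  have h1 : (Polynomial.C a * Polynomial.X + Polynomial.C b * Polynomial.X ^ 2 +
      Polynomial.C c * Polynomial.X ^ 3 : Polynomial ℂ) = Polynomial.X ^ 2 * R := by
    apply Polynomial.funext
    intro s
    simp only [Polynomial.eval_add, Polynomial.eval_mul, Polynomial.eval_C, Polynomial.eval_X,
      Polynomial.eval_pow]
    exact h s
  have h2 := congrArg (fun p => p.coeff 1) h1
  simp only [Polynomial.coeff_add, Polynomial.coeff_C_mul, Polynomial.coeff_X_one,
    Polynomial.coeff_X_pow] at h2
  have h3 : (Polynomial.X ^ 2 * R).coeff 1 = 0 := by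
    rw [Polynomial.coeff_X_pow_mul']
    simp
  rw [h3] at h2
  simpa using h2

theorem sing_zero {T : Fin 6 → Fin 6 → Fin 6 → ℂ} (hT : SymT T) (hS : SmoothT T)
    {z : Fin 6 → ℂ} (h : ∀ y : Fin 6 → ℂ, Bf T z z y = 0) : z = 0 := by
  apply hS
  intro i
  rw [smooth_iff]
  have e1 : Bf T (fun a => if a = i then (1 : ℂ) else 0) z z =
      Bf T z (fun a => if a = i then (1 : ℂ) else 0) z := Bg_swap12 hT _ _ _
  have e2 : Bf T z (fun a => if a = i then (1 : ℂ) else 0) z =
      Bf T z z (fun a => if a = i then (1 : ℂ) else 0) := Bg_swap23 hT _ _ _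
  rw [e1, e2, h]

theorem frm_ne {T : Fin 6 → Fin 6 → Fin 6 → ℂ} (hT : SymT T) (hS : SmoothT T) : frm T ≠ 0 := by
  intro h
  have h1 : ∀ z y : Fin 6 → ℂ, Bf T z z y = 0 := by
    intro z y
    have h2 : (3 * Bf T z z y) = 0 := by
      refine first_order (a := 3 * Bf T z z y) (b := 3 * Bf T z y y) (c := Bf T y y y) 0
        fun s => ?_
      have h3 := frm_line hT z y s
      have h4 : Bf T z z z = 0 := by
        rw [← eval_frm, h, map_zero]
      rw [h, map_zero, h4] at h3
      rw [Polynomial.eval_zero, mul_zero]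
      linear_combination - h3
    exact (mul_eq_zero.1 h2).resolve_left (by norm_num)
  have h2 := sing_zero hT hS (z := fun _ => 1) (h1 _)
  exact one_ne_zero (congrFun h2 0)

theorem irred {T : Fin 6 → Fin 6 → Fin 6 → ℂ} (hT : SymT T) (hS : SmoothT T) :
    Irreducible (frm T) := by
  have hF := frm_hom T
  have hF0 := frm_ne hT hS
  have hc : constantCoeff (frm T) = 0 := by
    rw [constantCoeff_eq]
    by_contra h
    have h1 := hF h
    simp only [map_zero] at h1
    omega
  refine ⟨?_, ?_⟩
  · intro hu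
    have h1 := hu.map (constantCoeff (σ := Fin 6) (R := ℂ))
    rw [hc] at h1
    exact not_isUnit_zero h1
  · intro A B hAB
    by_contra hcon
    push Not at hcon
    obtain ⟨hA, hB⟩ := hcon
    have hB0 : constantCoeff B = 0 := by
      by_contra h
      exact hB (unit_of_const (frm T) A B hF0 3 hF hAB.symm h)
    have hA0 : constantCoeff A = 0 := by
      by_contra h
      exact hA (unit_of_const (frm T) B A hF0 3 hF (by rw [mul_comm]; exact hAB.symm) h)
    obtain ⟨x, hx0, hx⟩ := Pool.Agent.H552R3.Tsen.exists_common_zero (k := ℂ) (σ := Fin 6)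
      (![A, B] : Fin 2 → MvPolynomial (Fin 6) ℂ) (by
        intro i
        fin_cases i
        · change eval 0 A = 0
          rw [← hA0, ← MvPolynomial.eval_zero]
        · change eval 0 B = 0
          rw [← hB0, ← MvPolynomial.eval_zero]) (by simp)
    apply hx0
    apply sing_zero hT hS
    intro y
    obtain ⟨R, hR⟩ := deriv_prod A B x y (hx 0) (hx 1)
    have h2 : (3 * Bf T x x y) = 0 := by
      refine first_order (a := 3 * Bf T x x y) (b := 3 * Bf T x y y) (c := Bf T y y y) R
        fun s => ?_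
      rw [← hR, ← hAB, frm_line hT]
      have h4 : Bf T x x x = 0 := by
        rw [← eval_frm, hAB, map_mul]
        have := hx 0
        change eval x A = 0 at this
        rw [this, zero_mul]
      rw [h4]
      ring
    exact (mul_eq_zero.1 h2).resolve_left (by norm_num)

/-- the form involves the first variable -/
theorem deg_ne {T : Fin 6 → Fin 6 → Fin 6 → ℂ} (hT : SymT T) (hS : SmoothT T) :
    (finSuccEquiv ℂ 5 (frm T)).natDegree ≠ 0 := by
  intro h
  obtain ⟨g, hg⟩ := Polynomial.natDegree_eq_zero.1 h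
  have h1 : ∀ (x : Fin 5 → ℂ) (y : ℂ), eval (Fin.cons y x : Fin 6 → ℂ) (frm T) = eval x g := by
    intro x y
    rw [eval_eq_eval_mv_eval', ← hg, Polynomial.map_C, Polynomial.eval_C]
  have h2 : ∀ (z : Fin 6 → ℂ) (s : ℂ),
      eval (fun i => z i + s * (E 0 : Fin 6 → ℂ) i) (frm T) = eval z (frm T) := by
    intro z s
    have e1 : (fun i => z i + s * (E 0 : Fin 6 → ℂ) i) =
        (Fin.cons (z 0 + s) (fun i => z i.succ) : Fin 6 → ℂ) := by
      funext i
      refine Fin.cases ?_ (fun l => ?_) i
      · simp [E]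
      · simp [E]
    have e2 : z = (Fin.cons (z 0) (fun i => z i.succ) : Fin 6 → ℂ) := by
      funext i
      refine Fin.cases ?_ (fun l => ?_) i
      · simp
      · simp
    rw [e1, h1]
    conv_rhs => rw [e2, h1]
  have h3 : ∀ z : Fin 6 → ℂ, Bf T z z (E 0) = 0 := by
    intro z
    have h2' : (3 * Bf T z z (E 0)) = 0 := by
      refine first_order (a := 3 * Bf T z z (E 0)) (b := 3 * Bf T z (E 0) (E 0))
        (c := Bf T (E 0) (E 0) (E 0)) 0 fun s => ?_
      have h3 := frm_line hT z (E 0) s
      rw [h2, eval_frm] at h3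
      rw [Polynomial.eval_zero, mul_zero]
      linear_combination - h3
    exact (mul_eq_zero.1 h2').resolve_left (by norm_num)
  have h4 : (E 0 : Fin 6 → ℂ) = 0 := by
    apply sing_zero hT hS
    intro y
    have h5 := h3 (y + E 0)
    have h6 := h3 y
    have h7 := h3 (E 0)
    have h8 : Bf T (y + E 0) (y + E 0) (E 0) = Bf T y y (E 0) + Bf T y (E 0) (E 0) +
        Bf T (E 0) y (E 0) + Bf T (E 0) (E 0) (E 0) := by
      unfold Bf
      simp only [← Finset.sum_add_distrib, Pi.add_apply]
      refine Finset.sum_congr rfl fun i _ => Finset.sum_congr rfl fun j _ =>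
        Finset.sum_congr rfl fun k _ => ?_
      ring
    have e3 : Bf T (E 0) y (E 0) = Bf T y (E 0) (E 0) := Bg_swap12 hT _ _ _
    have e4 : Bf T (E 0) y (E 0) = Bf T (E 0) (E 0) y := Bg_swap23 hT _ _ _
    rw [h5, h6, h7] at h8
    rw [← e4]
    have h9 : 2 * Bf T (E 0) y (E 0) = 0 := by
      linear_combination - h8 + e3
    exact (mul_eq_zero.1 h9).resolve_left (by norm_num)
  have h5 := congrFun h4 0
  simp [E] at h5

end

end Pool.Agent.H44T.CF
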