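import Mathlib
import Pool.Agent.H552R3.Tsen.Zero
import Pool.Agent.H44T.CF.Net
import Pool.Agent.H44T.CF.Ani2
import Pool.Agent.TH504.CB.DerK

/-! # Planes in smooth cubic fourfolds are rigid: the infinitesimal statement -/

set_option autoImplicit false

namespace Pool.Agent.H44T.CF

open MvPolynomial Pool.Agent.Y201.C3 Pool.Agent.Y201.LI Module

noncomputable section

variable {T : Fin 6 → Fin 6 → Fin 6 → ℂ}

/-- the linear form `x ↦ B (x, v(a), v(a))` -/
def qL (T : Fin 6 → Fin 6 → Fin 6 → ℂ) (v : Fin 3 → Fin 6 → ℂ) (a : Fin 3 → ℂ) :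
    (Fin 6 → ℂ) →ₗ[ℂ] ℂ :=
  ∑ l, (∑ i, ∑ j, a i * a j * nn T v l i j) • LinearMap.proj l

theorem qL_apply (v : Fin 3 → Fin 6 → ℂ) (a : Fin 3 → ℂ) (x : Fin 6 → ℂ) :
    qL T v a x = ∑ i, ∑ j, a i * a j * Bf T x (v i) (v j) := by
  unfold qL
  rw [LinearMap.sum_apply]
  simp only [LinearMap.smul_apply, LinearMap.proj_apply, smul_eq_mul]
  have h1 : ∀ i j, a i * a j * Bf T x (v i) (v j) = ∑ l, a i * a j * (x l * nn T v l i j) := by
    intro i j
    rw [Bf_nn, Finset.mul_sum]
  simp only [h1, Finset.sum_mul]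
  rw [Finset.sum_comm]
  refine Finset.sum_congr rfl fun i _ => ?_
  rw [Finset.sum_comm]
  refine Finset.sum_congr rfl fun j _ => ?_
  refine Finset.sum_congr rfl fun l _ => ?_
  ring

theorem qL_ne (hS : SmoothT T) {v : Fin 3 → Fin 6 → ℂ} (hv : LinearIndependent ℂ v)
    {a : Fin 3 → ℂ} (ha : a ≠ 0) : qL T v a ≠ 0 := by
  intro h
  apply ha
  apply sing_of_nn hS hv
  intro l
  have h1 := LinearMap.congr_fun h (Pi.single l 1)
  unfold qL at h1
  rw [LinearMap.sum_apply, Finset.sum_eq_single l] at h1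
  · simpa using h1
  · intro b _ hb
    simp [Pi.single_eq_of_ne hb]
  · intro h'
    exact absurd (Finset.mem_univ _) h'

/-- a tensor with vanishing cyclic sums has a zero -/
theorem eig (t : Fin 3 → Fin 3 → Fin 3 → ℂ) (h1 : ∀ i j k, t i j k = t i k j)
    (h2 : ∀ i j k, t i j k + t j i k + t k i j = 0) :
    ∃ a : Fin 3 → ℂ, a ≠ 0 ∧ ∀ i, ∑ j, ∑ k, a j * a k * t i j k = 0 := by
  let W : Matrix (Fin 3) (Fin 3) ℂ := !![0, 2 * t 1 1 2, t 1 2 2;
    -2 * t 0 0 2, 2 * t 2 0 1, -t 0 2 2; 2 * t 0 0 1, t 0 1 1, -2 * t 1 0 2]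
  obtain ⟨μ, hμ⟩ := Module.End.exists_eigenvalue (Matrix.toLin' W)
  obtain ⟨a, ha⟩ := hμ.exists_hasEigenvector
  have ha0 := ha.2
  have ha1 := ha.apply_eq_smul
  rw [Matrix.toLin'_apply] at ha1
  refine ⟨a, ha0, ?_⟩
  have e0 : 0 * a 0 + 2 * t 1 1 2 * a 1 + t 1 2 2 * a 2 = μ * a 0 := by
    have := congrFun ha1 0
    simpa [W, Matrix.mulVec, dotProduct, Fin.sum_univ_three] using this
  have e1 : -2 * t 0 0 2 * a 0 + 2 * t 2 0 1 * a 1 + -t 0 2 2 * a 2 = μ * a 1 := by
    have := congrFun ha1 1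
    simpa [W, Matrix.mulVec, dotProduct, Fin.sum_univ_three] using this
  have e2 : 2 * t 0 0 1 * a 0 + t 0 1 1 * a 1 + -2 * t 1 0 2 * a 2 = μ * a 2 := by
    have := congrFun ha1 2
    simpa [W, Matrix.mulVec, dotProduct, Fin.sum_univ_three] using this
  have r000 := h2 0 0 0
  have r111 := h2 1 1 1
  have r222 := h2 2 2 2
  have r001 := h2 0 0 1
  have r002 := h2 0 0 2
  have r110 := h2 1 1 0
  have r112 := h2 1 1 2
  have r220 := h2 2 2 0
  have r221 := h2 2 2 1
  have r012 := h2 0 1 2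
  have s := h1
  intro i
  fin_cases i <;> simp only [Fin.sum_univ_three, Fin.zero_eta, Fin.mk_one, Fin.reduceFinMk]
  · rw [s 0 1 0, s 0 2 0, s 0 2 1]
    rw [s 1 1 0] at r110
    rw [s 2 2 0] at r220
    linear_combination (a 1) * e2 - (a 2) * e1 + (a 0 ^ 2 / 3) * r000 + (2 * a 1 * a 2) * r012
  · rw [s 1 1 0, s 1 2 0, s 1 2 1]
    rw [s 1 1 0] at r110
    linear_combination (a 2) * e0 - (a 0) * e2 + (a 1 ^ 2 / 3) * r111 + (a 0 ^ 2) * r001 +
      (a 0 * a 1) * r110
  · rw [s 2 1 0, s 2 2 0, s 2 2 1]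
    rw [s 2 2 0] at r220
    rw [s 2 2 1] at r221
    linear_combination (a 0) * e1 - (a 1) * e0 + (a 2 ^ 2 / 3) * r222 + (a 0 ^ 2) * r002 +
      (a 0 * a 2) * r220 + (a 1 ^ 2) * r112 + (a 1 * a 2) * r221

/-- completing a subspace -/
theorem exists_compl (S : Submodule ℂ (Fin 6 → ℂ)) (d : ℕ) (h : 6 ≤ finrank ℂ S + d) :
    ∃ x : Fin d → Fin 6 → ℂ, S ⊔ Submodule.span ℂ (Set.range x) = ⊤ := by
  obtain ⟨C, hC⟩ := Submodule.exists_isCompl S
  have h1 := Submodule.finrank_add_eq_of_isCompl hC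
  rw [finrank_fintype_fun_eq_card, Fintype.card_fin] at h1
  have h2 : finrank ℂ C ≤ d := by omega
  let b := finBasis ℂ C
  refine ⟨fun i => if h : i.val < finrank ℂ C then (b ⟨i.val, h⟩ : Fin 6 → ℂ) else 0, ?_⟩
  rw [eq_top_iff, ← hC.sup_eq_top]
  refine sup_le_sup le_rfl ?_
  intro x hx
  have h3 := b.sum_repr ⟨x, hx⟩
  have h4 : x = ∑ i, (b.repr ⟨x, hx⟩ i) • (b i : Fin 6 → ℂ) := by
    have h5 := congrArg (Submodule.subtype C) h3
    rw [map_sum] at h5
    simp only [map_smul, Submodule.subtype_apply] at h5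
    exact h5.symm
  rw [h4]
  refine Submodule.sum_mem _ fun i _ => Submodule.smul_mem _ _ (Submodule.subset_span ?_)
  refine ⟨⟨i.val, lt_of_lt_of_le i.2 h2⟩, ?_⟩
  simp only [i.2, dif_pos]

/-- the quadric `B (x, v(a), v(a))` as a polynomial -/
def qP (T : Fin 6 → Fin 6 → Fin 6 → ℂ) (v : Fin 3 → Fin 6 → ℂ) (x : Fin 6 → ℂ) :
    MvPolynomial (Fin 3) ℂ :=
  ∑ i, ∑ j, X i * X j * C (Bf T x (v i) (v j))

theorem qP_eval (v : Fin 3 → Fin 6 → ℂ) (x : Fin 6 → ℂ) (a : Fin 3 → ℂ) :
    eval a (qP T v x) = qL T v a x := by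
  rw [qL_apply]
  unfold qP
  simp only [map_sum, map_mul, eval_X, eval_C]

theorem range_le {f : (Fin 3 → ℂ) →ₗ[ℂ] (Fin 6 → ℂ)} (b : Basis (Fin 3) ℂ (Fin 3 → ℂ))
    {L : (Fin 6 → ℂ) →ₗ[ℂ] ℂ} (h : ∀ i, L (f (b i)) = 0) :
    LinearMap.range f ≤ LinearMap.ker L := by
  rintro _ ⟨a, rfl⟩
  rw [LinearMap.mem_ker, ← b.sum_repr a, map_sum, map_sum]
  refine Finset.sum_eq_zero fun i _ => ?_
  rw [map_smul, map_smul, h, smul_zero]

/-- **No linear syzygies.** An infinitesimal deformation of a plane in a smooth cubic fourfold is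
trivial. -/
theorem syz (hT : SymT T) (hS : SmoothT T) (vL wL : (Fin 3 → ℂ) →ₗ[ℂ] (Fin 6 → ℂ))
    (hinj : Function.Injective vL) (hv : ∀ a b c, Bf T (vL a) (vL b) (vL c) = 0)
    (hw : ∀ a b c, Bf T (wL a) (vL b) (vL c) + Bf T (wL b) (vL a) (vL c) +
      Bf T (wL c) (vL a) (vL b) = 0) (a1 : Fin 3 → ℂ) : wL a1 ∈ LinearMap.range vL := by
  classical
  by_contra hcon
  set S := LinearMap.range vL ⊔ LinearMap.range wL with hS'
  have hfv : finrank ℂ (LinearMap.range vL) = 3 := by
    rw [LinearMap.finrank_range_of_inj hinj, finrank_fintype_fun_eq_card, Fintype.card_fin]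
  by_cases hA : ∀ a, wL a ∈ LinearMap.range vL → a = 0
  · -- the deformation is an isomorphism
    have hwinj : Function.Injective wL := by
      rw [← LinearMap.ker_eq_bot, LinearMap.ker_eq_bot']
      intro a ha
      apply hA
      rw [ha]
      exact zero_mem _
    have hfw : finrank ℂ (LinearMap.range wL) = 3 := by
      rw [LinearMap.finrank_range_of_inj hwinj, finrank_fintype_fun_eq_card, Fintype.card_fin]
    have hdis : LinearMap.range vL ⊓ LinearMap.range wL = ⊥ := by
      rw [eq_bot_iff]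
      rintro x ⟨h1, ⟨a, rfl⟩⟩
      rw [hA a h1, map_zero]
      exact zero_mem _
    have htop : S = ⊤ := by
      apply Submodule.eq_top_of_finrank_eq
      have h1 := Submodule.finrank_sup_add_finrank_inf_eq (LinearMap.range vL) (LinearMap.range wL)
      rw [hdis, finrank_bot, hfv, hfw] at h1
      rw [finrank_fintype_fun_eq_card, Fintype.card_fin]
      omega
    let b := Pi.basisFun ℂ (Fin 3)
    set v' : Fin 3 → Fin 6 → ℂ := fun i => vL (b i) with hv'
    have hLI : LinearIndependent ℂ v' :=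
      b.linearIndependent.map' vL (LinearMap.ker_eq_bot.2 hinj)
    obtain ⟨a, ha, ha2⟩ := eig (fun i j k => Bf T (wL (b i)) (v' j) (v' k))
      (fun i j k => sw23 hT _ _ _) (fun i j k => hw (b i) (b j) (b k))
    apply qL_ne hS hLI ha
    have h1 : S ≤ LinearMap.ker (qL T v' a) := by
      refine sup_le (range_le b fun i => ?_) (range_le b fun i => ?_)
      · rw [qL_apply]
        refine Finset.sum_eq_zero fun j _ => Finset.sum_eq_zero fun k _ => ?_
        rw [hv, mul_zero]
      · rw [qL_apply]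
        exact ha2 i
    rw [htop] at h1
    exact LinearMap.ker_eq_top.1 (top_le_iff.1 h1)
  -- a vector in the kernel
  push Not at hA
  obtain ⟨a0, ha0, ha0'⟩ := hA
  obtain ⟨R, Q, hRQ, hQR, hR⟩ := Pool.Agent.TH314.PD.exists_matrix (m := 2) a0 ha0'
  have hLIc : LinearIndependent ℂ R.col := by
    rw [Matrix.linearIndependent_cols_iff_isUnit]
    exact ⟨⟨R, Q, hRQ, hQR⟩, rfl⟩
  let b := basisOfLinearIndependentOfCardEqFinrank hLIc (by simp)
  have hb : ∀ j, b j = R.col j := fun j => by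
    simp [b]
  have hb2 : b 2 = a0 := by
    rw [hb]
    funext i
    exact hR i
  set v' : Fin 3 → Fin 6 → ℂ := fun i => vL (b i) with hv'
  have hLI : LinearIndependent ℂ v' :=
    b.linearIndependent.map' vL (LinearMap.ker_eq_bot.2 hinj)
  set t : Fin 3 → Fin 3 → Fin 3 → ℂ := fun i j k => Bf T (wL (b i)) (v' j) (v' k) with ht
  have s : ∀ i j k, t i j k = t i k j := fun i j k => sw23 hT _ _ _
  have h2 : ∀ i j k, t i j k + t j i k + t k i j = 0 := fun i j k => hw (b i) (b j) (b k)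
  have hvk : ∀ a, LinearMap.range vL ≤ LinearMap.ker (qL T v' a) := by
    intro a
    refine range_le b fun i => ?_
    rw [qL_apply]
    refine Finset.sum_eq_zero fun j _ => Finset.sum_eq_zero fun k _ => ?_
    rw [hv, mul_zero]
  have ht2 : ∀ j k, t 2 j k = 0 := by
    intro j k
    obtain ⟨c, hc⟩ := ha0
    change Bf T (wL (b 2)) (v' j) (v' k) = 0
    rw [hb2, ← hc]
    exact hv _ _ _
  have hq : ∀ a i, qL T v' a (wL (b i)) = ∑ j, ∑ k, a j * a k * t i j k := fun a i => by
    rw [qL_apply]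
  set m : (Fin 3 → ℂ) → ℂ := fun a => t 1 0 0 * a 0 + 2 * t 1 0 1 * a 1 + 2 * t 1 0 2 * a 2 with hm
  have r000 := h2 0 0 0
  have r111 := h2 1 1 1
  have r001 := h2 0 0 1
  have r002 := h2 0 0 2
  have r110 := h2 1 1 0
  have r112 := h2 1 1 2
  have r220 := h2 2 2 0
  have r221 := h2 2 2 1
  have r012 := h2 0 1 2
  rw [s 1 1 0] at r110
  simp only [ht2, zero_add, add_zero] at r002 r112 r220 r221 r012
  have hq1 : ∀ a, qL T v' a (wL (b 1)) = a 0 * m a := by
    intro a
    rw [hq, hm]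
    simp only [Fin.sum_univ_three]
    rw [s 1 1 0, s 1 2 0, s 1 2 1]
    linear_combination (a 1 ^ 2 / 3) * r111 + (a 1 * a 2) * r112 + (a 2 ^ 2) * r221
  have hq0 : ∀ a, qL T v' a (wL (b 0)) = -(a 1 * m a) := by
    intro a
    rw [hq, hm]
    simp only [Fin.sum_univ_three]
    rw [s 0 1 0, s 0 2 0, s 0 2 1]
    linear_combination (a 0 ^ 2 / 3) * r000 + (a 0 * a 1) * r001 + (a 0 * a 2) * r002 +
      (a 1 ^ 2) * r110 + (a 2 ^ 2) * r220 + (2 * a 1 * a 2) * r012
  have hq2 : ∀ a, qL T v' a (wL (b 2)) = 0 := by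
    intro a
    rw [hq]
    simp only [ht2, mul_zero, Finset.sum_const_zero]
  set Mp : MvPolynomial (Fin 3) ℂ := C (t 1 0 0) * X 0 + C (2 * t 1 0 1) * X 1 +
    C (2 * t 1 0 2) * X 2 with hMp
  have hMe : ∀ a, eval a Mp = m a := by
    intro a
    rw [hMp, hm]
    simp only [map_add, map_mul, eval_C, eval_X]
  by_cases hM : Mp = 0
  · -- rank one
    have hm0 : ∀ a, m a = 0 := fun a => by rw [← hMe, hM, map_zero]
    have hlt : LinearMap.range vL < S := by
      refine lt_of_le_of_ne le_sup_left fun h => hcon ?_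
      rw [h]
      exact (le_sup_right : LinearMap.range wL ≤ S) ⟨a1, rfl⟩
    have h4 := Submodule.finrank_lt_finrank_of_lt hlt
    obtain ⟨x, hx⟩ := exists_compl S 2 (by omega)
    obtain ⟨a, ha, ha2⟩ := Pool.Agent.H552R3.Tsen.exists_common_zero (k := ℂ)
      (fun i => qP T v' (x i)) (by
        intro i
        rw [qP_eval, qL_apply]
        simp) (by simp)
    apply qL_ne hS hLI ha
    have h1 : S ⊔ Submodule.span ℂ (Set.range x) ≤ LinearMap.ker (qL T v' a) := by
      refine sup_le (sup_le (hvk a) (range_le b fun i => ?_)) ?_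
      · fin_cases i
        · exact (hq0 a).trans (by rw [hm0, mul_zero, neg_zero])
        · exact (hq1 a).trans (by rw [hm0, mul_zero])
        · exact hq2 a
      · rw [Submodule.span_le]
        rintro _ ⟨i, rfl⟩
        have := ha2 i
        rw [qP_eval] at this
        exact this
    rw [hx] at h1
    exact LinearMap.ker_eq_top.1 (top_le_iff.1 h1)
  · -- rank two
    have hind : ∀ c0 c1 : ℂ, c0 • wL (b 0) + c1 • wL (b 1) ∈ LinearMap.range vL →
        c0 = 0 ∧ c1 = 0 := by
      intro c0 c1 hc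
      have h1 : Mp * (C c1 * X 0 - C c0 * X 1) = 0 := by
        apply MvPolynomial.funext
        intro a
        have h3 : qL T v' a (c0 • wL (b 0) + c1 • wL (b 1)) = 0 := hvk a hc
        rw [map_add, map_smul, map_smul, hq0, hq1, smul_eq_mul, smul_eq_mul] at h3
        rw [map_mul, hMe, map_sub, map_mul, map_mul, eval_C, eval_C, eval_X, eval_X, map_zero]
        linear_combination h3
      have h3 := (mul_eq_zero.1 h1).resolve_left hM
      have h4 := congrArg (eval (Pi.single 0 (1 : ℂ))) h3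
      have h5 := congrArg (eval (Pi.single 1 (1 : ℂ))) h3
      simp at h4 h5
      exact ⟨h5, h4⟩
    have h5 : 5 ≤ finrank ℂ S := by
      have hli : LinearIndependent ℂ (Sum.elim v' ![wL (b 0), wL (b 1)]) := by
        rw [Fintype.linearIndependent_iff]
        intro g hg
        rw [Fintype.sum_sum_type] at hg
        simp only [Sum.elim_inl, Sum.elim_inr, Fin.sum_univ_two, Matrix.cons_val_zero,
          Matrix.cons_val_one] at hg
        have h6 : ∑ i, g (Sum.inl i) • v' i ∈ LinearMap.range vL :=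
          Submodule.sum_mem _ fun i _ => Submodule.smul_mem _ _ ⟨b i, rfl⟩
        have h7 : g (Sum.inr 0) • wL (b 0) + g (Sum.inr 1) • wL (b 1) ∈ LinearMap.range vL := by
          have h8 : g (Sum.inr 0) • wL (b 0) + g (Sum.inr 1) • wL (b 1) =
              -∑ i, g (Sum.inl i) • v' i := eq_neg_of_add_eq_zero_right hg
          rw [h8]
          exact Submodule.neg_mem _ h6
        obtain ⟨h8, h9⟩ := hind _ _ h7
        rw [h8, h9, zero_smul, zero_smul, add_zero, add_zero] at hg
        have h10 := Fintype.linearIndependent_iff.1 hLI _ hg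
        rintro (i | i)
        · exact h10 i
        · fin_cases i
          · exact h8
          · exact h9
      have h6 : Submodule.span ℂ (Set.range (Sum.elim v' ![wL (b 0), wL (b 1)])) ≤ S := by
        rw [Submodule.span_le]
        rintro _ ⟨i, rfl⟩
        rcases i with i | i
        · exact (le_sup_left : LinearMap.range vL ≤ S) ⟨b i, rfl⟩
        · fin_cases i
          · exact (le_sup_right : LinearMap.range wL ≤ S) ⟨b 0, rfl⟩
          · exact (le_sup_right : LinearMap.range wL ≤ S) ⟨b 1, rfl⟩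
      have h7 := Submodule.finrank_mono h6
      rw [finrank_span_eq_card hli] at h7
      simpa using h7
    obtain ⟨x, hx⟩ := exists_compl S 1 (by omega)
    obtain ⟨a, ha, ha2⟩ := Pool.Agent.H552R3.Tsen.exists_common_zero (k := ℂ)
      (![Mp, qP T v' (x 0)]) (by
        intro i
        fin_cases i
        · exact (hMe 0).trans (by simp [hm])
        · exact (qP_eval v' (x 0) 0).trans (by rw [qL_apply]; simp)) (by simp)
    have ham : m a = 0 := by
      rw [← hMe]
      exact ha2 0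
    have hax : qL T v' a (x 0) = 0 := by
      rw [← qP_eval]
      exact ha2 1
    apply qL_ne hS hLI ha
    have h1 : S ⊔ Submodule.span ℂ (Set.range x) ≤ LinearMap.ker (qL T v' a) := by
      refine sup_le (sup_le (hvk a) (range_le b fun i => ?_)) ?_
      · fin_cases i
        · exact (hq0 a).trans (by rw [ham, mul_zero, neg_zero])
        · exact (hq1 a).trans (by rw [ham, mul_zero])
        · exact hq2 a
      · rw [Submodule.span_le]
        rintro _ ⟨i, rfl⟩
        rw [Fin.fin_one_eq_zero i]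
        exact hax
    rw [hx] at h1
    exact LinearMap.ker_eq_top.1 (top_le_iff.1 h1)

end

end Pool.Agent.H44T.CF
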