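import Mathlib
import Pool.Agent.H44T.CF.Rig

/-! # Planes in smooth cubic fourfolds are defined over the field of the coefficients: job RIG -/

set_option autoImplicit false

namespace Pool.Agent.H44T.CF

open Pool.Agent.Y201.C3 Pool.Agent.Y201.LI Module

noncomputable section

variable {T : Fin 6 → Fin 6 → Fin 6 → ℂ}

theorem der_Bf (δ : Derivation ℚ ℂ ℂ) (hT0 : ∀ i j l, δ (T i j l) = 0) (x y z : Fin 6 → ℂ) :
    δ (Bf T x y z) = Bf T (fun i => δ (x i)) y z + Bf T x (fun i => δ (y i)) z +
      Bf T x y (fun i => δ (z i)) := by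
  unfold Bf
  simp only [map_sum, ← Finset.sum_add_distrib]
  refine Finset.sum_congr rfl fun i _ => Finset.sum_congr rfl fun j _ =>
    Finset.sum_congr rfl fun k _ => ?_
  rw [Derivation.leibniz, Derivation.leibniz, Derivation.leibniz]
  have h1 : δ (algebraMap ℂ ℂ (T i j k)) = 0 := hT0 i j k
  rw [h1]
  simp only [smul_eq_mul]
  ring

/-- pivots -/
theorem exists_pivot (v : Fin 3 → Fin 6 → ℂ) (hv : LinearIndependent ℂ v) :
    ∃ (π : Fin 3 → Fin 6) (v' : Fin 3 → Fin 6 → ℂ), (∀ i j, v' i (π j) = if i = j then 1 else 0) ∧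
      LinearIndependent ℂ v' ∧
      Submodule.span ℂ (Set.range v') = Submodule.span ℂ (Set.range v) := by
  classical
  set V : Matrix (Fin 3) (Fin 6) ℂ := Matrix.of v with hV
  have hrk : V.rank = 3 := by
    have := LinearIndependent.rank_matrix (M := V) hv
    simpa using this
  rw [Matrix.rank_eq_finrank_span_cols] at hrk
  obtain ⟨f, hf1, hf2, hf3⟩ := Submodule.exists_fun_fin_finrank_span_eq ℂ (Set.range V.col)
  choose π hπ using hf1
  set π' : Fin 3 → Fin 6 := fun i => π (Fin.cast hrk.symm i) with hπ'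
  set N : Matrix (Fin 3) (Fin 3) ℂ := Matrix.of fun i j => v i (π' j) with hN
  have hNcol : LinearIndependent ℂ N.col := by
    have h1 : N.col = f ∘ Fin.cast hrk.symm := by
      funext j
      change _ = f (Fin.cast hrk.symm j)
      rw [← hπ]
      rfl
    rw [h1]
    exact hf3.comp _ (Fin.cast_injective _)
  have hNu : IsUnit N := Matrix.linearIndependent_cols_iff_isUnit.1 hNcol
  have hdet : IsUnit N.det := (Matrix.isUnit_iff_isUnit_det N).1 hNu
  set v' : Fin 3 → Fin 6 → ℂ := fun i => ∑ l, N⁻¹ i l • v l with hv'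
  have hback : ∀ i, v i = ∑ l, N i l • v' l := by
    intro i
    have h1 : ∑ l, N i l • v' l = ∑ m, (N * N⁻¹) i m • v m := by
      simp only [hv', Finset.smul_sum, smul_smul]
      rw [Finset.sum_comm]
      refine Finset.sum_congr rfl fun m _ => ?_
      rw [← Finset.sum_smul, Matrix.mul_apply]
    rw [h1, Matrix.mul_nonsing_inv N hdet]
    rw [Finset.sum_eq_single i]
    · rw [Matrix.one_apply_eq, one_smul]
    · intro m _ hm
      rw [Matrix.one_apply_ne (Ne.symm hm), zero_smul]
    · intro h
      exact absurd (Finset.mem_univ _) h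
  have hspan : Submodule.span ℂ (Set.range v') = Submodule.span ℂ (Set.range v) := by
    apply le_antisymm
    · rw [Submodule.span_le]
      rintro _ ⟨i, rfl⟩
      exact Submodule.sum_mem _ fun l _ => Submodule.smul_mem _ _ (Submodule.subset_span ⟨l, rfl⟩)
    · rw [Submodule.span_le]
      rintro _ ⟨i, rfl⟩
      rw [SetLike.mem_coe, hback]
      exact Submodule.sum_mem _ fun l _ => Submodule.smul_mem _ _ (Submodule.subset_span ⟨l, rfl⟩)
  refine ⟨π', v', fun i j => ?_, ?_, hspan⟩
  · have h1 : v' i (π' j) = (N⁻¹ * N) i j := by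
      rw [Matrix.mul_apply, hv']
      simp only [Finset.sum_apply, Pi.smul_apply, smul_eq_mul]
      rfl
    rw [h1, Matrix.nonsing_inv_mul N hdet, Matrix.one_apply]
  · rw [linearIndependent_iff_card_eq_finrank_span, Set.finrank, hspan]
    exact linearIndependent_iff_card_eq_finrank_span.1 hv

theorem rig : S_RIG := by
  classical
  intro k hk T hT hS hTk v hv hvv
  obtain ⟨π, v', hπ, hLI, hspan⟩ := exists_pivot v hv
  refine ⟨v', ?_, hLI, hspan⟩
  -- the parametrization of the plane
  let vL : (Fin 3 → ℂ) →ₗ[ℂ] (Fin 6 → ℂ) := Fintype.linearCombination ℂ v'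
  have hvL : ∀ a, vL a = ∑ i, a i • v' i := fun a => Fintype.linearCombination_apply ℂ v' a
  have hvLk : ∀ a j, vL a j = ∑ i, a i * v' i j := by
    intro a j
    rw [hvL, Finset.sum_apply]
    rfl
  have hinj : Function.Injective vL := by
    rw [← LinearMap.ker_eq_bot, LinearMap.ker_eq_bot']
    intro a ha
    rw [hvL] at ha
    exact funext (Fintype.linearIndependent_iff.1 hLI a ha)
  have hvz : ∀ x y z, x ∈ Submodule.span ℂ (Set.range v) → y ∈ Submodule.span ℂ (Set.range v) →
      z ∈ Submodule.span ℂ (Set.range v) → Bf T x y z = 0 := by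
    intro x y z hx hy hz
    have e : ∀ u ∈ Submodule.span ℂ (Set.range v), ∃ c : Fin 3 → ℂ,
        u = fun i => ∑ a, c a * algebraMap ℂ ℂ (v a i) := by
      intro u hu
      rw [Submodule.mem_span_range_iff_exists_fun] at hu
      obtain ⟨c, rfl⟩ := hu
      refine ⟨c, ?_⟩
      funext i
      rw [Finset.sum_apply]
      rfl
    obtain ⟨c, rfl⟩ := e x hx
    obtain ⟨c', rfl⟩ := e y hy
    obtain ⟨c'', rfl⟩ := e z hz
    rw [Bf_eq, ← Bg_comp hT]
    unfold Bg
    refine Finset.sum_eq_zero fun a _ => Finset.sum_eq_zero fun b _ =>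
      Finset.sum_eq_zero fun c _ => ?_
    have h2 : comp T v a b c = 0 := hvv a b c
    rw [h2, map_zero]
    ring
  have hmem : ∀ a, vL a ∈ Submodule.span ℂ (Set.range v) := by
    intro a
    rw [← hspan, hvL]
    exact Submodule.sum_mem _ fun i _ => Submodule.smul_mem _ _ (Submodule.subset_span ⟨i, rfl⟩)
  have hv0 : ∀ a b c, Bf T (vL a) (vL b) (vL c) = 0 := fun a b c =>
    hvz _ _ _ (hmem a) (hmem b) (hmem c)
  intro i1 j1
  by_contra hθ
  set θ := v' i1 j1 with hθ'
  have htr : Transcendental k θ := by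
    intro halg
    apply hθ
    have hint : IsIntegral k θ := halg.isIntegral
    have h1 := IsAlgClosed.degree_eq_one_of_irreducible k (minpoly.irreducible hint)
    obtain ⟨y, hy⟩ := minpoly.mem_range_of_degree_eq_one k θ h1
    rw [← hy]
    exact y.2
  have hai : AlgebraicIndependent k (fun _ : Unit => θ) := by
    rw [algebraicIndependent_unique_type_iff]
    exact htr
  obtain ⟨δ, hδk, hδ⟩ := Pool.Agent.TH504.CB.exists_derivationK (K := k) hai (fun _ => (1 : ℂ))
  have hT0 : ∀ i j l, δ (T i j l) = 0 := fun i j l => hδk ⟨T i j l, hTk i j l⟩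
  set w : Fin 3 → Fin 6 → ℂ := fun i j => δ (v' i j) with hw
  let wL : (Fin 3 → ℂ) →ₗ[ℂ] (Fin 6 → ℂ) := Fintype.linearCombination ℂ w
  have hwL : ∀ a, wL a = ∑ i, a i • w i := fun a => Fintype.linearCombination_apply ℂ w a
  have hwLk : ∀ a j, wL a j = ∑ i, a i * w i j := by
    intro a j
    rw [hwL, Finset.sum_apply]
    rfl
  have hδv : ∀ a, (fun j => δ (vL a j)) = fun j => wL a j + vL (fun i => δ (a i)) j := by
    intro a
    funext j
    rw [hvLk, hvLk, hwLk, map_sum, ← Finset.sum_add_distrib]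
    refine Finset.sum_congr rfl fun i _ => ?_
    rw [Derivation.leibniz]
    simp only [smul_eq_mul]
    change a i * w i j + v' i j * δ (a i) = _
    ring
  have hrel : ∀ a b c, Bf T (wL a) (vL b) (vL c) + Bf T (wL b) (vL a) (vL c) +
      Bf T (wL c) (vL a) (vL b) = 0 := by
    intro a b c
    have h1 := congrArg δ (hv0 a b c)
    rw [map_zero, der_Bf δ hT0, hδv, hδv, hδv] at h1
    have h2 : Bf T (fun j => wL a j + vL (fun i => δ (a i)) j) (vL b) (vL c) =
        Bf T (wL a) (vL b) (vL c) := by
      have := Bg_add1 T (wL a) (vL fun i => δ (a i)) (vL b) (vL c)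
      have h0 := hv0 (fun i => δ (a i)) b c
      rw [Bf_eq] at h0
      rw [h0, add_zero] at this
      exact this
    have h3 : Bf T (vL a) (fun j => wL b j + vL (fun i => δ (b i)) j) (vL c) =
        Bf T (wL b) (vL a) (vL c) := by
      rw [sw12 hT]
      have := Bg_add1 T (wL b) (vL fun i => δ (b i)) (vL a) (vL c)
      have h0 := hv0 (fun i => δ (b i)) a c
      rw [Bf_eq] at h0
      rw [h0, add_zero] at this
      exact this
    have h4 : Bf T (vL a) (vL b) (fun j => wL c j + vL (fun i => δ (c i)) j) =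
        Bf T (wL c) (vL a) (vL b) := by
      rw [sw23 hT, sw12 hT]
      have := Bg_add1 T (wL c) (vL fun i => δ (c i)) (vL a) (vL b)
      have h0 := hv0 (fun i => δ (c i)) a b
      rw [Bf_eq] at h0
      rw [h0, add_zero] at this
      exact this
    rw [h2, h3, h4] at h1
    exact h1
  obtain ⟨c, hc⟩ := syz hT hS vL wL hinj hv0 hrel (Pi.single i1 1)
  have hw1 : wL (Pi.single i1 1) = w i1 := by
    rw [hwL, Finset.sum_eq_single i1]
    · rw [Pi.single_eq_same, one_smul]
    · intro i _ hi
      rw [Pi.single_eq_of_ne hi, zero_smul]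
    · intro h
      exact absurd (Finset.mem_univ _) h
  rw [hw1] at hc
  have hc0 : c = 0 := by
    funext i
    have h1 := congrFun hc (π i)
    rw [hvLk] at h1
    simp only [hπ, hw] at h1
    have h2 : δ (if i1 = i then (1 : ℂ) else 0) = 0 := by
      split_ifs
      · exact Derivation.map_one_eq_zero δ
      · exact map_zero δ
    rw [h2] at h1
    simpa using h1
  rw [hc0, map_zero] at hc
  have h1 := congrFun hc j1
  have h2 : w i1 j1 = 1 := hδ ()
  rw [h2] at h1
  exact zero_ne_one h1

end

end Pool.Agent.H44T.CF
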