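import Mathlib
import Pool.Agent.H44T.CF.Irrd
import Pool.Agent.H44T.CF.Rig2
import Pool.Agent.H44T.CF.Arc2
import Pool.Agent.H44T.CF.Ani2

/-! # A line in a smooth cubic fourfold which meets no plane of the cubic: job AVOID -/

set_option autoImplicit false

namespace Pool.Agent.H44T.CF

open MvPolynomial Pool.Agent.Y201.C3 Pool.Agent.Y201.LI Cardinal

noncomputable section

theorem exists_ctbl (S : Set ℂ) (hS : S.Finite) :
    ∃ k : Subfield ℂ, IsAlgClosed k ∧ Countable k ∧ S ⊆ k := by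
  let k0 := Subfield.closure S
  have h1 : #k0 ≤ ℵ₀ := by
    refine (Subfield.cardinalMk_closure_le_max S).trans ?_
    rw [max_le_iff]
    exact ⟨(Cardinal.mk_le_aleph0_iff.2 hS.countable.to_subtype), le_rfl⟩
  let k1 := algebraicClosure k0 ℂ
  have h2 : IsAlgClosed k1 := (algebraicClosure.isAlgClosure k0 ℂ).isAlgClosed
  have h3 : #k1 ≤ ℵ₀ := by
    refine (Algebra.IsAlgebraic.cardinalMk_le_max k0 k1).trans ?_
    rw [max_le_iff]
    exact ⟨h1, le_rfl⟩
  refine ⟨k1.toSubfield, h2, Cardinal.mk_le_aleph0_iff.1 h3, fun x hx => ?_⟩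
  have h4 : x ∈ k0 := Subfield.subset_closure hx
  exact k1.algebraMap_mem ⟨x, h4⟩

theorem mem_span3 {v : Fin 3 → Fin 6 → ℂ} {y : Fin 6 → ℂ}
    (hy : y ∈ Submodule.span ℂ (Set.range v)) :
    ∃ a b c : ℂ, y = fun j => a * v 0 j + b * v 1 j + c * v 2 j := by
  obtain ⟨x, hx⟩ := (Submodule.mem_span_range_iff_exists_fun ℂ).1 hy
  refine ⟨x 0, x 1, x 2, ?_⟩
  rw [← hx]
  funext j
  rw [Fin.sum_univ_three]
  simp only [Pi.add_apply, Pi.smul_apply, smul_eq_mul]

theorem Bf_span {T : Fin 6 → Fin 6 → Fin 6 → ℂ} {v : Fin 3 → Fin 6 → ℂ}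
    (h : ∀ i j k, Bf T (v i) (v j) (v k) = 0) {x y z : Fin 6 → ℂ}
    (hx : x ∈ Submodule.span ℂ (Set.range v)) (hy : y ∈ Submodule.span ℂ (Set.range v))
    (hz : z ∈ Submodule.span ℂ (Set.range v)) : Bf T x y z = 0 := by
  obtain ⟨a, b, c, rfl⟩ := mem_span3 hx
  obtain ⟨a', b', c', rfl⟩ := mem_span3 hy
  obtain ⟨a'', b'', c'', rfl⟩ := mem_span3 hz
  simp only [Bf_eq] at h ⊢
  simp only [Bg_add1, Bg_add2, Bg_add3, Bg_smul1, Bg_smul2, Bg_smul3, h]
  ring

/-- the polynomial which rules out a plane -/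
theorem exists_Rv {T : Fin 6 → Fin 6 → Fin 6 → ℂ} (hT : SymT T) {v : Fin 3 → Fin 6 → ℂ}
    (hv : LinearIndependent ℂ v)
    (hpl : ∀ i j k, Bf T (v i) (v j) (v k) = 0) (p : Fin 6 → ℂ) (hp0 : p 0 ≠ 0)
    (hD : (Matrix.of fun i j : Fin 3 => Bf T p (v i) (v j)).det ≠ 0)
    (hQ : Bf T p p (v 0) ≠ 0) :
    ∃ R : MvPolynomial (Fin 6) ℂ, R ≠ 0 ∧ ∀ (c : Fin 6 → ℂ) (y : Fin 6 → ℂ),
      y ∈ Submodule.span ℂ (Set.range v) → Bf T p p y = 0 → Bf T p y y = 0 →
      (∑ j, c j * (p 0 * y j - p j * y 0)) = 0 → y ≠ 0 → eval c R = 0 := by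
  classical
  set w : Fin 3 → ℂ := fun i => Bf T p p (v i) with hw
  set q : Fin 3 → Fin 3 → ℂ := fun i j => Bf T (v i) (v j) p with hq
  have hqs : ∀ i j, q i j = q j i := fun i j => sw12 hT _ _ _
  have hqp : ∀ i j, Bf T p (v i) (v j) = q i j := by
    intro i j
    rw [sw12 hT, sw23 hT]
  have hw0 : w 0 ≠ 0 := hQ
  set m : Fin 3 → Fin 6 → ℂ := fun i j => p 0 * v i j - p j * v i 0 with hm
  set l1 : Fin 6 → ℂ := fun j => w 0 * m 1 j - w 1 * m 0 j with hl1
  set l2 : Fin 6 → ℂ := fun j => w 0 * m 2 j - w 2 * m 0 j with hl2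
  set α : ℂ := q 0 0 * w 1 ^ 2 - 2 * q 0 1 * w 1 * w 0 + q 1 1 * w 0 ^ 2 with hα
  set β : ℂ := q 0 0 * w 1 * w 2 - q 0 1 * w 0 * w 2 - q 0 2 * w 0 * w 1 + q 1 2 * w 0 ^ 2 with hβ
  set γ : ℂ := q 0 0 * w 2 ^ 2 - 2 * q 0 2 * w 2 * w 0 + q 2 2 * w 0 ^ 2 with hγ
  -- `p` is not in the plane
  have hpn : p ∉ Submodule.span ℂ (Set.range v) := by
    intro hp
    apply hD
    have h1 : (Matrix.of fun i j : Fin 3 => Bf T p (v i) (v j)) = 0 := by
      ext i j
      exact Bf_span hpl hp (Submodule.subset_span ⟨i, rfl⟩) (Submodule.subset_span ⟨j, rfl⟩)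
    rw [h1]
    simp
  -- the two linear forms are independent
  have hli : LinearIndependent ℂ ![l1, l2] := by
    rw [LinearIndependent.pair_iff]
    intro s t hst
    set y : Fin 6 → ℂ := fun j => -(s * w 1 + t * w 2) * v 0 j + s * w 0 * v 1 j +
      t * w 0 * v 2 j with hy
    have h1 : ∀ j, p 0 * y j = p j * y 0 := by
      intro j
      have h2 := congrFun hst j
      simp only [Pi.add_apply, Pi.smul_apply, smul_eq_mul, Pi.zero_apply, hl1, hl2, hm] at h2
      simp only [hy]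
      linear_combination h2
    have hy0 : y 0 = 0 := by
      by_contra h3
      apply hpn
      have h4 : p = (p 0 / y 0) • y := by
        funext j
        simp only [Pi.smul_apply, smul_eq_mul]
        field_simp
        exact (h1 j).symm
      rw [h4]
      apply Submodule.smul_mem
      have h5 : y = (-(s * w 1 + t * w 2)) • v 0 + (s * w 0) • v 1 + (t * w 0) • v 2 := by
        funext j
        simp only [hy, Pi.add_apply, Pi.smul_apply, smul_eq_mul]
      rw [h5]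
      exact Submodule.add_mem _ (Submodule.add_mem _
        (Submodule.smul_mem _ _ (Submodule.subset_span ⟨0, rfl⟩))
        (Submodule.smul_mem _ _ (Submodule.subset_span ⟨1, rfl⟩)))
        (Submodule.smul_mem _ _ (Submodule.subset_span ⟨2, rfl⟩))
    have hy1 : ∀ j, y j = 0 := by
      intro j
      have h3 := h1 j
      rw [hy0, mul_zero] at h3
      exact (mul_eq_zero.1 h3).resolve_left hp0
    have h6 := Fintype.linearIndependent_iff.1 hv
      ![-(s * w 1 + t * w 2), s * w 0, t * w 0] (by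
        rw [Fin.sum_univ_three]
        funext j
        have := hy1 j
        simp only [hy] at this
        simpa [Pi.add_apply, Pi.smul_apply, smul_eq_mul] using this)
    have h7 : s * w 0 = 0 := h6 1
    have h8 : t * w 0 = 0 := h6 2
    exact ⟨(mul_eq_zero.1 h7).resolve_right hw0, (mul_eq_zero.1 h8).resolve_right hw0⟩
  obtain ⟨a, b, hab⟩ := minor hli
  -- the quadratic form does not vanish on the kernel of `w`
  have hne : ¬ (α = 0 ∧ β = 0 ∧ γ = 0) := by
    rintro ⟨h1, h2, h3⟩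
    apply hD
    have h4 : (Matrix.of fun i j : Fin 3 => Bf T p (v i) (v j)) =
        !![q 0 0, q 0 1, q 0 2; q 0 1, q 1 1, q 1 2; q 0 2, q 1 2, q 2 2] := by
      ext i j
      rw [Matrix.of_apply, hqp]
      fin_cases i <;> fin_cases j <;> first | rfl | exact hqs _ _
    rw [h4, Matrix.det_fin_three]
    simp only [Matrix.of_apply, Matrix.cons_val', Matrix.cons_val_zero, Matrix.cons_val_one,
      Matrix.cons_val_fin_one, Matrix.cons_val]
    have h5 : w 0 ^ 4 * (q 0 0 * q 1 1 * q 2 2 - q 0 0 * q 1 2 * q 1 2 - q 0 1 * q 0 1 * q 2 2 +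
        q 0 1 * q 1 2 * q 0 2 + q 0 2 * q 0 1 * q 1 2 - q 0 2 * q 1 1 * q 0 2) = 0 := by
      have e1 : w 0 ^ 4 * (q 0 0 * q 1 1 * q 2 2 - q 0 0 * q 1 2 * q 1 2 -
          q 0 1 * q 0 1 * q 2 2 + q 0 1 * q 1 2 * q 0 2 + q 0 2 * q 0 1 * q 1 2 -
          q 0 2 * q 1 1 * q 0 2) = q 0 0 * (α * γ - β ^ 2) -
          (q 0 1 * w 0 - q 0 0 * w 1) ^ 2 * γ + 2 * (q 0 1 * w 0 - q 0 0 * w 1) *
            (q 0 2 * w 0 - q 0 0 * w 2) * β - (q 0 2 * w 0 - q 0 0 * w 2) ^ 2 * α := by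
        rw [hα, hβ, hγ]
        ring
      rw [e1, h1, h2, h3]
      ring
    exact (mul_eq_zero.1 h5).resolve_left (pow_ne_zero 4 hw0)
  set L1 : MvPolynomial (Fin 6) ℂ := ∑ j, X j * C (l1 j) with hL1
  set L2 : MvPolynomial (Fin 6) ℂ := ∑ j, X j * C (l2 j) with hL2
  have hL1e : ∀ c : Fin 6 → ℂ, eval c L1 = ∑ j, c j * l1 j := by
    intro c
    rw [hL1, map_sum]
    exact Finset.sum_congr rfl fun j _ => by rw [map_mul, eval_X, eval_C]
  have hL2e : ∀ c : Fin 6 → ℂ, eval c L2 = ∑ j, c j * l2 j := by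
    intro c
    rw [hL2, map_sum]
    exact Finset.sum_congr rfl fun j _ => by rw [map_mul, eval_X, eval_C]
  set R : MvPolynomial (Fin 6) ℂ := C α * L2 ^ 2 - C (2 * β) * L1 * L2 + C γ * L1 ^ 2 with hR
  have hRe : ∀ c : Fin 6 → ℂ, eval c R = α * (∑ j, c j * l2 j) ^ 2 -
      2 * β * (∑ j, c j * l1 j) * (∑ j, c j * l2 j) + γ * (∑ j, c j * l1 j) ^ 2 := by
    intro c
    rw [hR]
    simp only [map_add, map_sub, map_mul, map_pow, eval_C, hL1e, hL2e]
  refine ⟨R, ?_, ?_⟩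
  · intro hR0
    -- every value of the two linear forms is attained
    have hval : ∀ x y : ℂ, ∃ c : Fin 6 → ℂ, (∑ j, c j * l1 j) = x ∧ (∑ j, c j * l2 j) = y := by
      intro x y
      set D := l1 a * l2 b - l1 b * l2 a with hDD
      refine ⟨fun j => ((x * l2 b - y * l1 b) / D) * (if j = a then 1 else 0) +
        ((y * l1 a - x * l2 a) / D) * (if j = b then 1 else 0), ?_, ?_⟩
      · simp only [add_mul, Finset.sum_add_distrib, mul_assoc, ite_mul, one_mul, zero_mul,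
          mul_ite, mul_zero, Finset.sum_ite_eq', Finset.mem_univ, if_true]
        field_simp
        rw [hDD]
        ring
      · simp only [add_mul, Finset.sum_add_distrib, mul_assoc, ite_mul, one_mul, zero_mul,
          mul_ite, mul_zero, Finset.sum_ite_eq', Finset.mem_univ, if_true]
        field_simp
        rw [hDD]
        ring
    have hall : ∀ x y : ℂ, α * y ^ 2 - 2 * β * x * y + γ * x ^ 2 = 0 := by
      intro x y
      obtain ⟨c, h1, h2⟩ := hval x y
      have h3 := hRe c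
      rw [hR0, map_zero, h1, h2] at h3
      exact h3.symm
    apply hne
    have e1 := hall 0 1
    have e2 := hall 1 0
    have e3 := hall 1 1
    have f1 : α = 0 := by linear_combination e1
    have f2 : γ = 0 := by linear_combination e2
    refine ⟨f1, ?_, f2⟩
    rw [f1, f2] at e3
    have f3 : 2 * β = 0 := by linear_combination - e3
    exact (mul_eq_zero.1 f3).resolve_left (by norm_num)
  · intro c y hy h1 h2 h3 hy0
    obtain ⟨x0, x1, x2, hyx⟩ := mem_span3 hy
    have k1 : x0 * w 0 + x1 * w 1 + x2 * w 2 = 0 := by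
      rw [hyx] at h1
      simp only [Bf_eq, Bg_add3, Bg_smul3] at h1
      exact h1
    have k2 : x0 ^ 2 * q 0 0 + x1 ^ 2 * q 1 1 + x2 ^ 2 * q 2 2 + 2 * x0 * x1 * q 0 1 +
        2 * x0 * x2 * q 0 2 + 2 * x1 * x2 * q 1 2 = 0 := by
      rw [hyx, Bf_quad hT] at h2
      exact h2
    have k3 : x1 * (∑ j, c j * l1 j) + x2 * (∑ j, c j * l2 j) = 0 := by
      have h4 : w 0 * (∑ j, c j * (p 0 * y j - p j * y 0)) =
          x1 * (∑ j, c j * l1 j) + x2 * (∑ j, c j * l2 j) +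
            (x0 * w 0 + x1 * w 1 + x2 * w 2) * (∑ j, c j * m 0 j) := by
        simp only [Finset.mul_sum, ← Finset.sum_add_distrib]
        refine Finset.sum_congr rfl fun j _ => ?_
        simp only [hyx, hl1, hl2, hm]
        ring
      rw [h3, k1, mul_zero, zero_mul, add_zero] at h4
      exact h4.symm
    rw [hRe]
    set s1 := ∑ j, c j * l1 j
    set s2 := ∑ j, c j * l2 j
    have k4 : α * x1 ^ 2 + 2 * β * x1 * x2 + γ * x2 ^ 2 = 0 := by
      rw [hα, hβ, hγ]
      have k5 : x0 * w 0 = -(x1 * w 1 + x2 * w 2) := by linear_combination k1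
      have k6 : q 0 0 * (x1 * w 1 + x2 * w 2) ^ 2 = q 0 0 * (x0 * w 0) ^ 2 := by
        rw [k5]
        ring
      linear_combination w 0 ^ 2 * k2 + k6 - (2 * x1 * q 0 1 * w 0 + 2 * x2 * q 0 2 * w 0) * k5
    by_cases hx1 : x1 = 0
    · by_cases hx2 : x2 = 0
      · exfalso
        apply hy0
        rw [hx1, hx2, zero_mul, zero_mul, add_zero, add_zero] at k1
        have hx0 : x0 = 0 := (mul_eq_zero.1 k1).resolve_right hw0
        rw [hyx, hx0, hx1, hx2]
        funext j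
        simp
      · have h5 : x2 ^ 2 * (α * s2 ^ 2 - 2 * β * s1 * s2 + γ * s1 ^ 2) = 0 := by
          linear_combination s1 ^ 2 * k4 + (α * x2 * s2 - α * x1 * s1 - 2 * β * x2 * s1) * k3
        exact (mul_eq_zero.1 h5).resolve_left (pow_ne_zero 2 hx2)
    · have h5 : x1 ^ 2 * (α * s2 ^ 2 - 2 * β * s1 * s2 + γ * s1 ^ 2) = 0 := by
        linear_combination s2 ^ 2 * k4 + (γ * x1 * s1 - γ * x2 * s2 - 2 * β * x1 * s2) * k3
      exact (mul_eq_zero.1 h5).resolve_left (pow_ne_zero 2 hx1)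

end

end Pool.Agent.H44T.CF
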