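import Mathlib
import Pool.Agent.H44T.CF.Avoid

/-! # A line in a smooth cubic fourfold which meets no plane of the cubic: job AVOID -/

set_option autoImplicit false

namespace Pool.Agent.H44T.CF

open MvPolynomial Pool.Agent.Y201.C3 Pool.Agent.Y201.LI Cardinal

noncomputable section

/-- a nonzero form of degree smaller than three is not divisible by the cubic form -/
theorem not_dvd_of_deg {T : Fin 6 → Fin 6 → Fin 6 → ℂ} (hT : SymT T) (hS : SmoothT T)
    {P : MvPolynomial (Fin 6) ℂ} (hP : P ≠ 0) {d : ℕ} (hd : P.IsHomogeneous d) (h3 : d < 3) :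
    ¬ frm T ∣ P := by
  rintro ⟨A, hA⟩
  have hF0 := frm_ne hT hS
  have hA0 : A ≠ 0 := by
    rintro rfl
    exact hP (by rw [hA, mul_zero])
  have h1 := totalDegree_mul_of_isDomain hF0 hA0
  rw [← hA, hd.totalDegree hP, (frm_hom T).totalDegree hF0] at h1
  omega

theorem netMat_hom (T : Fin 6 → Fin 6 → Fin 6 → ℂ) (v : Fin 3 → Fin 6 → ℂ) (i j : Fin 3) :
    (netMat T v i j).IsHomogeneous 1 := by
  unfold netMat
  refine IsHomogeneous.sum _ _ _ fun a _ => ?_
  exact (isHomogeneous_X ℂ a).mul (isHomogeneous_C (Fin 6) _)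

theorem det_hom (T : Fin 6 → Fin 6 → Fin 6 → ℂ) (v : Fin 3 → Fin 6 → ℂ) :
    (netMat T v).det.IsHomogeneous 3 := by
  have h := netMat_hom T v
  rw [Matrix.det_fin_three]
  have h2 : ∀ a b c d e f : Fin 3,
      (netMat T v a b * netMat T v c d * netMat T v e f).IsHomogeneous 3 := fun a b c d e f =>
    ((h a b).mul (h c d)).mul (h e f)
  exact (((((h2 _ _ _ _ _ _).sub (h2 _ _ _ _ _ _)).sub (h2 _ _ _ _ _ _)).add
    (h2 _ _ _ _ _ _)).add (h2 _ _ _ _ _ _)).sub (h2 _ _ _ _ _ _)

theorem not_dvd_det {T : Fin 6 → Fin 6 → Fin 6 → ℂ} (hT : SymT T) (hS : SmoothT T)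
    {v : Fin 3 → Fin 6 → ℂ} (hv : LinearIndependent ℂ v)
    (hpl : ∀ i j k, Bf T (v i) (v j) (v k) = 0) : ¬ frm T ∣ (netMat T v).det := by
  rintro ⟨A, hA⟩
  have hF0 := frm_ne hT hS
  have hD0 := netMat_det_ne hT hS hv
  have hA0 : A ≠ 0 := by
    rintro rfl
    exact hD0 (by rw [hA, mul_zero])
  have h1 := totalDegree_mul_of_isDomain hF0 hA0
  rw [← hA, (det_hom T v).totalDegree hD0, (frm_hom T).totalDegree hF0] at h1
  have h2 : A.totalDegree = 0 := by omega
  rw [totalDegree_eq_zero_iff_eq_C] at h2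
  set c := A.coeff 0 with hc
  have hc0 : c ≠ 0 := by
    intro h
    rw [h, C_0] at h2
    exact hA0 h2
  have h0 : v 0 = 0 := by
    apply sing_zero hT hS
    intro y
    have h3 : ∀ s : ℂ, 3 * Bf T (v 0) (v 0) y * s + 3 * Bf T (v 0) y y * s ^ 2 +
        Bf T y y y * s ^ 3 = s ^ 2 * (Polynomial.C ((Matrix.of fun i j : Fin 3 =>
          Bf T y (v i) (v j)).det / c) * Polynomial.X).eval s := by
      intro s
      have h4 := frm_line hT (v 0) y s
      rw [hpl 0 0 0] at h4
      have h5 := congrArg (eval fun i => v 0 i + s * y i) hA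
      rw [netMat_det_eval, map_mul, h2, eval_C, h4] at h5
      have h6 : (Matrix.of fun i j : Fin 3 => Bf T (fun i => v 0 i + s * y i) (v i) (v j)) =
          s • (Matrix.of fun i j : Fin 3 => Bf T y (v i) (v j)) := by
        ext i j
        simp only [Matrix.of_apply, Matrix.smul_apply, smul_eq_mul]
        simp only [Bf_eq, Bg_add1, Bg_smul1]
        have h7 := hpl 0 i j
        rw [Bf_eq] at h7
        rw [h7, zero_add]
      rw [h6, Matrix.det_smul, Fintype.card_fin] at h5
      rw [Polynomial.eval_mul, Polynomial.eval_C, Polynomial.eval_X]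
      field_simp
      linear_combination - h5
    have h8 := first_order _ h3
    exact (mul_eq_zero.1 h8).resolve_left (by norm_num)
  exact hv.ne_zero 0 h0

/-- the polar quadratic form of a vector -/
def Qf (T : Fin 6 → Fin 6 → Fin 6 → ℂ) (v : Fin 6 → ℂ) : MvPolynomial (Fin 6) ℂ :=
  ∑ i, ∑ j, C (∑ k, T i j k * v k) * X i * X j

theorem Qf_eval (T : Fin 6 → Fin 6 → Fin 6 → ℂ) (v p : Fin 6 → ℂ) :
    eval p (Qf T v) = Bf T p p v := by
  unfold Qf Bf
  simp only [map_sum, map_mul, eval_X, eval_C, Finset.sum_mul]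
  refine Finset.sum_congr rfl fun i _ => Finset.sum_congr rfl fun j _ =>
    Finset.sum_congr rfl fun k _ => ?_
  simp only [Algebra.algebraMap_self, RingHom.id_apply]
  ring

theorem Qf_hom (T : Fin 6 → Fin 6 → Fin 6 → ℂ) (v : Fin 6 → ℂ) : (Qf T v).IsHomogeneous 2 := by
  unfold Qf
  refine IsHomogeneous.sum _ _ _ fun i _ => IsHomogeneous.sum _ _ _ fun j _ => ?_
  exact ((isHomogeneous_C (Fin 6) _).mul (isHomogeneous_X ℂ i)).mul (isHomogeneous_X ℂ j)

theorem Qf_ne {T : Fin 6 → Fin 6 → Fin 6 → ℂ} (hT : SymT T) (hS : SmoothT T) {v : Fin 6 → ℂ}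
    (hv : v ≠ 0) : Qf T v ≠ 0 := by
  intro h
  apply hv
  apply sing_zero hT hS
  intro y
  have h1 : ∀ p : Fin 6 → ℂ, Bf T p p v = 0 := by
    intro p
    rw [← Qf_eval, h, map_zero]
  have h2 := h1 (fun i => v i + y i)
  simp only [Bf_eq, Bg_add1, Bg_add2] at h2
  simp only [← Bf_eq] at h2
  rw [h1 v, h1 y, sw12 hT y v v] at h2
  have h3 : 2 * Bf T v y v = 0 := by linear_combination h2
  rw [sw23 hT]
  exact (mul_eq_zero.1 h3).resolve_left (by norm_num)

theorem eval_Bf (T : Fin 6 → Fin 6 → Fin 6 → ℂ) (x : Fin 6 → ℂ)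
    (a b c : Fin 6 → MvPolynomial (Fin 6) ℂ) : eval x (Bf T a b c) =
      Bf T (fun i => eval x (a i)) (fun i => eval x (b i)) (fun i => eval x (c i)) := by
  rw [← ev_ae, map_Bf]
  simp only [ev_ae]

theorem avoid : S_AVOID := by
  classical
  intro T hT hS e W hW hWd
  obtain ⟨k, hk, hkc, hTk⟩ := exists_ctbl
    (Set.range fun x : Fin 6 × Fin 6 × Fin 6 => T x.1 x.2.1 x.2.2) (Set.finite_range _)
  have hTk' : ∀ i j l, T i j l ∈ k := fun i j l => hTk ⟨(i, j, l), rfl⟩
  let V : (Fin 3 → Fin 6 → k) → Fin 3 → Fin 6 → ℂ := fun v i j => ((v i j : k) : ℂ)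
  let ι := {v : Fin 3 → Fin 6 → k // LinearIndependent ℂ (V v) ∧
    ∀ i j l, Bf T (V v i) (V v j) (V v l) = 0}
  have hι : Countable ι := inferInstance
  obtain ⟨p, hpF, hp⟩ := exists_point (irred hT hS) (deg_ne hT hS)
    (({W} ∪ {X 0}) ∪ ((Set.range fun v : ι => (netMat T (V v.1)).det) ∪
      (Set.range fun v : ι => Qf T (V v.1 0))))
    (((Set.countable_singleton _).union (Set.countable_singleton _)).union
      ((Set.countable_range _).union (Set.countable_range _))) (by
      rintro H ((rfl | rfl) | (⟨v, rfl⟩ | ⟨v, rfl⟩))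
      · exact hWd
      · exact not_dvd_of_deg hT hS (X_ne_zero _) (isHomogeneous_X ℂ 0) (by norm_num)
      · exact not_dvd_det hT hS v.2.1 v.2.2
      · exact not_dvd_of_deg hT hS (Qf_ne hT hS (v.2.1.ne_zero 0)) (Qf_hom _ _) (by norm_num))
  have hpW : eval p W ≠ 0 := hp _ (Or.inl (Or.inl rfl))
  have hp0 : p 0 ≠ 0 := by
    have := hp (X 0) (Or.inl (Or.inr rfl))
    rwa [eval_X] at this
  have hpD : ∀ v : ι, (Matrix.of fun i j : Fin 3 => Bf T p (V v.1 i) (V v.1 j)).det ≠ 0 := by
    intro v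
    have := hp _ (Or.inr (Or.inl ⟨v, rfl⟩))
    rwa [netMat_det_eval] at this
  have hpQ : ∀ v : ι, Bf T p p (V v.1 0) ≠ 0 := by
    intro v
    have := hp _ (Or.inr (Or.inr ⟨v, rfl⟩))
    rwa [Qf_eval] at this
  have hppp : Bf T p p p = 0 := by
    rw [← eval_frm, hpF]
  choose R hR0 hR using fun v : ι => exists_Rv hT v.2.1 v.2.2 p hp0 (hpD v) (hpQ v)
  obtain ⟨c, hc⟩ := exists_avoid (Set.range R) (Set.countable_range R) (by
    rintro ⟨v, hv⟩
    exact hR0 v hv)
  obtain ⟨q, hq0, hq⟩ := Pool.Agent.H552R3.Tsen.exists_common_zero (k := ℂ) (σ := Fin 6)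
    (![X 0, ∑ j, C (c j) * (C (p 0) * X j - C (p j) * X 0),
      Bf T (fun i => C (p i)) (fun i => C (p i)) X, Bf T (fun i => C (p i)) X X,
      Bf T X X X] : Fin 5 → MvPolynomial (Fin 6) ℂ) (by
      intro i
      fin_cases i
      · simp
      · simp
      · change eval 0 (Bf T (fun i => C (p i)) (fun i => C (p i)) X) = 0
        rw [eval_Bf]
        simp [Bf]
      · change eval 0 (Bf T (fun i => C (p i)) X X) = 0
        rw [eval_Bf]
        simp [Bf]
      · change eval 0 (Bf T X X X) = 0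
        rw [eval_Bf]
        simp [Bf]) (by simp)
  have q0 : q 0 = 0 := by
    have := hq 0
    change eval q (X 0) = 0 at this
    rwa [eval_X] at this
  have q1 : ∑ j, c j * (p 0 * q j - p j * q 0) = 0 := by
    have := hq 1
    change eval q (∑ j, C (c j) * (C (p 0) * X j - C (p j) * X 0)) = 0 at this
    rw [← this, map_sum]
    refine Finset.sum_congr rfl fun j _ => ?_
    simp only [map_mul, map_sub, eval_C, eval_X]
  have q2 : Bf T p p q = 0 := by
    have := hq 2
    change eval q (Bf T (fun i => C (p i)) (fun i => C (p i)) X) = 0 at this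
    rw [eval_Bf] at this
    simpa only [eval_C, eval_X] using this
  have q3 : Bf T p q q = 0 := by
    have := hq 3
    change eval q (Bf T (fun i => C (p i)) X X) = 0 at this
    rw [eval_Bf] at this
    simpa only [eval_C, eval_X] using this
  have q4 : Bf T q q q = 0 := by
    have := hq 4
    change eval q (Bf T X X X) = 0 at this
    rw [eval_Bf] at this
    simpa only [eval_C, eval_X] using this
  have hli : LinearIndependent ℂ ![p, q] := by
    rw [LinearIndependent.pair_iff]
    intro s t hst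
    have h1 := congrFun hst 0
    simp only [Pi.add_apply, Pi.smul_apply, smul_eq_mul, Pi.zero_apply, q0, mul_zero,
      add_zero] at h1
    have hs : s = 0 := (mul_eq_zero.1 h1).resolve_right hp0
    refine ⟨hs, ?_⟩
    rw [hs, zero_smul, zero_add] at hst
    exact (smul_eq_zero.1 hst).resolve_right hq0
  refine ⟨p, q, hli, ?_, hpW, ?_⟩
  · have e1 : Bf T p q p = 0 := by rw [sw23 hT, q2]
    have e2 : Bf T q p p = 0 := by rw [sw12 hT, e1]
    have e3 : Bf T q p q = 0 := by rw [sw12 hT, q3]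
    have e4 : Bf T q q p = 0 := by rw [sw23 hT, e3]
    intro i j l
    fin_cases i <;> fin_cases j <;> fin_cases l <;> assumption
  · intro v hv hpl a b hab
    obtain ⟨v', hv'k, hv'li, hspan⟩ := rig k hk T hT hS hTk' v hv hpl
    have hmem : ∀ i, v' i ∈ Submodule.span ℂ (Set.range v) := by
      intro i
      rw [← hspan]
      exact Submodule.subset_span ⟨i, rfl⟩
    let u : ι := ⟨fun i j => ⟨v' i j, hv'k i j⟩, hv'li, fun i j l =>
      Bf_span hpl (hmem i) (hmem j) (hmem l)⟩
    have hu : V u.1 = v' := rfl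
    have hcu := hc (R u) ⟨u, rfl⟩
    by_contra hcon
    apply hcu
    apply hR u c (a • p + b • q)
    · rw [hu, hspan]
      exact hab
    · have h1 : Bf T p p (a • p + b • q) = a * Bf T p p p + b * Bf T p p q := by
        have h2 : (a • p + b • q) = fun i => a * p i + b * q i := by
          funext i
          simp only [Pi.add_apply, Pi.smul_apply, smul_eq_mul]
        rw [h2]
        simp only [Bf_eq, Bg_add3, Bg_smul3]
      rw [h1, hppp, q2]
      ring
    · have h2 : (a • p + b • q) = fun i => a * p i + b * q i := by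
        funext i
        simp only [Pi.add_apply, Pi.smul_apply, smul_eq_mul]
      rw [h2]
      simp only [Bf_eq, Bg_add3, Bg_smul3, Bg_add2, Bg_smul2]
      simp only [← Bf_eq]
      rw [hppp, q2, q3, sw23 hT p q p, q2]
      ring
    · have h3 : ∀ j, c j * (p 0 * (a • p + b • q) j - p j * (a • p + b • q) 0) =
          b * (c j * (p 0 * q j - p j * q 0)) := by
        intro j
        simp only [Pi.add_apply, Pi.smul_apply, smul_eq_mul]
        ring
      simp only [h3]
      rw [← Finset.mul_sum, q1, mul_zero]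
    · intro h0
      exact hcon (LinearIndependent.pair_iff.1 hli a b h0)

end

end Pool.Agent.H44T.CF
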