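import Mathlib

/-! # Endomorphisms of a conic without rational points have odd degree: the core -/

set_option autoImplicit false

namespace Pool.Agent.H44T.CF

open Polynomial IntermediateField Module

noncomputable section

variable {k L : Type} [Field k] [Field L] [Algebra k L]

/-- the reflected conjugate polynomial -/
def refl (σ0 : k →+* k) (c : k) (m : ℕ) (P : k[X]) : k[X] :=
  ∑ i ∈ Finset.range (m + 1), C (σ0 (P.coeff i) * c ^ i) * X ^ (m - i)

theorem refl_deg (σ0 : k →+* k) (c : k) (m : ℕ) (P : k[X]) : (refl σ0 c m P).natDegree ≤ m := by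
  unfold refl
  apply natDegree_sum_le_of_forall_le
  intro i _
  refine (natDegree_C_mul_X_pow_le _ _).trans (Nat.sub_le _ _)

theorem refl_aeval {σ : L →+* L} {σ0 : k →+* k}
    (hσ0 : ∀ a, σ (algebraMap k L a) = algebraMap k L (σ0 a)) {c : k} {t : L}
    (htc : t * σ t = algebraMap k L c) {m : ℕ} {P : k[X]} (hP : P.natDegree ≤ m) :
    aeval t (refl σ0 c m P) = t ^ m * σ (aeval t P) := by
  rw [aeval_eq_sum_range' (Nat.lt_succ_of_le hP), map_sum, Finset.mul_sum]
  unfold refl
  rw [map_sum]
  refine Finset.sum_congr rfl fun i hi => ?_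
  rw [Algebra.smul_def, map_mul, map_mul σ, map_pow σ, hσ0, map_pow, aeval_C, aeval_X, map_mul,
    map_pow, ← htc]
  have h1 : t ^ m = t ^ (m - i) * t ^ i := by
    rw [← pow_add]
    congr 1
    rw [Finset.mem_range] at hi
    omega
  rw [h1]
  ring

theorem core {σ : L →+* L} {σ0 : k →+* k} (hσ : ∀ z, σ (σ z) = z)
    (hσ0 : ∀ a, σ (algebraMap k L a) = algebraMap k L (σ0 a)) {c : k} (hc : c ≠ 0) {t : L}
    (htr : Transcendental k t) (hgen : k⟮t⟯ = ⊤)
    (htc : t * σ t = algebraMap k L c) (T : L) (hT : ¬ ∃ a, T = algebraMap k L a)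
    (hTc : T * σ T = algebraMap k L c) :
    0 < finrank k⟮T⟯ L ∧ ∃ u : k, u * σ0 u * c = c ^ finrank k⟮T⟯ L := by
  classical
  let e : RatFunc k ≃ₐ[k] L := (RatFunc.algEquivOfTranscendental t htr).trans
    ((equivOfEq hgen).trans topEquiv)
  have he : ∀ u, e u = aeval t u.num / aeval t u.denom := by
    intro u
    change ((RatFunc.algEquivOfTranscendental t htr u : k⟮t⟯) : L) = _
    rw [RatFunc.algEquivOfTranscendental_apply]
  set f : RatFunc k := e.symm T with hf
  have hef : e f = T := e.apply_symm_apply T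
  have hfC : ¬ ∃ a, f = RatFunc.C a := by
    rintro ⟨a, ha⟩
    apply hT
    refine ⟨a, ?_⟩
    rw [← hef, ha]
    exact e.commutes a
  have hdeg : finrank k⟮T⟯ L = max f.num.natDegree f.denom.natDegree := by
    rw [← RatFunc.finrank_eq_max_natDegree]
    have h1 : k⟮T⟯ = (k⟮f⟯).map (e : RatFunc k →ₐ[k] L) := by
      rw [adjoin_map, Set.image_singleton]
      congr 2
      exact hef.symm
    rw [h1]
    symm
    refine Algebra.finrank_eq_of_equiv_equiv (intermediateFieldMap e k⟮f⟯).toRingEquiv
      e.toRingEquiv ?_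
    ext x
    rfl
  set P := f.num with hP
  set R := f.denom with hR
  set m := max P.natDegree R.natDegree with hm
  have hm0 : 0 < m := by
    by_contra h0
    apply hfC
    rw [RatFunc.eq_C_iff]
    have h1 : m = 0 := by omega
    rw [hm] at h1
    rw [Nat.max_eq_zero_iff] at h1
    exact h1
  have hinj : Function.Injective (aeval t : k[X] → L) := transcendental_iff_injective.1 htr
  have hR0 : aeval t R ≠ 0 := by
    intro h
    exact f.denom_ne_zero (hinj (by rw [h, map_zero]))
  have hTe : T = aeval t P / aeval t R := by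
    rw [← hef, he]
  have hc' : algebraMap k L c ≠ 0 := (_root_.map_ne_zero _).2 hc
  have hT0 : T ≠ 0 := by
    intro h
    rw [h, zero_mul] at hTc
    exact hc' hTc.symm
  have hP0 : aeval t P ≠ 0 := by
    intro h
    apply hT0
    rw [hTe, h, zero_div]
  have hsR0 : σ (aeval t R) ≠ 0 := (_root_.map_ne_zero σ).2 hR0
  have ht0 : t ≠ 0 := by
    intro h
    rw [h, zero_mul] at htc
    exact hc' htc.symm
  have hPR : aeval t P * σ (aeval t P) = algebraMap k L c * aeval t R * σ (aeval t R) := by
    rw [hTe, map_div₀] at hTc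
    field_simp at hTc
    linear_combination hTc
  set P' := refl σ0 c m P with hP'
  set R' := refl σ0 c m R with hR'
  have hPa : aeval t P' = t ^ m * σ (aeval t P) := refl_aeval hσ0 htc (le_max_left _ _)
  have hRa : aeval t R' = t ^ m * σ (aeval t R) := refl_aeval hσ0 htc (le_max_right _ _)
  have h1 : P * P' = C c * R * R' := by
    apply hinj
    rw [map_mul, map_mul, map_mul, hPa, hRa, aeval_C]
    linear_combination t ^ m * hPR
  have hcop : IsCoprime P R := f.isCoprime_num_denom
  have h2 : P ∣ R' := by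
    have h3 : P ∣ R * R' := by
      have h4 : P ∣ C c * (R * R') := ⟨P', by rw [h1]; ring⟩
      have h5 : IsUnit (C c) := isUnit_C.2 hc.isUnit
      exact (h5.dvd_mul_left).1 h4
    exact hcop.dvd_of_dvd_mul_left h3
  obtain ⟨u, hu⟩ := h2
  have hP00 : P ≠ 0 := by
    intro h
    apply hP0
    rw [h, map_zero]
  have hR00 : R ≠ 0 := f.denom_ne_zero
  have h3 : P' = C c * R * u := by
    apply mul_left_cancel₀ hP00
    rw [h1, hu]
    ring
  have hu0 : u ≠ 0 := by
    rintro rfl
    rw [mul_zero] at hu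
    rw [hu, map_zero] at hRa
    exact mul_ne_zero (pow_ne_zero m ht0) hsR0 hRa.symm
  have hud : u.natDegree = 0 := by
    have d1 := refl_deg σ0 c m R
    have d2 := refl_deg σ0 c m P
    rw [← hR', hu, natDegree_mul hP00 hu0] at d1
    rw [← hP', h3, mul_assoc, natDegree_C_mul hc, natDegree_mul hR00 hu0] at d2
    rcases max_choice P.natDegree R.natDegree with h | h
    · rw [← hm] at h
      omega
    · rw [← hm] at h
      omega
  obtain ⟨u0, hu00⟩ := natDegree_eq_zero.1 hud
  rw [← hu00] at hu h3
  refine ⟨by rw [hdeg]; exact hm0, u0, ?_⟩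
  rw [hdeg]
  apply (algebraMap k L).injective
  rw [map_mul, map_mul, map_pow]
  have e1 : t ^ m * σ (aeval t R) = aeval t P * algebraMap k L u0 := by
    rw [← hRa, hu, map_mul, aeval_C]
  have e2 : t ^ m * σ (aeval t P) = algebraMap k L c * aeval t R * algebraMap k L u0 := by
    rw [← hPa, h3, map_mul, map_mul, aeval_C, aeval_C]
  have e3 := congrArg σ e1
  rw [map_mul, map_mul, map_pow, hσ, hσ0] at e3
  apply mul_right_cancel₀ hR0
  have e4 : algebraMap k L c ^ m = t ^ m * σ t ^ m := by
    rw [← htc, mul_pow]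
  rw [e4]
  linear_combination - t ^ m * e3 - algebraMap k L (σ0 u0) * e2

end

end Pool.Agent.H44T.CF
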