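import Mathlib

/-! # The function field of a conic does not contain the square root of the discriminant -/

set_option autoImplicit false

namespace Pool.Agent.H44T.CF

open Polynomial IntermediateField Module

noncomputable section

theorem not_sq {K : Type} [Field K] [CharZero K] {a b : K} (ha : a ≠ 0) (hb : b ≠ 0)
    (g : RatFunc K) : g ^ 2 ≠ algebraMap K[X] (RatFunc K) (C a * X ^ 2 + C b) := by
  intro h
  have h1 : IsIntegral K[X] g := by
    refine IsIntegral.of_pow (n := 2) (by norm_num) ?_
    rw [h]
    exact isIntegral_algebraMap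
  obtain ⟨G, hG⟩ := (IsIntegrallyClosed.isIntegral_iff (R := K[X]) (K := RatFunc K)).1 h1
  have h2 : G ^ 2 = C a * X ^ 2 + C b := by
    apply IsFractionRing.injective K[X] (RatFunc K)
    rw [map_pow, hG, h]
  have h3 : G.natDegree = 1 := by
    have e1 : (C a * X ^ 2 + C b).natDegree = 2 := by
      rw [natDegree_add_C, natDegree_C_mul_X_pow 2 a ha]
    rw [← h2, natDegree_pow] at e1
    omega
  obtain ⟨α, β, hαβ⟩ := exists_eq_X_add_C_of_natDegree_le_one h3.le
  rw [hαβ] at h2
  have e0 := congrArg (eval 0) h2
  have e1 := congrArg (eval 1) h2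
  have e2 := congrArg (eval (-1)) h2
  simp only [eval_pow, eval_add, eval_mul, eval_C, eval_X] at e0 e1 e2
  have e3 : 4 * (α * β) = 0 := by linear_combination e1 - e2
  have e4 : α * β = 0 := (mul_eq_zero.1 e3).resolve_left (by norm_num)
  rcases mul_eq_zero.1 e4 with h | h
  · rw [h] at e1 e0
    apply ha
    linear_combination e0 - e1
  · rw [h] at e0
    apply hb
    linear_combination - e0

theorem alg_const {K : Type} [Field K] (g : RatFunc K) (h : IsAlgebraic K g) :
    ∃ a, g = RatFunc.C a := by
  by_contra hcon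
  exact (RatFunc.transcendental_of_ne_C g hcon) h

theorem two_decomp {F M : Type} [Field F] [Field M] [Algebra F M] {x : M} {a : F}
    (hx : x ^ 2 = algebraMap F M a) (hgen : F⟮x⟯ = ⊤) (s : M) :
    ∃ p q : F, s = algebraMap F M p + algebraMap F M q * x := by
  have hint : IsIntegral F x := by
    refine IsIntegral.of_pow (n := 2) (by norm_num) ?_
    rw [hx]
    exact isIntegral_algebraMap
  have h1 : s ∈ F⟮x⟯.toSubalgebra := by
    rw [hgen]
    trivial
  rw [adjoin_simple_toSubalgebra_of_isAlgebraic hint.isAlgebraic,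
    Algebra.adjoin_singleton_eq_range_aeval] at h1
  obtain ⟨f, hf⟩ := h1
  have hmon : (X ^ 2 - C a : F[X]).Monic := monic_X_pow_sub_C a (by norm_num)
  have h2 : aeval x (f %ₘ (X ^ 2 - C a)) = s := by
    rw [aeval_modByMonic_eq_self_of_root]
    · exact hf
    · rw [map_sub, map_pow, aeval_X, aeval_C, hx, sub_self]
  have h3 : (f %ₘ (X ^ 2 - C a)).natDegree ≤ 1 := by
    have h4 := natDegree_modByMonic_lt f hmon (by
      intro h
      have := congrArg natDegree h
      rw [natDegree_X_pow_sub_C, natDegree_one] at this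
      omega)
    rw [natDegree_X_pow_sub_C] at h4
    omega
  obtain ⟨q, p, hqp⟩ := exists_eq_X_add_C_of_natDegree_le_one h3
  rw [hqp] at h2
  refine ⟨p, q, ?_⟩
  rw [← h2]
  simp only [map_add, map_mul, aeval_C, aeval_X]
  ring

theorem sqrt_not {K M : Type} [Field K] [CharZero K] [Field M] [Algebra K M] {d c : K}
    (hd : ∀ r : K, r ^ 2 ≠ d) (hc : c ≠ 0) {x y : M}
    (hxy : x ^ 2 - algebraMap K M d * y ^ 2 = algebraMap K M c)
    (hgen : adjoin K ({x, y} : Set M) = ⊤) (hna : ¬ Algebra.IsAlgebraic K M) :
    ∀ r : M, r ^ 2 ≠ algebraMap K M d := by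
  intro s hs
  have hd0 : d ≠ 0 := by
    rintro rfl
    exact hd 0 (by ring)
  have hytr : Transcendental K y := by
    intro hy
    apply hna
    have hyi : IsIntegral K y := isAlgebraic_iff_isIntegral.1 hy
    have hxi : IsIntegral K x := by
      refine IsIntegral.of_pow (n := 2) (by norm_num) ?_
      have h1 : x ^ 2 = algebraMap K M d * y ^ 2 + algebraMap K M c := by
        linear_combination hxy
      rw [h1]
      exact (isIntegral_algebraMap.mul (hyi.pow 2)).add isIntegral_algebraMap
    have h2 : Algebra.IsAlgebraic K (adjoin K ({x, y} : Set M)) := by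
      apply isAlgebraic_adjoin
      rintro z (rfl | rfl)
      · exact hxi
      · exact hyi
    rw [hgen] at h2
    exact (topEquiv (F := K) (E := M)).isAlgebraic
  let e := RatFunc.algEquivOfTranscendental y hytr
  have heX : e RatFunc.X = ⟨y, mem_adjoin_simple_self K y⟩ := by
    apply Subtype.ext
    exact RatFunc.algEquivOfTranscendental_X y hytr
  let F := K⟮y⟯
  -- elements of `F`
  have hsF : ∀ z : F, (z : M) ≠ s := by
    intro z hz
    have h1 : z ^ 2 = algebraMap K F d := by
      apply Subtype.ext
      change (z : M) ^ 2 = algebraMap K M d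
      rw [hz, hs]
    have h2 : (e.symm z) ^ 2 = RatFunc.C d := by
      rw [← map_pow, h1]
      exact e.symm.commutes d
    have h3 : IsAlgebraic K (e.symm z) := by
      refine ⟨X ^ 2 - C d, (monic_X_pow_sub_C d (by norm_num)).ne_zero, ?_⟩
      rw [map_sub, map_pow, aeval_X, aeval_C, h2]
      exact sub_self _
    obtain ⟨a, ha⟩ := alg_const _ h3
    rw [ha, ← map_pow] at h2
    exact hd a (RatFunc.C_injective h2)
  have ha : x ^ 2 = algebraMap F M (algebraMap K F d * ⟨y, mem_adjoin_simple_self K y⟩ ^ 2 +
      algebraMap K F c) := by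
    change x ^ 2 = algebraMap K M d * y ^ 2 + algebraMap K M c
    linear_combination hxy
  have hgen2 : F⟮x⟯ = ⊤ := by
    have h1 := adjoin_adjoin_left K ({y} : Set M) ({x} : Set M)
    have h2 : ({y} ∪ {x} : Set M) = {x, y} := by
      ext z
      simp
    rw [h2, hgen] at h1
    rw [← restrictScalars_eq_top_iff (K := K)]
    exact h1
  obtain ⟨p, q, hpq⟩ := two_decomp ha hgen2 s
  have hxF : ∀ z : F, (z : M) ≠ x := by
    intro z hz
    apply hsF (p + q * z)
    rw [hpq, ← hz]
    rfl
  have h1 : algebraMap F M p * algebraMap F M q = 0 := by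
    by_contra h0
    have h2 : s ^ 2 = algebraMap F M p ^ 2 + algebraMap F M q ^ 2 * x ^ 2 +
        2 * (algebraMap F M p * algebraMap F M q) * x := by
      rw [hpq]
      ring
    rw [hs, ha] at h2
    have h20 : (2 : M) ≠ 0 := by
      have : CharZero M := charZero_of_injective_algebraMap (algebraMap K M).injective
      norm_num
    apply hxF ((algebraMap K F d - p ^ 2 - q ^ 2 * (algebraMap K F d *
      ⟨y, mem_adjoin_simple_self K y⟩ ^ 2 + algebraMap K F c)) / (2 * (p * q)))
    rw [← IntermediateField.algebraMap_apply, map_div₀, map_sub, map_sub, map_pow, map_mul, map_mul _ 2, map_mul _ p, map_ofNat,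
      div_eq_iff (mul_ne_zero h20 h0), map_pow]
    have h3 : algebraMap F M (algebraMap K F d) = algebraMap K M d := rfl
    rw [h3, h2]
    ring
  rcases mul_eq_zero.1 h1 with h | h
  · -- `s = q x`
    rw [h, zero_add] at hpq
    have hq0 : q ≠ 0 := by
      rintro rfl
      rw [map_zero, zero_mul] at hpq
      exact hsF 0 hpq.symm
    have h2 : q ^ 2 * (algebraMap K F d * ⟨y, mem_adjoin_simple_self K y⟩ ^ 2 +
        algebraMap K F c) = algebraMap K F d := by
      apply (algebraMap F M).injective
      rw [map_mul, map_pow, ← ha]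
      have h3 : algebraMap F M (algebraMap K F d) = algebraMap K M d := rfl
      rw [h3, ← hs, hpq]
      ring
    have h4 : (algebraMap K F d / q) ^ 2 = algebraMap K F (d ^ 2) *
        ⟨y, mem_adjoin_simple_self K y⟩ ^ 2 + algebraMap K F (d * c) := by
      rw [div_pow, div_eq_iff (pow_ne_zero 2 hq0), map_pow, map_mul]
      linear_combination - algebraMap K F d * h2
    have h5 := congrArg e.symm h4
    rw [map_pow, map_add, map_mul, map_pow e.symm ⟨y, _⟩, ← heX, e.symm_apply_apply] at h5
    have h6 : ∀ a : K, e.symm (algebraMap K F a) = RatFunc.C a := fun a => e.symm.commutes a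
    rw [h6, h6] at h5
    apply not_sq (pow_ne_zero 2 hd0) (mul_ne_zero hd0 hc) _ (h5.trans ?_)
    rw [map_add (algebraMap K[X] (RatFunc K)), map_mul (algebraMap K[X] (RatFunc K)),
      map_pow (algebraMap K[X] (RatFunc K)), RatFunc.algebraMap_C, RatFunc.algebraMap_C,
      RatFunc.algebraMap_X]
  · rw [h, zero_mul, add_zero] at hpq
    exact hsF p hpq.symm

end

end Pool.Agent.H44T.CF
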