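import Mathlib
import Pool.Agent.H44T.CF.Con1
import Pool.Agent.H44T.CF.Con2

/-! # Conics `x² - d y² = c` without rational points -/

set_option autoImplicit false

namespace Pool.Agent.H44T.CF

open Polynomial IntermediateField Module

noncomputable section

theorem alg_const' {k L : Type} [Field k] [Field L] [Algebra k L] {t : L}
    (htr : Transcendental k t) (hgen : k⟮t⟯ = ⊤) (z : L) (hz : IsAlgebraic k z) :
    ∃ a, z = algebraMap k L a := by
  let e : RatFunc k ≃ₐ[k] L := (RatFunc.algEquivOfTranscendental t htr).trans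
    ((equivOfEq hgen).trans topEquiv)
  have h1 : IsAlgebraic k (e.symm z) := (isAlgebraic_algHom_iff (e.symm : L →ₐ[k] RatFunc k)
    e.symm.injective).2 hz
  obtain ⟨a, ha⟩ := alg_const _ h1
  refine ⟨a, ?_⟩
  rw [← e.apply_symm_apply z, ha]
  exact e.commutes a

theorem finrank_eq_of_mem {A B L : Type} [Field A] [Field B] [Field L] [Algebra A L]
    [Algebra B L] (U : IntermediateField A L) (V : IntermediateField B L)
    (h : ∀ z : L, z ∈ U ↔ z ∈ V) : finrank U L = finrank V L := by
  let i : U ≃+* V :=
    { toFun := fun z => ⟨z.1, (h _).1 z.2⟩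
      invFun := fun z => ⟨z.1, (h _).2 z.2⟩
      left_inv := fun z => rfl
      right_inv := fun z => rfl
      map_mul' := fun a b => rfl
      map_add' := fun a b => rfl }
  refine Algebra.finrank_eq_of_equiv_equiv i (RingEquiv.refl L) ?_
  ext x
  rfl

/-- base change of a quadratic algebra -/
def iota (K M : Type) [Field K] [Field M] [Algebra K M] (d : K) :
    QuadraticAlgebra K d 0 →+* QuadraticAlgebra M (algebraMap K M d) 0 where
  toFun z := ⟨algebraMap K M z.re, algebraMap K M z.im⟩
  map_one' := QuadraticAlgebra.ext (map_one (algebraMap K M)) (map_zero (algebraMap K M))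
  map_zero' := by ext <;> simp
  map_add' a b := by ext <;> simp
  map_mul' a b := by ext <;> simp

theorem conic_nf {K M : Type} [Field K] [CharZero K] [Field M] [Algebra K M] {d c : K}
    (han : ∀ a b e : K, a ^ 2 - d * b ^ 2 = c * e ^ 2 → a = 0 ∧ b = 0 ∧ e = 0)
    {x y : M} (hxy : x ^ 2 - algebraMap K M d * y ^ 2 = algebraMap K M c)
    (hgen : adjoin K ({x, y} : Set M) = ⊤) (hna : ¬ Algebra.IsAlgebraic K M) :
    (∀ z : M, IsAlgebraic K z → ∃ a : K, z = algebraMap K M a) ∧
    ∀ x' y' : M, x' ^ 2 - algebraMap K M d * y' ^ 2 = algebraMap K M c →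
      Odd (finrank (adjoin K ({x', y'} : Set M)) M) := by
  have hd : ∀ r : K, r ^ 2 ≠ d := by
    intro r hr
    exact one_ne_zero (han r 1 0 (by rw [hr]; ring)).2.1
  have hc : c ≠ 0 := by
    rintro rfl
    exact one_ne_zero (han 0 0 1 (by ring)).2.2
  have hdM := sqrt_not hd hc hxy hgen hna
  have F1 : Fact (∀ r : K, r ^ 2 ≠ d + 0 * r) := ⟨fun r => by
    rw [zero_mul, add_zero]
    exact hd r⟩
  have F2 : Fact (∀ r : M, r ^ 2 ≠ algebraMap K M d + 0 * r) := ⟨fun r => by
    rw [zero_mul, add_zero]
    exact hdM r⟩
  have : CharZero M := charZero_of_injective_algebraMap (algebraMap K M).injective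
  let K' := QuadraticAlgebra K d 0
  let L := QuadraticAlgebra M (algebraMap K M d) 0
  let _ : Algebra K' L := (iota K M d).toAlgebra
  have : IsScalarTower K K' L := IsScalarTower.of_algebraMap_eq (fun r => by
    apply QuadraticAlgebra.ext
    · rfl
    · exact (map_zero (algebraMap K M)).symm)
  have : IsScalarTower K M L := inferInstance
  have : CharZero L := charZero_of_injective_algebraMap (algebraMap M L).injective
  have hK'alg : Algebra.IsAlgebraic K K' := Algebra.IsAlgebraic.of_finite K K'
  let s' : K' := ⟨0, 1⟩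
  let s : L := algebraMap K' L s'
  have hs : s = ⟨0, 1⟩ := by
    apply QuadraticAlgebra.ext
    · exact map_zero (algebraMap K M)
    · exact map_one (algebraMap K M)
  have hs0 : s ≠ 0 := by
    rw [hs]
    intro h
    have := congrArg QuadraticAlgebra.im h
    exact one_ne_zero this
  let c' : K' := algebraMap K K' c
  have hc' : c' ≠ 0 := (_root_.map_ne_zero _).2 hc
  have hσσ : ∀ z : L, starRingEnd L (starRingEnd L z) = z := fun z => star_star z
  have hσ0 : ∀ a : K', starRingEnd L (algebraMap K' L a) = algebraMap K' L (starRingEnd K' a) := by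
    intro a
    apply QuadraticAlgebra.ext
    · change algebraMap K M a.re + 0 * algebraMap K M a.im = algebraMap K M (a.re + 0 * a.im)
      rw [zero_mul, zero_mul, add_zero, add_zero]
    · change - algebraMap K M a.im = algebraMap K M (- a.im)
      rw [map_neg]
  have hnorm : ∀ a b : M, a ^ 2 - algebraMap K M d * b ^ 2 = algebraMap K M c →
      (⟨a, b⟩ : L) * starRingEnd L ⟨a, b⟩ = algebraMap K' L c' := by
    intro a b hab
    apply QuadraticAlgebra.ext
    · change a * (a + 0 * b) + algebraMap K M d * b * (-b) = algebraMap K M c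
      linear_combination hab
    · change a * (-b) + b * (a + 0 * b) + 0 * b * (-b) = algebraMap K M 0
      rw [map_zero]
      ring
  have hnorm0 : ∀ a b : M, a ^ 2 - algebraMap K M d * b ^ 2 = algebraMap K M c →
      (⟨a, b⟩ : L) ≠ 0 := by
    intro a b hab h
    have h1 := hnorm a b hab
    rw [h, zero_mul] at h1
    exact (_root_.map_ne_zero _).2 hc' h1.symm
  -- the coordinates of a point
  have hmem1 : ∀ (U : IntermediateField K' L) (a b : M),
      a ^ 2 - algebraMap K M d * b ^ 2 = algebraMap K M c → (⟨a, b⟩ : L) ∈ U →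
      algebraMap M L a ∈ U ∧ algebraMap M L b ∈ U := by
    intro U a b hab hU
    have h1 : starRingEnd L ⟨a, b⟩ ∈ U := by
      have h2 : starRingEnd L ⟨a, b⟩ = algebraMap K' L c' / ⟨a, b⟩ := by
        rw [eq_div_iff (hnorm0 a b hab), mul_comm]
        exact hnorm a b hab
      rw [h2]
      exact div_mem (U.algebraMap_mem _) hU
    have h2L : (2 : L) ≠ 0 := two_ne_zero
    have h2M : (2 : M) ≠ 0 := two_ne_zero
    constructor
    · have h3 : algebraMap M L a = ((⟨a, b⟩ : L) + starRingEnd L ⟨a, b⟩) / 2 := by
        rw [eq_div_iff h2L]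
        have h4 : (2 : L) = algebraMap M L 2 := (map_ofNat _ 2).symm
        rw [h4]
        apply QuadraticAlgebra.ext
        · change a * 2 + algebraMap K M d * 0 * 0 = a + (a + 0 * b)
          ring
        · change a * 0 + 0 * 2 + 0 * 0 * 0 = b + - b
          ring
      rw [h3]
      exact div_mem (add_mem hU h1) (ofNat_mem U 2)
    · have h3 : algebraMap M L b = ((⟨a, b⟩ : L) - starRingEnd L ⟨a, b⟩) / (2 * s) := by
        rw [eq_div_iff (mul_ne_zero h2L hs0)]
        have h4 : (2 : L) = algebraMap M L 2 := (map_ofNat _ 2).symm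
        have h5 : (2 * s : L) = ⟨0, 2⟩ := by
          rw [h4, hs]
          apply QuadraticAlgebra.ext
          · change (2 : M) * 0 + algebraMap K M d * 0 * 1 = 0
            ring
          · change (2 : M) * 1 + 0 * 0 + 0 * 0 * 1 = 2
            ring
        rw [h5]
        apply QuadraticAlgebra.ext
        · change b * 0 + algebraMap K M d * 0 * 2 = a - (a + 0 * b)
          ring
        · change b * 2 + 0 * 0 + 0 * 0 * 2 = b - (-b)
          ring
      rw [h3]
      exact div_mem (sub_mem hU h1) (mul_mem (ofNat_mem U 2) (U.algebraMap_mem _))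
  -- the field generated by a point
  have hmem2 : ∀ (U : IntermediateField K' L) (a b : M), algebraMap M L a ∈ U →
      algebraMap M L b ∈ U → ∀ z ∈ adjoin K ({a, b} : Set M), algebraMap M L z ∈ U := by
    intro U a b ha hb z hz
    let W : Subfield M := U.toSubfield.comap (algebraMap M L)
    have h1 : Subfield.closure (Set.range (algebraMap K M) ∪ {a, b}) ≤ W := by
      rw [Subfield.closure_le]
      rintro w (⟨r, rfl⟩ | (rfl | rfl))
      · change algebraMap M L (algebraMap K M r) ∈ U
        rw [← IsScalarTower.algebraMap_apply K M L, IsScalarTower.algebraMap_apply K K' L]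
        exact U.algebraMap_mem _
      · exact ha
      · exact hb
    exact h1 hz
  have hdec : ∀ z : L, z = algebraMap M L z.re + algebraMap M L z.im * s := by
    intro z
    rw [hs]
    apply QuadraticAlgebra.ext
    · change z.re = z.re + (z.im * 0 + algebraMap K M d * 0 * 1)
      ring
    · change z.im = 0 + (z.im * 1 + 0 * 0 + 0 * 0 * 1)
      ring
  set t : L := ⟨x, y⟩ with ht
  have hgen' : K'⟮t⟯ = ⊤ := by
    rw [eq_top_iff]
    intro z _
    obtain ⟨h1, h2⟩ := hmem1 K'⟮t⟯ x y hxy (mem_adjoin_simple_self K' t)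
    have h3 : ∀ w : M, algebraMap M L w ∈ K'⟮t⟯ := by
      intro w
      apply hmem2 K'⟮t⟯ x y h1 h2
      rw [hgen]
      trivial
    rw [hdec z]
    exact add_mem (h3 _) (mul_mem (h3 _) (K'⟮t⟯.algebraMap_mem s'))
  have htr : Transcendental K' t := by
    intro h
    apply hna
    have h1 : Algebra.IsAlgebraic K' K'⟮t⟯ := isAlgebraic_adjoin_simple h.isIntegral
    rw [hgen'] at h1
    have h2 : Algebra.IsAlgebraic K' L := (topEquiv (F := K') (E := L)).isAlgebraic
    have h3 : Algebra.IsAlgebraic K L := Algebra.IsAlgebraic.trans K K' L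
    exact Algebra.IsAlgebraic.of_injective (IsScalarTower.toAlgHom K M L)
      (algebraMap M L).injective
  refine ⟨?_, ?_⟩
  · intro z hz
    have h1 : IsAlgebraic K (algebraMap M L z) := hz.algebraMap
    have h2 : IsAlgebraic K' (algebraMap M L z) := h1.tower_top K'
    obtain ⟨a, ha⟩ := alg_const' htr hgen' _ h2
    exact ⟨a.re, congrArg QuadraticAlgebra.re ha⟩
  · intro x' y' hxy'
    set T : L := ⟨x', y'⟩ with hTdef
    have hTc := hnorm x' y' hxy'
    have hT : ¬ ∃ a, T = algebraMap K' L a := by
      rintro ⟨a, ha⟩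
      have h1 : x' = algebraMap K M a.re := congrArg QuadraticAlgebra.re ha
      have h2 : y' = algebraMap K M a.im := congrArg QuadraticAlgebra.im ha
      have h3 : a.re ^ 2 - d * a.im ^ 2 = c * 1 ^ 2 := by
        apply (algebraMap K M).injective
        rw [map_sub, map_mul, map_mul, map_pow, map_pow, ← h1, ← h2, hxy']
        simp
      exact one_ne_zero (han _ _ _ h3).2.2
    obtain ⟨hm0, u, hu⟩ := core hσσ hσ0 hc' htr hgen' (hnorm x y hxy) T hT hTc
    set m := finrank K'⟮T⟯ L with hm
    have hodd : Odd m := by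
      rw [← Nat.not_even_iff_odd]
      rintro ⟨r, hr⟩
      obtain ⟨r', rfl⟩ : ∃ r', r = r' + 1 := ⟨r - 1, by omega⟩
      rw [hr] at hu
      have hσc : starRingEnd K' c' = c' := by
        apply QuadraticAlgebra.ext
        · change c + 0 * 0 = c
          ring
        · change -(0 : K) = 0
          ring
      set w : K' := u / c' ^ r' with hw
      have h1 : w * starRingEnd K' w = c' := by
        rw [hw, map_div₀, map_pow, hσc, div_mul_div_comm,
          div_eq_iff (mul_ne_zero (pow_ne_zero _ hc') (pow_ne_zero _ hc'))]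
        apply mul_right_cancel₀ hc'
        rw [hu]
        ring
      have h2 : w.re ^ 2 - d * w.im ^ 2 = c * 1 ^ 2 := by
        have h3 := congrArg QuadraticAlgebra.re h1
        change w.re * (w.re + 0 * w.im) + d * w.im * (-w.im) = c at h3
        linear_combination h3
      exact one_ne_zero (han _ _ _ h2).2.2
    let N := adjoin K ({x', y'} : Set M)
    have e1 : finrank N M * finrank M L = finrank N L := finrank_mul_finrank N M L
    have e2 : finrank N N⟮s⟯ * finrank N⟮s⟯ L = finrank N L := finrank_mul_finrank N N⟮s⟯ L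
    have e3 : finrank M L = 2 := QuadraticAlgebra.finrank_eq_two _ _
    have e4 : finrank N⟮s⟯ L = m := by
      rw [hm]
      apply finrank_eq_of_mem
      obtain ⟨k1, k2⟩ := hmem1 K'⟮T⟯ x' y' hxy' (mem_adjoin_simple_self K' T)
      intro z
      constructor
      · intro hz
        have h1 : Subfield.closure (Set.range (algebraMap N L) ∪ {s}) ≤ K'⟮T⟯.toSubfield := by
          rw [Subfield.closure_le]
          rintro w (⟨n, rfl⟩ | rfl)
          · exact hmem2 K'⟮T⟯ x' y' k1 k2 n.1 n.2
          · exact K'⟮T⟯.algebraMap_mem s'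
        exact h1 hz
      · intro hz
        have g1 : ∀ n : N, algebraMap M L n.1 ∈ N⟮s⟯ := fun n => N⟮s⟯.algebraMap_mem n
        have g2 : s ∈ N⟮s⟯ := mem_adjoin_simple_self N s
        have h1 : Subfield.closure (Set.range (algebraMap K' L) ∪ {T}) ≤ N⟮s⟯.toSubfield := by
          rw [Subfield.closure_le]
          rintro w (⟨n, rfl⟩ | rfl)
          · change algebraMap K' L n ∈ N⟮s⟯
            rw [hdec (algebraMap K' L n)]
            exact add_mem (g1 (algebraMap K N n.re)) (mul_mem (g1 (algebraMap K N n.im)) g2)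
          · change T ∈ N⟮s⟯
            rw [hdec T]
            exact add_mem (g1 ⟨x', subset_adjoin _ _ (by simp)⟩)
              (mul_mem (g1 ⟨y', subset_adjoin _ _ (by simp)⟩) g2)
        exact h1 hz
    have e5 : finrank N N⟮s⟯ = 2 := by
      have hss : s ^ 2 = algebraMap N L (algebraMap K N d) := by
        rw [hs]
        apply QuadraticAlgebra.ext
        · rw [pow_two]
          change (0 : M) * 0 + algebraMap K M d * 1 * 1 = algebraMap K M d
          ring
        · rw [pow_two]
          change (0 : M) * 1 + 1 * 0 + 0 * 1 * 1 = 0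
          ring
      have hirr : Irreducible (X ^ 2 - C (algebraMap K N d) : N[X]) := by
        apply X_pow_sub_C_irreducible_of_prime Nat.prime_two
        intro b hb
        apply hdM b.1
        exact congrArg Subtype.val hb
      have hroot : aeval s (X ^ 2 - C (algebraMap K N d) : N[X]) = 0 := by
        rw [map_sub, map_pow, aeval_X, aeval_C, hss, sub_self]
      have hmon : (X ^ 2 - C (algebraMap K N d) : N[X]).Monic :=
        monic_X_pow_sub_C _ (by norm_num)
      have hint : IsIntegral N s := ⟨_, hmon, by rwa [← aeval_def]⟩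
      rw [adjoin.finrank hint, ← minpoly.eq_of_irreducible_of_monic hirr hroot hmon,
        natDegree_X_pow_sub_C]
    rw [e3] at e1
    rw [e4, e5, ← e1] at e2
    have e6 : finrank N M = m := by omega
    rw [e6]
    exact hodd

end

end Pool.Agent.H44T.CF
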