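import Mathlib
import Pool.Agent.Y201.C3.Stm
import Pool.Agent.H44T.CF.Con3

/-! # Function fields of conics: job CONIC -/

set_option autoImplicit false

namespace Pool.Agent.H44T.CF

open IntermediateField Module Pool.Agent.Y201.C3

noncomputable section

variable {K M : Type} [Field K] [Field M] [Algebra K M]

/-- the field generated by the ratios of the coordinates -/
def rf (K : Type) {M : Type} [Field K] [Field M] [Algebra K M] (u : Fin 3 → M) :
    IntermediateField K M := adjoin K {z : M | ∃ i j, z = u i / u j}

theorem rf_le (P : Fin 3 → Fin 3 → K) (u w : Fin 3 → M)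
    (hw : ∀ i, w i = ∑ j, algebraMap K M (P i j) * u j) (hu : ∃ b, u b ≠ 0) :
    rf K w ≤ rf K u := by
  obtain ⟨b, hb⟩ := hu
  have h1 : ∀ i, w i / u b ∈ rf K u := by
    intro i
    rw [hw, Finset.sum_div]
    refine sum_mem fun j _ => ?_
    rw [mul_div_assoc]
    exact mul_mem ((rf K u).algebraMap_mem _) (subset_adjoin _ _ ⟨j, b, rfl⟩)
  unfold rf
  rw [adjoin_le_iff]
  rintro _ ⟨i, j, rfl⟩
  have h2 : w i / w j = (w i / u b) / (w j / u b) := (div_div_div_cancel_right₀ hb _ _).symm
  rw [h2]
  exact div_mem (h1 i) (h1 j)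

theorem rf_pair (x y z : M) (hz : z ≠ 0) :
    rf K ![x, y, z] = adjoin K ({x / z, y / z} : Set M) := by
  apply le_antisymm
  · have h1 : ∀ i : Fin 3, (![x, y, z] : Fin 3 → M) i / z ∈ adjoin K ({x / z, y / z} : Set M) := by
      intro i
      fin_cases i
      · exact subset_adjoin _ _ (by simp)
      · exact subset_adjoin _ _ (by simp)
      · change z / z ∈ _
        rw [div_self hz]
        exact one_mem _
    unfold rf
    rw [adjoin_le_iff]
    rintro _ ⟨i, j, rfl⟩
    have h2 : (![x, y, z] : Fin 3 → M) i / (![x, y, z] : Fin 3 → M) j =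
        ((![x, y, z] : Fin 3 → M) i / z) / ((![x, y, z] : Fin 3 → M) j / z) :=
      (div_div_div_cancel_right₀ hz _ _).symm
    rw [h2]
    exact div_mem (h1 i) (h1 j)
  · rw [adjoin_le_iff]
    rintro w (rfl | rfl)
    · exact subset_adjoin _ _ ⟨0, 2, rfl⟩
    · exact subset_adjoin _ _ ⟨1, 2, rfl⟩

theorem conic : S_CONIC := by
  intro K M _ _ _ _ A hA han hna v hv hgen
  classical
  have s10 : A 1 0 = A 0 1 := hA.apply 0 1
  have s20 : A 2 0 = A 0 2 := hA.apply 0 2
  have s21 : A 2 1 = A 1 2 := hA.apply 1 2
  set a := A 0 0 with ha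
  set b := A 0 1 with hb
  set g := A 0 2 with hg
  set e := A 1 1 with he
  set f := A 1 2 with hf
  set h := A 2 2 with hh
  have hQ : ∀ (R : Type) [CommRing R] [Algebra K R] (w : Fin 3 → R),
      ∑ i, ∑ j, w i * algebraMap K R (A i j) * w j =
        algebraMap K R a * w 0 ^ 2 + algebraMap K R e * w 1 ^ 2 + algebraMap K R h * w 2 ^ 2 +
        2 * algebraMap K R b * w 0 * w 1 + 2 * algebraMap K R g * w 0 * w 2 +
        2 * algebraMap K R f * w 1 * w 2 := by
    intro R _ _ w
    simp only [Fin.sum_univ_three]
    rw [s10, s20, s21]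
    ring
  have hQK : ∀ w : Fin 3 → K, a * w 0 ^ 2 + e * w 1 ^ 2 + h * w 2 ^ 2 + 2 * b * w 0 * w 1 +
      2 * g * w 0 * w 2 + 2 * f * w 1 * w 2 = 0 → w = 0 := by
    intro w hw
    apply han w
    have h1 := hQ K w
    simp only [Algebra.algebraMap_self, RingHom.id_apply] at h1
    rw [h1, hw]
  have ha0 : a ≠ 0 := by
    intro h0
    have h1 := hQK ![1, 0, 0] (by simp [h0])
    exact one_ne_zero (congrFun h1 0)
  set D := a * e - b ^ 2 with hD
  have hD0 : D ≠ 0 := by
    intro h0
    have h1 := hQK ![-b, a, 0] (by
      change a * (-b) ^ 2 + e * a ^ 2 + h * 0 ^ 2 + 2 * b * (-b) * a +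
        2 * g * (-b) * 0 + 2 * f * a * 0 = 0
      linear_combination a * h0)
    exact ha0 (congrFun h1 1)
  set E' := a * f - b * g with hE
  set G := a * h - g ^ 2 with hG
  set d := -D with hd
  set c := -(D * (D * G - E' ^ 2)) with hc
  have hanK : ∀ α β ε : K, α ^ 2 - d * β ^ 2 = c * ε ^ 2 → α = 0 ∧ β = 0 ∧ ε = 0 := by
    intro α β ε h1
    set w2 := ε with hw2
    set w1 := (β - E' * ε) / D with hw1
    set w0 := (α / D - b * w1 - g * w2) / a with hw0
    have k1 : β = D * w1 + E' * w2 := by
      rw [hw1]
      field_simp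
      ring
    have k0 : α = D * (a * w0 + b * w1 + g * w2) := by
      have h2 : a * w0 = α / D - b * w1 - g * w2 := by
        rw [hw0]
        field_simp
      have h3 : D * (α / D) = α := by
        field_simp
      linear_combination - h3 - D * h2
    have h4 : D ^ 2 * a * (a * w0 ^ 2 + e * w1 ^ 2 + h * w2 ^ 2 + 2 * b * w0 * w1 +
        2 * g * w0 * w2 + 2 * f * w1 * w2) = 0 := by
      rw [k0, k1] at h1
      rw [hd, hc, hE, hG] at h1
      have h5 : D ^ 2 * a * (a * w0 ^ 2 + e * w1 ^ 2 + h * w2 ^ 2 + 2 * b * w0 * w1 +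
        2 * g * w0 * w2 + 2 * f * w1 * w2) = (D * (a * w0 + b * w1 + g * w2)) ^ 2 -
          -D * (D * w1 + (a * f - b * g) * w2) ^ 2 -
          -(D * (D * (a * h - g ^ 2) - (a * f - b * g) ^ 2)) * w2 ^ 2 := by
        rw [hD]
        ring
      rw [h5]
      linear_combination h1
    have h5 := (mul_eq_zero.1 h4).resolve_left (mul_ne_zero (pow_ne_zero 2 hD0) ha0)
    have h6 := hQK ![w0, w1, w2] h5
    have e0 : w0 = 0 := congrFun h6 0
    have e1 : w1 = 0 := congrFun h6 1
    have e2 : w2 = 0 := congrFun h6 2
    refine ⟨?_, ?_, e2⟩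
    · rw [k0, e0, e1, e2]
      ring
    · rw [k1, e1, e2]
      ring
  have hdK : ∀ r : K, r ^ 2 ≠ d := by
    intro r hr
    exact one_ne_zero (hanK r 1 0 (by rw [hr]; ring)).2.1
  have aM : algebraMap K M a ≠ 0 := (_root_.map_ne_zero _).2 ha0
  have DM : algebraMap K M D ≠ 0 := (_root_.map_ne_zero _).2 hD0
  -- new coordinates
  let cx : (Fin 3 → M) → M := fun w => algebraMap K M D * (algebraMap K M a * w 0 +
    algebraMap K M b * w 1 + algebraMap K M g * w 2)
  let cy : (Fin 3 → M) → M := fun w => algebraMap K M D * w 1 + algebraMap K M E' * w 2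
  have hcoord : ∀ w : Fin 3 → M, ∑ i, ∑ j, w i * algebraMap K M (A i j) * w j = 0 →
      cx w ^ 2 - algebraMap K M d * cy w ^ 2 = algebraMap K M c * w 2 ^ 2 := by
    intro w hw
    rw [hQ] at hw
    have h5 : algebraMap K M D ^ 2 * algebraMap K M a * (algebraMap K M a * w 0 ^ 2 +
        algebraMap K M e * w 1 ^ 2 + algebraMap K M h * w 2 ^ 2 +
        2 * algebraMap K M b * w 0 * w 1 + 2 * algebraMap K M g * w 0 * w 2 +
        2 * algebraMap K M f * w 1 * w 2) =
        cx w ^ 2 - algebraMap K M d * cy w ^ 2 - algebraMap K M c * w 2 ^ 2 := by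
      simp only [cx, cy]
      rw [hd, hc, hE, hG, hD]
      simp only [map_neg, map_mul, map_sub, map_pow]
      ring
    rw [hw, mul_zero] at h5
    linear_combination - h5
  have hrf : ∀ w : Fin 3 → M, w ≠ 0 → rf K w = rf K ![cx w, cy w, w 2] := by
    intro w hw0
    obtain ⟨i0, hi0⟩ : ∃ i, w i ≠ 0 := by
      by_contra hcon
      push Not at hcon
      exact hw0 (funext hcon)
    have hback1 : w 1 = algebraMap K M (1 / D) * cy w + algebraMap K M (-E' / D) * w 2 := by
      simp only [cy]
      rw [map_div₀, map_div₀, map_one, map_neg]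
      field_simp
      ring
    have hback0 : w 0 = algebraMap K M (1 / (a * D)) * cx w +
        algebraMap K M (-b / (a * D)) * cy w +
        algebraMap K M ((b * E' - g * D) / (a * D)) * w 2 := by
      simp only [cx, cy]
      simp only [map_div₀, map_one, map_neg, map_mul, map_sub]
      field_simp
      ring
    apply le_antisymm
    · apply rf_le ![![1 / (a * D), -b / (a * D), (b * E' - g * D) / (a * D)],
        ![0, 1 / D, -E' / D], ![0, 0, 1]]
      · intro i
        fin_cases i
        · rw [Fin.sum_univ_three]
          exact hback0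
        · rw [Fin.sum_univ_three]
          change w 1 = algebraMap K M 0 * cx w + algebraMap K M (1 / D) * cy w +
            algebraMap K M (-E' / D) * w 2
          rw [map_zero, zero_mul, zero_add]
          exact hback1
        · rw [Fin.sum_univ_three]
          change w 2 = algebraMap K M 0 * cx w + algebraMap K M 0 * cy w +
            algebraMap K M 1 * w 2
          rw [map_zero, map_one]
          ring
      · by_contra hcon
        push Not at hcon
        have c0 : cx w = 0 := hcon 0
        have c1 : cy w = 0 := hcon 1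
        have c2 : w 2 = 0 := hcon 2
        rw [c0, c1, c2] at hback0
        rw [c1, c2] at hback1
        apply hi0
        fin_cases i0
        · change w 0 = 0
          rw [hback0]
          ring
        · change w 1 = 0
          rw [hback1]
          ring
        · exact c2
    · apply rf_le ![![D * a, D * b, D * g], ![0, D, E'], ![0, 0, 1]]
      · intro i
        fin_cases i
        · rw [Fin.sum_univ_three]
          change cx w = algebraMap K M (D * a) * w 0 + algebraMap K M (D * b) * w 1 +
            algebraMap K M (D * g) * w 2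
          simp only [cx, map_mul]
          ring
        · rw [Fin.sum_univ_three]
          change cy w = algebraMap K M 0 * w 0 + algebraMap K M D * w 1 +
            algebraMap K M E' * w 2
          simp only [cy, map_zero]
          ring
        · rw [Fin.sum_univ_three]
          change w 2 = algebraMap K M 0 * w 0 + algebraMap K M 0 * w 1 +
            algebraMap K M 1 * w 2
          rw [map_zero, map_one]
          ring
      · exact ⟨i0, hi0⟩
  -- the given point
  have hgen' : rf K v = ⊤ := hgen
  have hv0 : v ≠ 0 := by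
    rintro rfl
    apply hna
    have h1 : rf K (0 : Fin 3 → M) = ⊥ := by
      rw [eq_bot_iff]
      unfold rf
      rw [adjoin_le_iff]
      rintro _ ⟨i, j, rfl⟩
      simp
    rw [hgen'] at h1
    have h2 : Algebra.IsAlgebraic K (⊥ : IntermediateField K M) := inferInstance
    rw [← h1] at h2
    exact (topEquiv (F := K) (E := M)).isAlgebraic
  have hsq := hcoord v hv
  have hv2 : v 2 ≠ 0 := by
    intro h2
    apply hna
    have h3 := hrf v hv0
    rw [h2] at hsq h3
    have h4 : cx v ^ 2 = algebraMap K M d * cy v ^ 2 := by linear_combination hsq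
    have hr : IsIntegral K (cx v / cy v) := by
      by_cases hy : cy v = 0
      · rw [hy, div_zero]
        exact isIntegral_zero
      · refine IsIntegral.of_pow (n := 2) (by norm_num) ?_
        rw [div_pow, h4, mul_div_assoc, div_self (pow_ne_zero 2 hy), mul_one]
        exact isIntegral_algebraMap
    have h5 : Algebra.IsAlgebraic K (rf K ![cx v, cy v, 0]) := by
      unfold rf
      apply isAlgebraic_adjoin
      rintro _ ⟨i, j, rfl⟩
      have hone : ∀ z : M, IsIntegral K (z / z) := by
        intro z
        by_cases hz : z = 0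
        · rw [hz, div_zero]
          exact isIntegral_zero
        · rw [div_self hz]
          exact isIntegral_one
      fin_cases i <;> fin_cases j
      · exact hone _
      · exact hr
      · change IsIntegral K (cx v / 0)
        rw [div_zero]
        exact isIntegral_zero
      · change IsIntegral K (cy v / cx v)
        rw [← inv_div]
        exact isAlgebraic_iff_isIntegral.1 (isAlgebraic_iff_isIntegral.2 hr).inv
      · exact hone _
      · change IsIntegral K (cy v / 0)
        rw [div_zero]
        exact isIntegral_zero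
      · change IsIntegral K (0 / cx v)
        rw [zero_div]
        exact isIntegral_zero
      · change IsIntegral K (0 / cy v)
        rw [zero_div]
        exact isIntegral_zero
      · exact hone _
    rw [← h3, hgen'] at h5
    exact (topEquiv (F := K) (E := M)).isAlgebraic
  have hxy : (cx v / v 2) ^ 2 - algebraMap K M d * (cy v / v 2) ^ 2 = algebraMap K M c := by
    rw [div_pow, div_pow]
    field_simp
    linear_combination hsq
  have hg2 : adjoin K ({cx v / v 2, cy v / v 2} : Set M) = ⊤ := by
    rw [← rf_pair _ _ _ hv2, ← hrf v hv0]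
    exact hgen'
  obtain ⟨r1, r2⟩ := conic_nf hanK hxy hg2 hna
  refine ⟨r1, ?_⟩
  intro v' hv'0 hv'
  have hsq' := hcoord v' hv'
  have hv'2 : v' 2 ≠ 0 := by
    intro h2
    rw [h2] at hsq'
    have h4 : cx v' ^ 2 = algebraMap K M d * cy v' ^ 2 := by linear_combination hsq'
    by_cases hy : cy v' = 0
    · rw [hy] at h4
      have hx : cx v' = 0 := by
        have : cx v' ^ 2 = 0 := by rw [h4]; ring
        exact pow_eq_zero_iff (two_ne_zero) |>.1 this
      apply hv'0
      have h1 : v' 1 = 0 := by
        simp only [cy, h2, mul_zero, add_zero] at hy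
        exact (mul_eq_zero.1 hy).resolve_left DM
      have h0 : v' 0 = 0 := by
        simp only [cx, h2, h1, mul_zero, add_zero] at hx
        exact (mul_eq_zero.1 ((mul_eq_zero.1 hx).resolve_left DM)).resolve_left aM
      funext i
      fin_cases i
      · exact h0
      · exact h1
      · exact h2
    · have h5 : (cx v' / cy v') ^ 2 = algebraMap K M d := by
        rw [div_pow, h4, mul_div_assoc, div_self (pow_ne_zero 2 hy), mul_one]
      have h6 : IsAlgebraic K (cx v' / cy v') := by
        refine isAlgebraic_iff_isIntegral.2 (IsIntegral.of_pow (n := 2) (by norm_num) ?_)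
        rw [h5]
        exact isIntegral_algebraMap
      obtain ⟨r, hr⟩ := r1 _ h6
      apply hdK r
      apply (algebraMap K M).injective
      rw [map_pow, ← hr, h5]
  have hxy' : (cx v' / v' 2) ^ 2 - algebraMap K M d * (cy v' / v' 2) ^ 2 =
      algebraMap K M c := by
    rw [div_pow, div_pow]
    field_simp
    linear_combination hsq'
  have h7 := r2 _ _ hxy'
  rw [← rf_pair _ _ _ hv'2, ← hrf v' hv'0] at h7
  exact h7

end

end Pool.Agent.H44T.CF
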