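import Mathlib
import Pool.Agent.TH314.PD.Core2
import Pool.Agent.Y201.LI.Stm2

/-! # The inverse of a birational parametrization: job INV -/

set_option autoImplicit false

namespace Pool.Agent.H44T.CF

open MvPolynomial Pool.Agent.TH314.PD Pool.Agent.Y201.C3 Pool.Agent.Y201.LI

noncomputable section

/-- the elements of the field generated by the ratios are quotients of forms -/
theorem ratio_forms {M : Type} [Field M] [Algebra ℂ M] {m : ℕ} (y : Fin m → M) {z : M}
    (hz : z ∈ ratioField y) : ∃ (e : ℕ) (P Q : MvPolynomial (Fin m) ℂ), P.IsHomogeneous e ∧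
      Q.IsHomogeneous e ∧ aeval y Q ≠ 0 ∧ z = aeval y P / aeval y Q := by
  unfold ratioField at hz
  induction hz using IntermediateField.adjoin_induction with
  | mem x hx =>
    obtain ⟨i, j, rfl⟩ := hx
    by_cases hj : y j = 0
    · refine ⟨0, 0, 1, isHomogeneous_zero _ _ _, isHomogeneous_one _ _, ?_, ?_⟩
      · rw [map_one]
        exact one_ne_zero
      · rw [hj, div_zero, map_zero, zero_div]
    · refine ⟨1, X i, X j, isHomogeneous_X _ _, isHomogeneous_X _ _, ?_, ?_⟩
      · rw [aeval_X]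
        exact hj
      · rw [aeval_X, aeval_X]
  | algebraMap x =>
    refine ⟨0, C x, 1, isHomogeneous_C _ _, isHomogeneous_one _ _, ?_, ?_⟩
    · rw [map_one]
      exact one_ne_zero
    · rw [map_one, div_one, aeval_C]
  | add x y' _ _ h1 h2 =>
    obtain ⟨e, P, Q, hP, hQ, hQ0, rfl⟩ := h1
    obtain ⟨e', P', Q', hP', hQ', hQ0', rfl⟩ := h2
    refine ⟨e + e', P * Q' + Q * P', Q * Q', (hP.mul hQ').add (hQ.mul hP'), hQ.mul hQ', ?_, ?_⟩
    · rw [map_mul]
      exact mul_ne_zero hQ0 hQ0'
    · rw [map_add, map_mul, map_mul, map_mul]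
      field_simp
  | inv x _ h1 =>
    obtain ⟨e, P, Q, hP, hQ, hQ0, rfl⟩ := h1
    by_cases hP0 : aeval y P = 0
    · refine ⟨0, 0, 1, isHomogeneous_zero _ _ _, isHomogeneous_one _ _, ?_, ?_⟩
      · rw [map_one]
        exact one_ne_zero
      · rw [hP0, zero_div, inv_zero, map_zero, zero_div]
    · exact ⟨e, Q, P, hQ, hP, hP0, by rw [inv_div]⟩
  | mul x y' _ _ h1 h2 =>
    obtain ⟨e, P, Q, hP, hQ, hQ0, rfl⟩ := h1
    obtain ⟨e', P', Q', hP', hQ', hQ0', rfl⟩ := h2
    refine ⟨e + e', P * P', Q * Q', hP.mul hP', hQ.mul hQ', ?_, ?_⟩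
    · rw [map_mul]
      exact mul_ne_zero hQ0 hQ0'
    · rw [map_mul, map_mul, div_mul_div_comm]

theorem inv : S_INV := by
  classical
  intro F hF hF0 M _ _ s hs G hG hFG hforms hrat
  set y : Fin 6 → M := fun l => aeval s (G l) with hy
  have hs0 : s 0 ≠ 0 := by
    intro h
    have := hs 1 (X 0) (isHomogeneous_X _ _) (by rw [aeval_X, h])
    exact X_ne_zero _ this
  choose e P Q hP hQ hQ0 hPQ using fun i => ratio_forms y (hrat i 0)
  set m := ∑ i, e i with hm
  set D : MvPolynomial (Fin 6) ℂ := ∏ i, Q i with hD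
  set H : Fin 5 → MvPolynomial (Fin 6) ℂ := fun i => P i * ∏ j ∈ Finset.univ.erase i, Q j with hH
  have hHm : ∀ i, (H i).IsHomogeneous m := by
    intro i
    have h1 : (∏ j ∈ Finset.univ.erase i, Q j).IsHomogeneous (∑ j ∈ Finset.univ.erase i, e j) :=
      IsHomogeneous.prod _ _ _ fun j _ => hQ j
    have h2 := (hP i).mul h1
    rwa [Finset.add_sum_erase _ _ (Finset.mem_univ i)] at h2
  have hD0 : aeval y D ≠ 0 := by
    rw [hD, map_prod]
    exact Finset.prod_ne_zero_iff.2 fun i _ => hQ0 i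
  set lam : M := aeval y D / s 0 with hlam
  have hlam0 : lam ≠ 0 := div_ne_zero hD0 hs0
  have hHy : ∀ i, aeval y (H i) = lam * s i := by
    intro i
    have h1 : aeval y D = aeval y (Q i) * aeval y (∏ j ∈ Finset.univ.erase i, Q j) := by
      rw [← map_mul, hD, Finset.mul_prod_erase _ _ (Finset.mem_univ i)]
    have h2 := hPQ i
    rw [hH]
    simp only
    rw [map_mul, hlam, h1]
    have h3 : aeval y (P i) = s i / s 0 * aeval y (Q i) := by
      rw [h2, div_mul_cancel₀ _ (hQ0 i)]
    rw [h3]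
    field_simp
  have hGH : ∀ i, aeval y (aeval H (G i)) = lam ^ 3 * y i := by
    intro i
    have h1 : aeval y (aeval H (G i)) = aeval (fun l => aeval y (H l)) (G i) := by
      have h2 : (aeval y).comp (aeval H) =
          (aeval (fun l => aeval y (H l)) : MvPolynomial (Fin 5) ℂ →ₐ[ℂ] M) := by
        apply algHom_ext
        intro i
        rw [AlgHom.comp_apply, aeval_X, aeval_X]
      rw [← h2]
      rfl
    rw [h1]
    have h3 : (fun l => aeval y (H l)) = fun l => lam * s l := funext hHy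
    rw [h3, aeval_smul_form (hG i)]
  refine ⟨m, H, hHm, fun i j => ?_, ?_⟩
  · refine hforms (m * 3 + 1) _ ?_ ?_
    · exact (((hG i).aeval H hHm).mul (isHomogeneous_X ℂ j)).sub
        (((hG j).aeval H hHm).mul (isHomogeneous_X ℂ i))
    · change aeval y _ = 0
      rw [map_sub, map_mul, map_mul, aeval_X, aeval_X, hGH, hGH]
      ring
  · by_contra hcon
    push Not at hcon
    have hFy : aeval y F = 0 := by
      have h2 : (aeval s).comp (aeval G) =
          (aeval y : MvPolynomial (Fin 6) ℂ →ₐ[ℂ] M) := by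
        apply algHom_ext
        intro i
        rw [AlgHom.comp_apply, aeval_X, aeval_X]
      rw [← h2, AlgHom.comp_apply, hFG, map_zero]
    have hy0 : ∀ i, y i = 0 := by
      intro i
      obtain ⟨E, hE⟩ := hcon i
      have h1 := hGH i
      rw [hE, map_mul, hFy, zero_mul] at h1
      exact (mul_eq_zero.1 h1.symm).resolve_left (pow_ne_zero _ hlam0)
    have h1 := hforms 1 (X 0) (isHomogeneous_X _ _) (by
      change aeval y _ = 0
      rw [aeval_X, hy0])
    exact X_ne_zero _ (eq_zero_of_dvd hF hF0 (isHomogeneous_X ℂ (0 : Fin 6)) (by norm_num) h1)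

end

end Pool.Agent.H44T.CF
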