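import Mathlib
import Pool.Agent.Y201.LI.Free
import Pool.Agent.Y201.LI.Thm3
import Pool.Agent.Y246.C3.Cb
import Pool.Agent.H44T.CF.Avoid2
import Pool.Agent.H44T.CF.Inv
import Pool.Agent.H44T.CF.Con4

/-! # A smooth cubic fourfold has no parametrization of degree at most three -/

set_option autoImplicit false

namespace Pool.Agent.H44T.CF

open MvPolynomial Pool.Agent.Y201.C3 Pool.Agent.Y201.LI

noncomputable section

theorem smoothT_of {T : Fin 6 → Fin 6 → Fin 6 → ℂ} (hT : SymT T)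
    (hsm : ∀ z : Fin 6 → ℂ, (∀ i, eval z (pderiv i (frm T)) = 0) → z = 0) : SmoothT T := by
  intro z hz
  apply hsm
  intro i
  have h1 := pderiv_frmG hT i z (R := ℂ)
  have h2 := smooth_iff (T := T) z i
  rw [hz i] at h2
  rw [← ev_ae]
  change aeval z (pderiv i (Bg T X X X)) = 0
  rw [h1, ← Bf_eq, ← h2, mul_zero]

theorem no_param (F : MvPolynomial (Fin 6) ℂ) (hF : F.IsHomogeneous 3)
    (hsm : ∀ z : Fin 6 → ℂ, (∀ i, eval z (pderiv i F) = 0) → z = 0)
    (N : ℕ) (G : Fin 6 → MvPolynomial (Fin N) ℂ) (hdeg : ∀ i, (G i).totalDegree ≤ 3)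
    (hdom : aeval G F = 0 ∧ ∀ (e : ℕ) (H : MvPolynomial (Fin 6) ℂ), H.IsHomogeneous e →
      aeval G H = 0 → F ∣ H) : False := by
  obtain ⟨T, hT, rfl⟩ := exists_tri F hF
  have hS : SmoothT T := smoothT_of hT hsm
  exact no_cubic (Pool.Agent.Y246.C3.cb conic) ani2 avoid arc inv hT1 hT hS hsm N G hdeg hdom

end

end Pool.Agent.H44T.CF
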