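import Mathlib
import Pool.Agent.H44T.CF.Fin

/-! # Cubic fourfolds with two disjoint planes have a birational parametrization of degree four -/

set_option autoImplicit false

namespace Pool.Agent.H44T.CF

open MvPolynomial Pool.Agent.Y201.C3 Pool.Agent.Y201.LI Pool.Agent.TH314.PD

noncomputable section

/-- linear combinations of three vectors -/
def comb (p : Fin 3 → Fin 6 → ℂ) {R : Type} [CommRing R] [Algebra ℂ R] (a : Fin 3 → R) :
    Fin 6 → R := fun j => ∑ i, a i * algebraMap ℂ R (p i j)

section

variable {R R' : Type} [CommRing R] [Algebra ℂ R] [CommRing R'] [Algebra ℂ R']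

theorem map_comb (p : Fin 3 → Fin 6 → ℂ) (φ : R →ₐ[ℂ] R') (a : Fin 3 → R) :
    (fun j => φ (comb p a j)) = comb p (fun i => φ (a i)) := by
  funext j
  unfold comb
  simp only [map_sum, map_mul, AlgHom.commutes]

theorem comb_smul (p : Fin 3 → Fin 6 → ℂ) (s : R) (a : Fin 3 → R) :
    comb p (fun i => s * a i) = fun j => s * comb p a j := by
  funext j
  unfold comb
  rw [Finset.mul_sum]
  exact Finset.sum_congr rfl fun i _ => by ring

theorem comb_add (p : Fin 3 → Fin 6 → ℂ) (s : R) (a a' : Fin 3 → R) :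
    comb p (fun i => a i + s * a' i) = fun j => comb p a j + s * comb p a' j := by
  funext j
  unfold comb
  rw [Finset.mul_sum, ← Finset.sum_add_distrib]
  exact Finset.sum_congr rfl fun i _ => by ring

/-- the third intersection point of the line through `x` and `y` -/
def third (T : Fin 6 → Fin 6 → Fin 6 → ℂ) (x y : Fin 6 → R) : Fin 6 → R :=
  fun i => Bf T x y y * x i + (- Bf T x x y) * y i

theorem Bf_lin3 {T : Fin 6 → Fin 6 → Fin 6 → ℂ} (hT : SymT T) (x y : Fin 6 → R) (u w : R) :
    Bf T (fun i => u * x i + w * y i) (fun i => u * x i + w * y i) (fun i => u * x i + w * y i) =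
      u ^ 3 * Bf T x x x + 3 * u ^ 2 * w * Bf T x x y + 3 * u * w ^ 2 * Bf T x y y +
        w ^ 3 * Bf T y y y := by
  have e1 : Bf T x y x = Bf T x x y := sw23 hT x y x
  have e2 : Bf T y x x = Bf T x x y := by rw [sw12 hT, e1]
  have e3 : Bf T y x y = Bf T x y y := sw12 hT y x y
  have e4 : Bf T y y x = Bf T x y y := by rw [sw23 hT, e3]
  simp only [Bf_eq, Bg_add1, Bg_add2, Bg_add3, Bg_smul1, Bg_smul2, Bg_smul3]
  simp only [← Bf_eq]
  rw [e1, e2, e3, e4]
  ring

theorem Bf_third {T : Fin 6 → Fin 6 → Fin 6 → ℂ} (hT : SymT T) (x y : Fin 6 → R)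
    (hx : Bf T x x x = 0) (hy : Bf T y y y = 0) :
    Bf T (third T x y) (third T x y) (third T x y) = 0 := by
  unfold third
  rw [Bf_lin3 hT, hx, hy]
  ring

end

theorem comb_zero_of {T : Fin 6 → Fin 6 → Fin 6 → ℂ} (hT : SymT T) {p : Fin 3 → Fin 6 → ℂ}
    (hp : ∀ c : Fin 3 → ℂ, Bf T (comb p c) (comb p c) (comb p c) = 0) (c c' : Fin 3 → ℂ) :
    Bf T (comb p c) (comb p c) (comb p c') = 0 := by
  have h2 : (3 * Bf T (comb p c) (comb p c) (comb p c')) = 0 := by
    refine first_order (b := 3 * Bf T (comb p c) (comb p c') (comb p c'))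
      (c := Bf T (comb p c') (comb p c') (comb p c')) 0 fun s => ?_
    have h3 := frm_line hT (comb p c) (comb p c') s
    rw [← comb_add p s c c', eval_frm, hp] at h3
    rw [Polynomial.eval_zero, mul_zero]
    linear_combination - h3 - hp c
  exact (mul_eq_zero.1 h2).resolve_left (by norm_num)

/-- coordinates with respect to two complementary planes -/
theorem exists_coords {p q : Fin 3 → Fin 6 → ℂ} (hli : LinearIndependent ℂ (Sum.elim p q)) :
    ∃ L : Fin 3 ⊕ Fin 3 → MvPolynomial (Fin 6) ℂ, (∀ s, (L s).IsHomogeneous 1) ∧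
      (∀ a b : Fin 3 → ℂ, (∀ i, eval (fun j => comb p a j + comb q b j) (L (Sum.inl i)) = a i) ∧
        ∀ i, eval (fun j => comb p a j + comb q b j) (L (Sum.inr i)) = b i) ∧
      (∀ x : Fin 6 → ℂ, x = fun j => comb p (fun i => eval x (L (Sum.inl i))) j +
        comb q (fun i => eval x (L (Sum.inr i))) j) := by
  classical
  let b : Module.Basis (Fin 3 ⊕ Fin 3) ℂ (Fin 6 → ℂ) :=
    basisOfLinearIndependentOfCardEqFinrank hli (by simp)
  have hb : ∀ s, b s = Sum.elim p q s := fun s => by
    rw [coe_basisOfLinearIndependentOfCardEqFinrank]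
  let L : Fin 3 ⊕ Fin 3 → MvPolynomial (Fin 6) ℂ := fun s =>
    ∑ j, X j * C (b.repr (Pi.single j 1) s)
  have hL : ∀ (x : Fin 6 → ℂ) (s : Fin 3 ⊕ Fin 3), eval x (L s) = b.repr x s := by
    intro x s
    have h1 : x = ∑ j, x j • (Pi.single j (1 : ℂ) : Fin 6 → ℂ) := by
      funext i
      rw [Finset.sum_apply]
      simp [Pi.single_apply]
    conv_rhs => rw [h1]
    rw [map_sum, map_sum, Finsupp.finsetSum_apply]
    refine Finset.sum_congr rfl fun j _ => ?_
    rw [map_mul, eval_X, eval_C, map_smul, Finsupp.smul_apply, smul_eq_mul]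
  refine ⟨L, fun s => ?_, fun c d => ?_, fun x => ?_⟩
  · refine IsHomogeneous.sum _ _ _ fun j _ => ?_
    exact (isHomogeneous_X ℂ j).mul (isHomogeneous_C (Fin 6) _)
  · have h1 : (fun j => comb p c j + comb q d j) =
        ∑ s : Fin 3 ⊕ Fin 3, (Sum.elim c d s : ℂ) • b s := by
      funext j
      rw [Finset.sum_apply, Fintype.sum_sum_type]
      simp only [hb, Sum.elim_inl, Sum.elim_inr, Pi.smul_apply, smul_eq_mul]
      rfl
    have h2 : ∀ s, b.repr (∑ s : Fin 3 ⊕ Fin 3, (Sum.elim c d s : ℂ) • b s) s =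
        Sum.elim c d s := by
      intro s
      rw [b.repr_sum_self]
    constructor
    · intro i
      rw [hL, h1, h2]
      rfl
    · intro i
      rw [hL, h1, h2]
      rfl
  · have h1 := b.sum_repr x
    rw [Fintype.sum_sum_type] at h1
    simp only [hb, Sum.elim_inl, Sum.elim_inr] at h1
    funext j
    have h2 := congrFun h1 j
    simp only [Pi.add_apply, Finset.sum_apply, Pi.smul_apply, smul_eq_mul] at h2
    rw [← h2]
    unfold comb
    simp only [hL]
    rfl

/-- the parameters -/
def pa (R : Type) [CommRing R] (x y : R) : Fin 3 → R := ![1, x, y]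

theorem two_planes {T : Fin 6 → Fin 6 → Fin 6 → ℂ} (hT : SymT T) (hS : SmoothT T)
    {p q : Fin 3 → Fin 6 → ℂ} (hli : LinearIndependent ℂ (Sum.elim p q))
    (hp : ∀ c : Fin 3 → ℂ, Bf T (comb p c) (comb p c) (comb p c) = 0)
    (hq : ∀ c : Fin 3 → ℂ, Bf T (comb q c) (comb q c) (comb q c) = 0) :
    ∃ G : Fin 6 → MvPolynomial (Fin 4) ℂ, (∀ i, (G i).totalDegree ≤ 4) ∧
      (aeval G (frm T) = 0 ∧ ∀ (e : ℕ) (H : MvPolynomial (Fin 6) ℂ), H.IsHomogeneous e →
        aeval G H = 0 → frm T ∣ H) ∧
      ratioField (fun i => algebraMap (MvPolynomial (Fin 4) ℂ)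
        (FractionRing (MvPolynomial (Fin 4) ℂ)) (G i)) = ⊤ := by
  classical
  obtain ⟨L, hLh, hLc, hLx⟩ := exists_coords hli
  have hF0 := frm_ne hT hS
  have hp0 : comb p (fun i => if i = 0 then (1 : ℂ) else 0) ≠ 0 := by
    intro h
    have h1 := hLc (fun i => if i = 0 then (1 : ℂ) else 0) (fun _ => 0)
    have h2 := h1.1 0
    have h3 : (fun j => comb p (fun i => if i = 0 then (1 : ℂ) else 0) j +
        comb q (fun _ => (0 : ℂ)) j) = 0 := by
      funext j
      rw [h]
      simp [comb]
    rw [h3, eval_lin (hLh _)] at h2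
    simp at h2
  have hq0 : comb q (fun i => if i = 0 then (1 : ℂ) else 0) ≠ 0 := by
    intro h
    have h1 := hLc (fun _ => 0) (fun i => if i = 0 then (1 : ℂ) else 0)
    have h2 := h1.2 0
    have h3 : (fun j => comb p (fun _ => (0 : ℂ)) j +
        comb q (fun i => if i = 0 then (1 : ℂ) else 0) j) = 0 := by
      funext j
      rw [h]
      simp [comb]
    rw [h3, eval_lin (hLh _)] at h2
    simp at h2
  have hLne : ∀ s, L s ≠ 0 := by
    rintro (i | i) h
    · have h1 := (hLc (fun _ => 1) (fun _ => 1)).1 i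
      rw [h, map_zero] at h1
      exact zero_ne_one h1
    · have h1 := (hLc (fun _ => 1) (fun _ => 1)).2 i
      rw [h, map_zero] at h1
      exact zero_ne_one h1
  -- the polynomial `B (P, Q, Q)`
  set U : MvPolynomial (Fin 6) ℂ := Bf T (comb p fun i => L (Sum.inl i))
    (comb q fun i => L (Sum.inr i)) (comb q fun i => L (Sum.inr i)) with hU
  have hUe : ∀ x : Fin 6 → ℂ, eval x U = Bf T (comb p fun i => eval x (L (Sum.inl i)))
      (comb q fun i => eval x (L (Sum.inr i))) (comb q fun i => eval x (L (Sum.inr i))) := by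
    intro x
    have e1 := map_comb p (aeval x : MvPolynomial (Fin 6) ℂ →ₐ[ℂ] ℂ) (fun i => L (Sum.inl i))
    have e2 := map_comb q (aeval x : MvPolynomial (Fin 6) ℂ →ₐ[ℂ] ℂ) (fun i => L (Sum.inr i))
    simp only [ev_ae] at e1 e2
    rw [hU, eval_Bf, e1, e2]
  have hcombh : ∀ (v : Fin 3 → Fin 6 → ℂ) (f : Fin 3 → MvPolynomial (Fin 6) ℂ),
      (∀ i, (f i).IsHomogeneous 1) → ∀ j, (comb v f j).IsHomogeneous 1 := by
    intro v f hf j
    unfold comb
    refine IsHomogeneous.sum _ _ _ fun i _ => ?_
    exact (hf i).mul (isHomogeneous_C (Fin 6) _)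
  have hUh : U.IsHomogeneous 3 := by
    rw [hU]
    unfold Bf
    refine IsHomogeneous.sum _ _ _ fun i _ => IsHomogeneous.sum _ _ _ fun j _ =>
      IsHomogeneous.sum _ _ _ fun k _ => ?_
    have h1 := (((isHomogeneous_C (Fin 6) (T i j k)).mul
      (hcombh p _ (fun i => hLh (Sum.inl i)) i)).mul
      (hcombh q _ (fun i => hLh (Sum.inr i)) j)).mul (hcombh q _ (fun i => hLh (Sum.inr i)) k)
    exact h1
  have hsum : ∀ a b : Fin 3 → ℂ, eval (fun j => comb p a j + comb q b j) (frm T) =
      3 * Bf T (comb p a) (comb p a) (comb q b) + 3 * Bf T (comb p a) (comb q b) (comb q b) := by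
    intro a b
    have h1 := frm_line hT (comb p a) (comb q b) 1
    simp only [one_mul] at h1
    rw [h1, hp, hq]
    ring
  have hUnd : ¬ frm T ∣ U := by
    rintro ⟨A, hA⟩
    obtain ⟨c, hc⟩ : ∃ c, A = C c := by
      by_cases hU0 : U = 0
      · refine ⟨0, ?_⟩
        rw [C_0]
        rw [hU0] at hA
        exact (mul_eq_zero.1 hA.symm).resolve_left hF0
      · have hA0 : A ≠ 0 := by
          rintro rfl
          exact hU0 (by rw [hA, mul_zero])
        have h1 := totalDegree_mul_of_isDomain hF0 hA0
        rw [← hA, hUh.totalDegree hU0, (frm_hom T).totalDegree hF0] at h1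
        have h2 : A.totalDegree = 0 := by omega
        rw [totalDegree_eq_zero_iff_eq_C] at h2
        exact ⟨_, h2⟩
    have h1 : ∀ a b : Fin 3 → ℂ, Bf T (comb p a) (comb q b) (comb q b) =
        (3 * Bf T (comb p a) (comb p a) (comb q b) +
          3 * Bf T (comb p a) (comb q b) (comb q b)) * c := by
      intro a b
      have h2 := congrArg (eval fun j => comb p a j + comb q b j) hA
      rw [map_mul, hsum, hc, eval_C, hUe] at h2
      have e1 : (fun i => eval (fun j => comb p a j + comb q b j) (L (Sum.inl i))) = a :=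
        funext (hLc a b).1
      have e2 : (fun i => eval (fun j => comb p a j + comb q b j) (L (Sum.inr i))) = b :=
        funext (hLc a b).2
      rw [e1, e2] at h2
      exact h2
    have h3 : ∀ a b : Fin 3 → ℂ, Bf T (comb p a) (comb p a) (comb q b) * c = 0 := by
      intro a b
      have e1 := h1 a b
      have e2 := h1 (fun i => (-1) * a i) b
      rw [comb_smul] at e2
      simp only [Bf_eq, Bg_smul1, Bg_smul2] at e1 e2 ⊢
      have h4 : 6 * (Bg T (comb p a) (comb p a) (comb q b) * c) = 0 := by
        linear_combination - e1 - e2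
      exact (mul_eq_zero.1 h4).resolve_left (by norm_num)
    by_cases hc0 : c = 0
    · -- all points of the second plane are singular
      apply hq0
      apply sing_zero hT hS
      intro y
      have hy := hLx y
      set b0 : Fin 3 → ℂ := fun i => if i = 0 then (1 : ℂ) else 0
      rw [hy]
      have e1 : Bf T (comb q b0) (comb q b0) (fun j =>
          comb p (fun i => eval y (L (Sum.inl i))) j + comb q (fun i => eval y (L (Sum.inr i))) j) =
          Bf T (comb q b0) (comb q b0) (comb p (fun i => eval y (L (Sum.inl i)))) +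
          Bf T (comb q b0) (comb q b0) (comb q (fun i => eval y (L (Sum.inr i)))) := by
        simp only [Bf_eq, Bg_add3]
      rw [e1, comb_zero_of hT hq, add_zero, sw23 hT, sw12 hT, h1, hc0, mul_zero]
    · apply hp0
      apply sing_zero hT hS
      intro y
      have hy := hLx y
      set a0 : Fin 3 → ℂ := fun i => if i = 0 then (1 : ℂ) else 0
      rw [hy]
      have e1 : Bf T (comb p a0) (comb p a0) (fun j =>
          comb p (fun i => eval y (L (Sum.inl i))) j + comb q (fun i => eval y (L (Sum.inr i))) j) =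
          Bf T (comb p a0) (comb p a0) (comb p (fun i => eval y (L (Sum.inl i)))) +
          Bf T (comb p a0) (comb p a0) (comb q (fun i => eval y (L (Sum.inr i)))) := by
        simp only [Bf_eq, Bg_add3]
      rw [e1, comb_zero_of hT hp, zero_add]
      exact (mul_eq_zero.1 (h3 _ _)).resolve_right hc0
  -- the parametrization
  let a' : Fin 3 → MvPolynomial (Fin 4) ℂ := pa _ (X 0) (X 1)
  let b' : Fin 3 → MvPolynomial (Fin 4) ℂ := pa _ (X 2) (X 3)
  set G : Fin 6 → MvPolynomial (Fin 4) ℂ := third T (comb p a') (comb q b') with hG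
  have hev1 : ∀ (v : Fin 3 → Fin 6 → ℂ) (f : Fin 3 → MvPolynomial (Fin 4) ℂ) (z : Fin 4 → ℂ),
      (fun j => eval z (comb v f j)) = comb v (fun i => eval z (f i)) := by
    intro v f z
    have e1 := map_comb v (aeval z : MvPolynomial (Fin 4) ℂ →ₐ[ℂ] ℂ) f
    simpa only [ev_ae] using e1
  have hevB : ∀ (z : Fin 4 → ℂ) (x y w : Fin 6 → MvPolynomial (Fin 4) ℂ),
      eval z (Bf T x y w) = Bf T (fun i => eval z (x i)) (fun i => eval z (y i))
        (fun i => eval z (w i)) := by
    intro z x y w
    rw [← ev_ae, map_Bf]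
    simp only [ev_ae]
  have hPz : Bf T (comb p a') (comb p a') (comb p a') = 0 := by
    apply MvPolynomial.funext
    intro z
    rw [hevB, hev1, hp, map_zero]
  have hQz : Bf T (comb q b') (comb q b') (comb q b') = 0 := by
    apply MvPolynomial.funext
    intro z
    rw [hevB, hev1, hq, map_zero]
  -- degrees
  have hda : ∀ (v : Fin 3 → Fin 6 → ℂ) (f : Fin 3 → MvPolynomial (Fin 4) ℂ),
      (∀ i, (f i).totalDegree ≤ 1) → ∀ j, (comb v f j).totalDegree ≤ 1 := by
    intro v f hf j
    unfold comb
    refine totalDegree_finsetSum_le fun i _ => ?_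
    refine (totalDegree_mul _ _).trans ?_
    rw [algebraMap_eq, totalDegree_C, add_zero]
    exact hf i
  have hdpa : ∀ (s t : Fin 4) (i : Fin 3),
      (pa (MvPolynomial (Fin 4) ℂ) (X s) (X t) i).totalDegree ≤ 1 := by
    intro s t i
    fin_cases i
    · change (1 : MvPolynomial (Fin 4) ℂ).totalDegree ≤ 1
      rw [totalDegree_one]
      norm_num
    · change (X s : MvPolynomial (Fin 4) ℂ).totalDegree ≤ 1
      rw [totalDegree_X]
    · change (X t : MvPolynomial (Fin 4) ℂ).totalDegree ≤ 1
      rw [totalDegree_X]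
  have hdB : ∀ x y w : Fin 6 → MvPolynomial (Fin 4) ℂ, (∀ j, (x j).totalDegree ≤ 1) →
      (∀ j, (y j).totalDegree ≤ 1) → (∀ j, (w j).totalDegree ≤ 1) →
      (Bf T x y w).totalDegree ≤ 3 := by
    intro x y w hx hy hw
    unfold Bf
    refine totalDegree_finsetSum_le fun i _ => totalDegree_finsetSum_le fun j _ =>
      totalDegree_finsetSum_le fun k _ => ?_
    have h1 := totalDegree_mul (algebraMap ℂ (MvPolynomial (Fin 4) ℂ) (T i j k) * x i * y j) (w k)
    have h2 := totalDegree_mul (algebraMap ℂ (MvPolynomial (Fin 4) ℂ) (T i j k) * x i) (y j)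
    have h3 := totalDegree_mul (algebraMap ℂ (MvPolynomial (Fin 4) ℂ) (T i j k)) (x i)
    rw [algebraMap_eq, totalDegree_C] at h3
    rw [algebraMap_eq] at h1 h2
    have := hx i
    have := hy j
    have := hw k
    rw [algebraMap_eq]
    omega
  have hPd := hda p a' (hdpa 0 1)
  have hQd := hda q b' (hdpa 2 3)
  have hGd : ∀ i, (G i).totalDegree ≤ 4 := by
    intro i
    rw [hG]
    unfold third
    refine (totalDegree_add _ _).trans (max_le ?_ ?_)
    · refine (totalDegree_mul _ _).trans ?_
      have := hdB _ _ _ hPd hQd hQd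
      have := hPd i
      omega
    · refine (totalDegree_mul _ _).trans ?_
      rw [totalDegree_neg]
      have := hdB _ _ _ hPd hPd hQd
      have := hQd i
      omega
  -- points
  have hpt : ∀ H : MvPolynomial (Fin 6) ℂ, ¬ frm T ∣ H → ∃ (x : Fin 6 → ℂ) (z : Fin 4 → ℂ) (r : ℂ),
      eval x H ≠ 0 ∧ r ≠ 0 ∧ (∀ i, eval z (G i) = x i * r) ∧
      eval z (Bf T (comb p a') (comb q b') (comb q b')) ≠ 0 ∧
      eval z (Bf T (comb p a') (comb p a') (comb q b')) ≠ 0 := by
    intro H hH
    obtain ⟨x, hxF, hx⟩ := exists_point (irred hT hS) (deg_ne hT hS)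
      {H, L (Sum.inl 0), L (Sum.inr 0), U} (Set.Finite.countable (by simp)) (by
        rintro P (rfl | rfl | rfl | rfl)
        · exact hH
        · exact not_dvd_of_deg hT hS (hLne _) (hLh _) (by norm_num)
        · exact not_dvd_of_deg hT hS (hLne _) (hLh _) (by norm_num)
        · exact hUnd)
    have x1 : eval x H ≠ 0 := hx _ (by simp)
    have x2 : eval x (L (Sum.inl 0)) ≠ 0 := hx _ (by simp)
    have x3 : eval x (L (Sum.inr 0)) ≠ 0 := hx _ (by simp)
    have x4 : eval x U ≠ 0 := hx _ (by simp)
    rw [hUe] at x4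
    set a : Fin 3 → ℂ := fun i => eval x (L (Sum.inl i)) with ha
    set b : Fin 3 → ℂ := fun i => eval x (L (Sum.inr i)) with hb
    have ha0 : a 0 ≠ 0 := x2
    have hb0 : b 0 ≠ 0 := x3
    have hxe : x = fun j => comb p a j + comb q b j := hLx x
    have hw : Bf T (comb p a) (comb p a) (comb q b) = -Bf T (comb p a) (comb q b) (comb q b) := by
      have h1 := hsum a b
      rw [← hxe, hxF] at h1
      have h2 : 3 * (Bf T (comb p a) (comb p a) (comb q b) +
          Bf T (comb p a) (comb q b) (comb q b)) = 0 := by linear_combination - h1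
      have h3 := (mul_eq_zero.1 h2).resolve_left (by norm_num)
      linear_combination h3
    set u := Bf T (comb p a) (comb q b) (comb q b) with hu
    let z : Fin 4 → ℂ := ![a 1 / a 0, a 2 / a 0, b 1 / b 0, b 2 / b 0]
    have hza : (fun i => eval z (a' i)) = fun i => (a 0)⁻¹ * a i := by
      funext i
      fin_cases i
      · change eval z 1 = (a 0)⁻¹ * a 0
        rw [map_one, inv_mul_cancel₀ ha0]
      · change eval z (X 0) = (a 0)⁻¹ * a 1
        rw [eval_X]
        change a 1 / a 0 = _
        field_simp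
      · change eval z (X 1) = (a 0)⁻¹ * a 2
        rw [eval_X]
        change a 2 / a 0 = _
        field_simp
    have hzb : (fun i => eval z (b' i)) = fun i => (b 0)⁻¹ * b i := by
      funext i
      fin_cases i
      · change eval z 1 = (b 0)⁻¹ * b 0
        rw [map_one, inv_mul_cancel₀ hb0]
      · change eval z (X 2) = (b 0)⁻¹ * b 1
        rw [eval_X]
        change b 1 / b 0 = _
        field_simp
      · change eval z (X 3) = (b 0)⁻¹ * b 2
        rw [eval_X]
        change b 2 / b 0 = _
        field_simp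
    have hzP : (fun j => eval z (comb p a' j)) = fun j => (a 0)⁻¹ * comb p a j := by
      rw [hev1, hza, comb_smul]
    have hzQ : (fun j => eval z (comb q b' j)) = fun j => (b 0)⁻¹ * comb q b j := by
      rw [hev1, hzb, comb_smul]
    have hzu : eval z (Bf T (comb p a') (comb q b') (comb q b')) =
        (a 0)⁻¹ * (b 0)⁻¹ ^ 2 * u := by
      rw [hevB, hzP, hzQ]
      simp only [Bf_eq, Bg_smul1, Bg_smul2, Bg_smul3]
      simp only [← Bf_eq]
      rw [← hu]
      ring
    have hzw : eval z (Bf T (comb p a') (comb p a') (comb q b')) =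
        -((a 0)⁻¹ ^ 2 * (b 0)⁻¹ * u) := by
      rw [hevB, hzP, hzQ]
      simp only [Bf_eq, Bg_smul1, Bg_smul2, Bg_smul3]
      simp only [← Bf_eq]
      rw [hw]
      ring
    have hi0 := inv_ne_zero ha0
    have hj0 := inv_ne_zero hb0
    refine ⟨x, z, (a 0)⁻¹ ^ 2 * (b 0)⁻¹ ^ 2 * u, x1,
      mul_ne_zero (mul_ne_zero (pow_ne_zero _ hi0) (pow_ne_zero _ hj0)) x4, ?_, ?_, ?_⟩
    · intro i
      rw [hG]
      unfold third
      rw [map_add, map_mul, map_mul, map_neg, hzu, hzw]
      have e1 := congrFun hzP i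
      have e2 := congrFun hzQ i
      rw [e1, e2]
      have e3 := congrFun hxe i
      rw [e3]
      ring
    · rw [hzu]
      exact mul_ne_zero (mul_ne_zero hi0 (pow_ne_zero _ hj0)) x4
    · rw [hzw]
      exact neg_ne_zero.2 (mul_ne_zero (mul_ne_zero (pow_ne_zero _ hi0) hj0) x4)
  have hone : ¬ frm T ∣ 1 := fun h => (irred hT hS).not_isUnit (isUnit_of_dvd_one h)
  refine ⟨G, hGd, ⟨?_, ?_⟩, ?_⟩
  · rw [aeval_frm]
    exact Bf_third hT _ _ hPz hQz
  · intro e H hH h0
    by_contra hnd
    obtain ⟨x, z, r, h1, h2, h3, _, _⟩ := hpt H hnd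
    have h4 : eval z (aeval G H) = aeval (fun i => x i * r) H := by
      have h5 : (aeval z).comp (aeval G) =
          (aeval (fun i => x i * r) : MvPolynomial (Fin 6) ℂ →ₐ[ℂ] ℂ) := by
        apply algHom_ext
        intro i
        rw [AlgHom.comp_apply, aeval_X, aeval_X, ev_ae]
        exact h3 i
      rw [← h5, AlgHom.comp_apply, ev_ae]
    rw [h0, map_zero, aeval_scale x r e H hH, ev_ae] at h4
    exact mul_ne_zero h1 (pow_ne_zero e h2) h4.symm
  · obtain ⟨x, z, r, h1, h2, h3, h4, h5⟩ := hpt 1 hone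
    set K := FractionRing (MvPolynomial (Fin 4) ℂ)
    let al : MvPolynomial (Fin 4) ℂ →ₐ[ℂ] K := IsScalarTower.toAlgHom ℂ _ K
    have hal : Function.Injective al := IsFractionRing.injective (MvPolynomial (Fin 4) ℂ) K
    set u' := Bf T (comb p a') (comb q b') (comb q b') with hu'
    set w' := Bf T (comb p a') (comb p a') (comb q b') with hw'
    have hu0 : u' ≠ 0 := by
      intro h
      rw [h, map_zero] at h4
      exact h4 rfl
    have hw0 : w' ≠ 0 := by
      intro h
      rw [h, map_zero] at h5
      exact h5 rfl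
    -- the coordinates of `G`
    have hGL : ∀ s, aeval G (L s) = Sum.elim (fun i => u' * a' i) (fun i => -w' * b' i) s := by
      intro s
      apply MvPolynomial.funext
      intro y
      have e1 : eval y (aeval G (L s)) = eval (fun i => eval y (G i)) (L s) := by
        have h6 : (aeval y).comp (aeval G) =
            (aeval (fun i => eval y (G i)) : MvPolynomial (Fin 6) ℂ →ₐ[ℂ] ℂ) := by
          apply algHom_ext
          intro i
          rw [AlgHom.comp_apply, aeval_X, aeval_X, ev_ae]
        rw [← ev_ae, ← ev_ae, ← h6, AlgHom.comp_apply]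
      have e2 : (fun i => eval y (G i)) = fun j => comb p (fun i => eval y (u' * a' i)) j +
          comb q (fun i => eval y (-w' * b' i)) j := by
        have f1 : (fun i => eval y (u' * a' i)) = fun i => eval y u' * eval y (a' i) :=
          funext fun i => map_mul _ _ _
        have f2 : (fun i => eval y (-w' * b' i)) = fun i => (-eval y w') * eval y (b' i) :=
          funext fun i => by rw [map_mul, map_neg]
        rw [f1, f2, comb_smul, comb_smul]
        funext j
        have f3 := congrFun (hev1 p a' y) j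
        have f4 := congrFun (hev1 q b' y) j
        beta_reduce
        rw [← f3, ← f4, hG]
        unfold third
        rw [map_add, map_mul, map_mul, map_neg]
      rw [e1, e2]
      rcases s with i | i
      · exact (hLc _ _).1 i
      · exact (hLc _ _).2 i
    set y : Fin 6 → K := fun i => algebraMap (MvPolynomial (Fin 4) ℂ) K (G i) with hy
    have hyL : ∀ s, aeval y (L s) = al (aeval G (L s)) := by
      intro s
      have : (aeval y : MvPolynomial (Fin 6) ℂ →ₐ[ℂ] K) = al.comp (aeval G) := by
        apply algHom_ext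
        intro i
        rw [aeval_X, AlgHom.comp_apply, aeval_X]
        rfl
      rw [this, AlgHom.comp_apply]
    have halu : al u' ≠ 0 := fun h => hu0 (hal (by rw [h, map_zero]))
    have halw : al w' ≠ 0 := fun h => hw0 (hal (by rw [h, map_zero]))
    have hy0 : ∃ c, y c ≠ 0 := by
      by_contra hcon
      push Not at hcon
      have h6 := hyL (Sum.inl 0)
      have h7 : y = fun _ => 0 := funext hcon
      have h8 : aeval (fun _ => 0 : Fin 6 → K) (L (Sum.inl 0)) = 0 := by
        have := aeval_scale (fun _ => (1 : K)) (0 : K) 1 (L (Sum.inl 0)) (hLh _)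
        simpa using this
      rw [h7, h8, hGL] at h6
      change 0 = al (u' * 1) at h6
      rw [mul_one] at h6
      exact halu h6.symm
    have hmem : ∀ s : Fin 4, al (X s) ∈ ratioField y := by
      intro s
      fin_cases s
      · have h6 := ratio_mem y hy0 (hLh (Sum.inl 1)) (hLh (Sum.inl 0))
        rw [hyL, hyL, hGL, hGL] at h6
        change al (u' * X 0) / al (u' * 1) ∈ ratioField y at h6
        rw [mul_one, map_mul, mul_comm, mul_div_assoc, div_self halu, mul_one] at h6
        exact h6
      · have h6 := ratio_mem y hy0 (hLh (Sum.inl 2)) (hLh (Sum.inl 0))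
        rw [hyL, hyL, hGL, hGL] at h6
        change al (u' * X 1) / al (u' * 1) ∈ ratioField y at h6
        rw [mul_one, map_mul, mul_comm, mul_div_assoc, div_self halu, mul_one] at h6
        exact h6
      · have h6 := ratio_mem y hy0 (hLh (Sum.inr 1)) (hLh (Sum.inr 0))
        rw [hyL, hyL, hGL, hGL] at h6
        change al (-w' * X 2) / al (-w' * 1) ∈ ratioField y at h6
        rw [mul_one, map_mul, map_neg, mul_comm, mul_div_assoc,
          div_self (neg_ne_zero.2 halw), mul_one] at h6
        exact h6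
      · have h6 := ratio_mem y hy0 (hLh (Sum.inr 2)) (hLh (Sum.inr 0))
        rw [hyL, hyL, hGL, hGL] at h6
        change al (-w' * X 3) / al (-w' * 1) ∈ ratioField y at h6
        rw [mul_one, map_mul, map_neg, mul_comm, mul_div_assoc,
          div_self (neg_ne_zero.2 halw), mul_one] at h6
        exact h6
    have h6 : ∀ f : MvPolynomial (Fin 4) ℂ, al f ∈ ratioField y := by
      intro f
      induction f using MvPolynomial.induction_on with
      | C a =>
        have : al (C a) = algebraMap ℂ K a := al.commutes a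
        rw [this]
        exact (ratioField y).algebraMap_mem a
      | add f g hf hg =>
        rw [map_add]
        exact add_mem hf hg
      | mul_X f i hf =>
        rw [map_mul]
        exact mul_mem hf (hmem i)
    rw [eq_top_iff]
    intro v _
    obtain ⟨f, g, h⟩ := IsFractionRing.div_surjective (A := MvPolynomial (Fin 4) ℂ) v
    rw [← h.2]
    exact div_mem (h6 f) (h6 g)

end

end Pool.Agent.H44T.CF
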